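import Pool.Agent.Lib.MP_ddf912_lc.Rel.Defs
import Pool.Agent.Lib.MP_ddf912_lc.Basic
import Pool.Agent.Lib.helper82.Sim

/-! General tools for oracle constructions. -/

namespace Pool.Agent.Lib.MP_ddf912_lc.Rel

open N487b59b3 N68a2faeb Pool.Agent.Lib.helper82 Function Classical

theorem exists_fix (Φ : Set Str → Str → Prop)
    (h : ∀ X Y s, (∀ t : Str, t.length < s.length → (t ∈ X ↔ t ∈ Y)) → (Φ X s ↔ Φ Y s)) :
    ∃ A : Set Str, ∀ s, s ∈ A ↔ Φ A s := by
  let f : Str → Prop := (measure List.length).wf.fix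
    fun s r => Φ {t | ∃ h : t.length < s.length, r t h} s
  refine ⟨{s | f s}, fun s => ?_⟩
  have e : f s = Φ {t | ∃ _ : t.length < s.length, f t} s := WellFounded.fix_eq _ _ _
  change f s ↔ _
  rw [e]
  exact h _ _ _ fun t ht => by simp [ht]

def Agree (b : ℕ) (H H' : Set Str) : Prop := ∀ s : Str, s.length ≤ b → (s ∈ H ↔ s ∈ H')

theorem Agree.symm {b : ℕ} {H H' : Set Str} (h : Agree b H H') : Agree b H' H :=
  fun s hs => (h s hs).symm

theorem Agree.trans {b : ℕ} {H H' H'' : Set Str} (h : Agree b H H') (h' : Agree b H' H'') :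
    Agree b H H'' := fun s hs => (h s hs).trans (h' s hs)

theorem Agree.mono {b b' : ℕ} {H H' : Set Str} (h : Agree b H H') (hb : b' ≤ b) : Agree b' H H' :=
  fun s hs => h s (hs.trans hb)

/-- The finite extension method, for an arbitrary type of objects with a notion of agreement
on each length. -/
theorem finite_ext_gen {ι γ : Type} [Countable ι] [Nonempty ι] [Nonempty γ]
    (Req : ι → (Str → γ) → Prop)
    (h : ∀ i (H : Str → γ) (b : ℕ), ∃ (H' : Str → γ) (b' : ℕ), b ≤ b' ∧
      (∀ s : Str, s.length ≤ b → H s = H' s) ∧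
      ∀ H'' : Str → γ, (∀ s : Str, s.length ≤ b' → H' s = H'' s) → Req i H'') :
    ∃ H, ∀ i, Req i H := by
  obtain ⟨e, he⟩ := exists_surjective_nat ι
  choose F B h1 h2 h3 using h
  let st : ℕ → (Str → γ) × ℕ := fun n => Nat.rec (fun _ => Classical.arbitrary γ, 0)
    (fun j p => (F (e j) p.1 (p.2 + 1), B (e j) p.1 (p.2 + 1))) n
  have s1 : ∀ j, (st j).2 + 1 ≤ (st (j + 1)).2 := fun j => h1 _ _ _
  have s2 : ∀ j, j ≤ (st j).2 := fun j => by
    induction j with
    | zero => exact Nat.zero_le _
    | succ j ih => exact (Nat.succ_le_succ ih).trans (s1 j)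
  have s3 : ∀ j j', j ≤ j' → (st j).2 ≤ (st j').2 ∧
      ∀ s : Str, s.length ≤ (st j).2 → (st j).1 s = (st j').1 s := by
    intro j j' hj
    induction j', hj using Nat.le_induction with
    | base => exact ⟨le_rfl, fun _ _ => rfl⟩
    | succ m _ ih =>
      refine ⟨ih.1.trans ((Nat.le_succ _).trans (s1 m)), fun s hs => (ih.2 s hs).trans ?_⟩
      exact h2 _ _ _ s (hs.trans (ih.1.trans (Nat.le_succ _)))
  refine ⟨fun s => (st s.length).1 s, fun i => ?_⟩
  obtain ⟨j, rfl⟩ := he i
  refine h3 (e j) (st j).1 ((st j).2 + 1) _ fun s hs => ?_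
  change (st (j + 1)).1 s = _
  rcases le_total (j + 1) s.length with h | h
  · exact (s3 _ _ h).2 s hs
  · exact ((s3 _ _ h).2 s (s2 _)).symm

theorem finite_ext {ι : Type} [Countable ι] [Nonempty ι] (Req : ι → Set Str → Prop)
    (h : ∀ i (H : Set Str) (b : ℕ), ∃ (H' : Set Str) (b' : ℕ), b ≤ b' ∧ Agree b H H' ∧
      ∀ H'', Agree b' H' H'' → Req i H'') : ∃ H, ∀ i, Req i H := by
  refine finite_ext_gen (γ := Prop) Req fun i H b => ?_
  obtain ⟨H', b', h1, h2, h3⟩ := h i H b
  exact ⟨H', b', h1, fun s hs => propext (h2 s hs), fun H'' h4 =>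
    h3 H'' fun s hs => iff_of_eq (h4 s hs)⟩

theorem exec_det {p : Prog} {S S₁ S₂ : St} {n m : ℕ} (h : Exec p S S₁ n) (h' : Exec p S S₂ m) :
    S₁ = S₂ := by
  induction h generalizing S₂ m with
  | skip S => cases h'; rfl
  | push r b S => cases h'; rfl
  | pop r S => cases h'; rfl
  | seq _ _ ih1 ih2 =>
    cases h' with
    | seq a b => exact ih2 (ih1 a ▸ b)
  | caseE hh _ ih =>
    cases h' with
    | caseE _ b => exact ih b
    | caseF a _ => simp [hh] at a
    | caseT a _ => simp [hh] at a
  | caseF hh _ ih =>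
    cases h' with
    | caseE a _ => simp [hh] at a
    | caseF _ b => exact ih b
    | caseT a _ => simp [hh] at a
  | caseT hh _ ih =>
    cases h' with
    | caseE a _ => simp [hh] at a
    | caseF a _ => simp [hh] at a
    | caseT _ b => exact ih b
  | loopE hh =>
    cases h' with
    | loopE _ => rfl
    | loopN a _ _ => exact absurd hh a
  | loopN hh _ _ ih1 ih2 =>
    cases h' with
    | loopE a => exact absurd a hh
    | loopN _ a b => exact ih2 (ih1 a ▸ b)

deriving instance Countable for Prog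

theorem countable_PT {α β : Type} [Enc α] [Enc β] : Countable {F : α → β // PT F} := by
  have h : ∀ F : {F : α → β // PT F}, ∃ c : Prog, ∀ a, ∃ n,
      Exec c (update (fun _ => []) 0 (enc a))
        (update (update (fun _ => []) 0 (enc a)) 1 (enc (F.1 a))) n := by
    rintro ⟨F, T, -, h⟩
    obtain ⟨c, hc⟩ := h 0 1 2 (by omega) (by omega) (by omega)
    refine ⟨c, fun a => ?_⟩
    obtain ⟨n, -, hn⟩ := hc a (update (fun _ => []) 0 (enc a)) (by simp) (fun r hr => by
      have : r ≠ 0 := by omega
      simp [this]) (by simp)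
    exact ⟨n, hn⟩
  choose c hc using h
  refine (show Injective c from fun F G e => Subtype.ext (funext fun a => ?_)).countable
  obtain ⟨n, h1⟩ := hc F a
  obtain ⟨m, h2⟩ := hc G a
  rw [e] at h1
  have := congrFun (exec_det h1 h2) 1
  simp only [update_self] at this
  exact enc_injective this

theorem length_hist (A : Set Str) (S : (Str × Str) × Str → Str) (u : Str × Str) :
    ∀ n, (hist A S u n).length = n
  | 0 => rfl
  | n + 1 => by simp [hist, length_hist A S u n]

theorem hist_congr {A A' : Set Str} {S : (Str × Str) × Str → Str} {u : Str × Str} :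
    ∀ n, (∀ j < n, S (u, hist A S u j) ∈ A ↔ S (u, hist A S u j) ∈ A') →
      hist A' S u n = hist A S u n
  | 0, _ => rfl
  | n + 1, h => by
    have ih := hist_congr n fun j hj => h j (by omega)
    simp only [hist, ih, h n (by omega)]

theorem take_hist (A : Set Str) (S : (Str × Str) × Str → Str) (u : Str × Str) {j : ℕ} :
    ∀ n, j ≤ n → (hist A S u n).take j = hist A S u j := by
  intro n hn
  induction n, hn using Nat.le_induction with
  | base => exact List.take_of_length_le (by rw [length_hist])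
  | succ m hm ih => rw [hist, List.take_append_of_le_length (by rwa [length_hist]), ih]

/-- The queries of a polynomial time query map have polynomial length. -/
theorem query_len {S : (Str × Str) × Str → Str} (hS : PT S) (c : ℕ) :
    ∃ e, ∀ (x p h : Str) (z : ℕ), 2 ≤ z → x.length + p.length + 1 ≤ z → h.length ≤ z ^ c →
      (S ((x, p), h)).length ≤ z ^ e := by
  obtain ⟨q, hq⟩ := hS.sz_bd
  have hb : Bd (fun z => z) fun z => q.eval (12 * z + 3 + 3 * z ^ c) :=
    ((((Bd.const 12).mul Bd.self).add (Bd.const 3)).add ((Bd.const 3).mul (Bd.self.pow c))).eval q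
  obtain ⟨e, he⟩ := hb.le_pow
  refine ⟨e, fun x p h z h2 hz hh => le_trans ?_ (he z h2)⟩
  have h1 := hq ((x, p), h)
  simp only [sz_prod, PT.sz_listBool] at h1
  refine le_trans (le_trans (by omega) h1) (eval_mono q (by omega))

end Pool.Agent.Lib.MP_ddf912_lc.Rel
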