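import Mathlib

/-! Hiding a planted point of a random product set from many narrow disjunctions. -/

namespace Pool.Agent.Lib.MP_ddf912_lc.Rel

open Finset Classical

theorem ext_card {α β : Type} [Fintype α] [DecidableEq α] [Fintype β] (K : Finset α) (τ : α → β) :
    Fintype.card β ^ K.card * (univ.filter fun σ : α → β => ∀ p ∈ K, σ p = τ p).card =
      Fintype.card β ^ Fintype.card α := by
  have e : (univ.filter fun σ : α → β => ∀ p ∈ K, σ p = τ p) =
      Fintype.piFinset fun p => if p ∈ K then {τ p} else univ := by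
    ext σ
    simp only [mem_filter, mem_univ, true_and, Fintype.mem_piFinset]
    refine ⟨fun h p => ?_, fun h p hp => ?_⟩
    · split_ifs with hp
      · simp [h p hp]
      · simp
    · simpa [hp] using h p
  rw [e, Fintype.card_piFinset]
  have e2 : ∀ p : α, (if p ∈ K then ({τ p} : Finset β) else univ).card =
      if p ∈ K then 1 else Fintype.card β := fun p => by split_ifs <;> simp
  simp only [e2]
  rw [prod_ite, prod_const_one, one_mul, prod_const, ← pow_add]
  congr 1
  have := card_filter_add_card_filter_not (s := (univ : Finset α)) (fun p => p ∈ K)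
  simp only [filter_univ_mem, card_univ] at this
  exact this

section Branch

variable {X : Type} [Fintype X] {k : ℕ}

/-- The point `y` has all its coordinates on the graph of `σ`. -/
def InP (σ : X → X) (y : Fin k → X × X) : Prop := ∀ i, σ (y i).1 = (y i).2

def Hits {U : Type} (H : Set (Finset U)) (Q : U → Prop) : Prop := ∀ e ∈ H, ∃ y ∈ e, Q y

noncomputable def badS (H : Set (Finset (Fin k → X × X))) (K : Finset X) (τ : X → X) (r : ℕ) :
    Finset (X → X) :=
  univ.filter fun σ => (∀ p ∈ K, σ p = τ p) ∧ Hits H (InP σ) ∧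
    ∀ K' : Finset X, K ⊆ K' → K'.card + k ≤ K.card + k * r →
      ¬ Hits H fun y => InP σ y ∧ ∀ i, (y i).1 ∈ K'

theorem badS_card (H : Set (Finset (Fin k → X × X))) (w : ℕ) (hw : ∀ e ∈ H, e.card ≤ w) :
    ∀ (r : ℕ) (K : Finset X) (τ : X → X),
      Fintype.card X ^ r * Fintype.card X ^ K.card * (badS H K τ r).card ≤
        w ^ r * Fintype.card X ^ Fintype.card X := by
  intro r
  induction r with
  | zero =>
    intro K τ
    simp only [pow_zero, one_mul]
    rw [← ext_card K τ]
    refine Nat.mul_le_mul_left _ (card_le_card fun σ hσ => ?_)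
    simp only [badS, mem_filter, mem_univ, true_and] at hσ ⊢
    exact hσ.1
  | succ r ih =>
    intro K τ
    rcases (badS H K τ (r + 1)).eq_empty_or_nonempty with h0 | ⟨σ0, h0⟩
    · simp [h0]
    simp only [badS, mem_filter, mem_univ, true_and] at h0
    have h1 := h0.2.2 K Subset.rfl (by nlinarith)
    simp only [Hits, not_forall, not_exists, not_and] at h1
    obtain ⟨e, he, h1⟩ := h1
    have hsub : badS H K τ (r + 1) ⊆
        e.biUnion fun y => (badS H K τ (r + 1)).filter fun σ => InP σ y := by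
      intro σ hσ
      have hσ' := hσ
      simp only [badS, mem_filter, mem_univ, true_and] at hσ'
      obtain ⟨y, hy, hy'⟩ := hσ'.2.1 e he
      exact mem_biUnion.2 ⟨y, hy, mem_filter.2 ⟨hσ, hy'⟩⟩
    have hpiece : ∀ y ∈ e, Fintype.card X ^ (r + 1) * Fintype.card X ^ K.card *
        ((badS H K τ (r + 1)).filter fun σ => InP σ y).card ≤
          w ^ r * Fintype.card X ^ Fintype.card X := by
      intro y hy
      rcases ((badS H K τ (r + 1)).filter fun σ => InP σ y).eq_empty_or_nonempty with
        h2 | ⟨σ1, h2⟩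
      · simp [h2]
      simp only [badS, mem_filter, mem_univ, true_and] at h2
      set Ky := K ∪ univ.image fun i => (y i).1 with hKy
      have hnew : ∃ i, (y i).1 ∉ K := by
        by_contra hc
        push Not at hc
        obtain ⟨i, hi⟩ := h1 y hy (fun i => by
          rw [h0.1 _ (hc i), ← h2.1.1 _ (hc i)]; exact h2.2 i)
        exact hi (hc i)
      have hK1 : K.card + 1 ≤ Ky.card := by
        obtain ⟨i, hi⟩ := hnew
        refine card_lt_card ⟨subset_union_left, fun hs => hi (hs ?_)⟩
        exact mem_union_right _ (mem_image_of_mem _ (mem_univ i))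
      have hK2 : Ky.card ≤ K.card + k := by
        refine (card_union_le _ _).trans (Nat.add_le_add_left ?_ _)
        exact card_image_le.trans (by simp)
      have hs : ((badS H K τ (r + 1)).filter fun σ => InP σ y) ⊆ badS H Ky σ1 r := by
        intro σ hσ
        simp only [badS, mem_filter, mem_univ, true_and] at hσ ⊢
        refine ⟨fun p hp => ?_, hσ.1.2.1, fun K' h3 h4 => hσ.1.2.2 K'
          (subset_union_left.trans h3) (by nlinarith)⟩
        rcases mem_union.1 hp with hp | hp
        · rw [hσ.1.1 p hp, h2.1.1 p hp]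
        · obtain ⟨i, -, rfl⟩ := mem_image.1 hp
          rw [hσ.2 i, h2.2 i]
      refine le_trans ?_ (ih Ky σ1)
      refine Nat.mul_le_mul ?_ (card_le_card hs)
      rw [← pow_add, ← pow_add]
      have hX : 0 < Fintype.card X := by
        obtain ⟨i, -⟩ := hnew
        exact Fintype.card_pos_iff.2 ⟨(y i).1⟩
      exact Nat.pow_le_pow_right hX (by omega)
    calc Fintype.card X ^ (r + 1) * Fintype.card X ^ K.card * (badS H K τ (r + 1)).card
        ≤ Fintype.card X ^ (r + 1) * Fintype.card X ^ K.card *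
          ∑ y ∈ e, ((badS H K τ (r + 1)).filter fun σ => InP σ y).card :=
          Nat.mul_le_mul_left _ ((card_le_card hsub).trans card_biUnion_le)
      _ = ∑ y ∈ e, Fintype.card X ^ (r + 1) * Fintype.card X ^ K.card *
          ((badS H K τ (r + 1)).filter fun σ => InP σ y).card := mul_sum _ _ _
      _ ≤ e.card • (w ^ r * Fintype.card X ^ Fintype.card X) := sum_le_card_nsmul _ _ _ hpiece
      _ ≤ w ^ (r + 1) * Fintype.card X ^ Fintype.card X := by
          rw [smul_eq_mul, pow_succ]
          have := hw e he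
          nlinarith [Nat.zero_le (w ^ r * Fintype.card X ^ Fintype.card X)]

theorem card_InP_mem (σ : X → X) (K : Finset X) :
    (univ.filter fun y : Fin k → X × X => InP σ y ∧ ∀ i, (y i).1 ∈ K).card ≤ K.card ^ k := by
  have : (Fintype.piFinset fun _ : Fin k => K).card = K.card ^ k := by simp
  rw [← this]
  refine card_le_card_of_injOn (fun y i => (y i).1) (fun y hy => ?_) (fun y hy z hz h => ?_)
  · simp only [coe_filter, mem_univ, true_and, Set.mem_ofPred_eq] at hy
    simpa using hy.2
  · simp only [coe_filter, mem_univ, true_and, Set.mem_ofPred_eq] at hy hz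
    funext i
    have h1 : (y i).1 = (z i).1 := congrFun h i
    exact Prod.ext h1 (by rw [← hy.1 i, ← hz.1 i, h1])

theorem card_InP (σ : X → X) :
    (univ.filter fun y : Fin k → X × X => InP σ y).card = Fintype.card X ^ k := by
  have : (univ : Finset (Fin k → X)).card = Fintype.card X ^ k := by simp
  rw [← this]
  refine card_bij' (fun y _ i => (y i).1) (fun u _ i => (u i, σ (u i))) (by simp)
    (fun u _ => mem_filter.2 ⟨mem_univ _, fun i => rfl⟩) (fun y hy => ?_) (by simp)
  simp only [mem_filter, mem_univ, true_and] at hy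
  funext i
  exact Prod.ext rfl (hy i)

end Branch

section Mix

variable {U : Type} [Fintype U] [DecidableEq U] {q : ℕ} [NeZero q]

/-- The pair `(pos, neg)` forces `F`. -/
def Forces (F : Set U → Prop) (pos neg : Finset U) : Prop :=
  ∀ B : Set U, (∀ z ∈ pos, z ∈ B) → (∀ z ∈ neg, z ∉ B) → F B

/-- `F` is a disjunction of terms with at most `w` positive and `w` negative literals. -/
def Narrow (w : ℕ) (F : Set U → Prop) : Prop :=
  ∀ B, F B → ∃ pos neg : Finset U, pos.card ≤ w ∧ neg.card ≤ w ∧ (∀ z ∈ pos, z ∈ B) ∧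
    (∀ z ∈ neg, z ∉ B) ∧ Forces F pos neg

theorem good_card (y : U) (neg : Finset U) (hy : y ∉ neg) (hq : 2 * neg.card ≤ q) :
    q ^ Fintype.card U ≤
      2 * q * (univ.filter fun γ : U → Fin q => γ y = 0 ∧ ∀ z ∈ neg, γ z ≠ 0).card := by
  have hq0 : 0 < q := Nat.pos_of_ne_zero (NeZero.ne q)
  have h1 := ext_card (β := Fin q) {y} (fun _ => 0)
  simp only [Fintype.card_fin, card_singleton, pow_one, mem_singleton, forall_eq] at h1
  have h2 : ∀ z ∈ neg, q * q * (univ.filter fun γ : U → Fin q => γ y = 0 ∧ γ z = 0).card =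
      q ^ Fintype.card U := by
    intro z hz
    have hne : y ≠ z := fun h => hy (h ▸ hz)
    have h3 := ext_card (β := Fin q) {y, z} (fun _ => 0)
    simp only [Fintype.card_fin, card_pair hne, mem_insert, mem_singleton, forall_eq_or_imp,
      forall_eq] at h3
    rw [← h3, pow_two]
  have h3 : (univ.filter fun γ : U → Fin q => γ y = 0) ⊆
      (univ.filter fun γ : U → Fin q => γ y = 0 ∧ ∀ z ∈ neg, γ z ≠ 0) ∪
        neg.biUnion fun z => univ.filter fun γ : U → Fin q => γ y = 0 ∧ γ z = 0 := by
    intro γ hγ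
    simp only [mem_filter, mem_univ, true_and, mem_union, mem_biUnion] at hγ ⊢
    by_cases h : ∀ z ∈ neg, γ z ≠ 0
    · exact Or.inl ⟨hγ, h⟩
    · push Not at h
      obtain ⟨z, hz, h⟩ := h
      exact Or.inr ⟨z, hz, hγ, h⟩
  have h4 := (card_le_card h3).trans ((card_union_le _ _).trans
    (Nat.add_le_add_left card_biUnion_le _))
  have h5 : q * q * ∑ z ∈ neg, (univ.filter fun γ : U → Fin q => γ y = 0 ∧ γ z = 0).card =
      neg.card * q ^ Fintype.card U := by
    rw [mul_sum, sum_congr rfl h2, sum_const, smul_eq_mul]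
  set Q := q ^ Fintype.card U
  set a := (univ.filter fun γ : U → Fin q => γ y = 0).card
  set g := (univ.filter fun γ : U → Fin q => γ y = 0 ∧ ∀ z ∈ neg, γ z ≠ 0).card
  set s := ∑ z ∈ neg, (univ.filter fun γ : U → Fin q => γ y = 0 ∧ γ z = 0).card
  have h6 : q * Q ≤ q * (q * g) + neg.card * Q := by
    rw [← h5, ← h1]
    nlinarith [Nat.mul_le_mul_left (q * q) h4]
  have h7 : 2 * neg.card * Q ≤ q * Q := Nat.mul_le_mul_right _ hq
  have h8 : q * Q ≤ q * (2 * q * g) := by nlinarith
  exact Nat.le_of_mul_le_mul_left h8 hq0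

noncomputable def mix (P : U → Prop) (β γ : U → Fin q) : U → Fin q :=
  fun z => if P z then γ z else β z

def outS (P : U → Prop) (β : U → Fin q) : Set U := {z | β z = 0 ∧ ¬ P z}

/-- The positive parts of the narrow terms of `F` that hold at the zero set of `β`. -/
def termH (w : ℕ) (F : Set U → Prop) (β : U → Fin q) : Set (Finset U) :=
  {pos | pos.card ≤ w ∧ ∃ neg : Finset U, (∀ z ∈ pos, β z = 0) ∧ (∀ z ∈ neg, β z ≠ 0) ∧
    Forces F pos neg}

noncomputable def priv (P : U → Prop) (H : Set (Finset U)) : Finset U :=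
  univ.filter fun y => P y ∧ ∃ e ∈ H, y ∈ e ∧ ∀ z ∈ e, P z → z = y

noncomputable def sens (P : U → Prop) (F : Set U → Prop) (B : Set U) : Finset U :=
  univ.filter fun y => P y ∧ F (insert y B)

omit [Fintype U] [DecidableEq U] in
theorem outS_mix (P : U → Prop) (β γ : U → Fin q) : outS P (mix P β γ) = outS P β := by
  ext z
  by_cases h : P z <;> simp [outS, mix, h]

theorem many_priv (P : U → Prop) (F : Set U → Prop) (w L : ℕ) (hF : Narrow w F) (hq : 2 * w ≤ q)
    (β : U → Fin q) (h0 : ¬ F (outS P β)) (hs : 4 * q * L < (sens P F (outS P β)).card) :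
    q ^ Fintype.card U ≤
      4 * q * (univ.filter fun γ : U → Fin q => L < (priv P (termH w F (mix P β γ))).card).card := by
  have hT : ∀ y ∈ sens P F (outS P β), ∃ neg : Finset U, y ∉ neg ∧ neg.card ≤ w ∧
      ∀ γ : U → Fin q, γ y = 0 → (∀ z ∈ neg, γ z ≠ 0) → y ∈ priv P (termH w F (mix P β γ)) := by
    intro y hy
    simp only [sens, mem_filter, mem_univ, true_and] at hy
    obtain ⟨pos, neg, h1, h2, h3, h4, h5⟩ := hF _ hy.2
    have hyp : y ∈ pos := by
      by_contra hc
      refine h0 (h5 _ (fun z hz => ?_) fun z hz hz' => h4 z hz (Or.inr hz'))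
      rcases h3 z hz with rfl | h
      · exact absurd hz hc
      · exact h
    refine ⟨neg, fun h => h4 y h (Or.inl rfl), h2, fun γ g1 g2 => ?_⟩
    simp only [priv, mem_filter, mem_univ, true_and]
    refine ⟨hy.1, pos, ⟨h1, neg, fun z hz => ?_, fun z hz => ?_, h5⟩, hyp, fun z hz hP => ?_⟩
    · rcases h3 z hz with rfl | h
      · simp [mix, hy.1, g1]
      · simp [mix, h.2, h.1]
    · by_cases hP : P z
      · simp [mix, hP, g2 z hz]
      · simp only [mix, hP, if_false]
        exact fun h => h4 z hz (Or.inr ⟨h, hP⟩)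
    · rcases h3 z hz with rfl | h
      · rfl
      · exact absurd hP h.2
  choose! neg n1 n2 n3 using hT
  set Y := sens P F (outS P β)
  set Q := q ^ Fintype.card U with hQ
  set G := univ.filter fun γ : U → Fin q => L < (priv P (termH w F (mix P β γ))).card with hG
  have h1 : Y.card * Q ≤ 2 * q * ∑ y ∈ Y,
      (univ.filter fun γ : U → Fin q => γ y = 0 ∧ ∀ z ∈ neg y, γ z ≠ 0).card := by
    rw [mul_sum, ← smul_eq_mul]
    exact card_nsmul_le_sum _ _ _ fun y hy => good_card y (neg y) (n1 y hy)
      ((Nat.mul_le_mul_left 2 (n2 y hy)).trans hq)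
  have h2 : ∑ y ∈ Y, (univ.filter fun γ : U → Fin q => γ y = 0 ∧ ∀ z ∈ neg y, γ z ≠ 0).card =
      ∑ γ : U → Fin q, (Y.filter fun y => γ y = 0 ∧ ∀ z ∈ neg y, γ z ≠ 0).card := by
    simp only [card_filter]
    exact sum_comm
  have h3 : ∀ γ : U → Fin q, (Y.filter fun y => γ y = 0 ∧ ∀ z ∈ neg y, γ z ≠ 0).card ≤
      (if γ ∈ G then Y.card else 0) + L := by
    intro γ
    split_ifs with h
    · exact (card_filter_le _ _).trans (Nat.le_add_right _ _)
    · simp only [hG, mem_filter, mem_univ, true_and, not_lt] at h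
      rw [zero_add]
      refine le_trans (card_le_card fun y hy => ?_) h
      rw [mem_filter] at hy
      exact n3 y hy.1 γ hy.2.1 hy.2.2
  have h4 : ∑ γ : U → Fin q, ((if γ ∈ G then Y.card else 0) + L) = G.card * Y.card + Q * L := by
    rw [sum_add_distrib, sum_ite_mem, univ_inter, sum_const, sum_const, smul_eq_mul, smul_eq_mul]
    simp [hQ]
  have h5 : Y.card * Q ≤ 2 * q * (G.card * Y.card + Q * L) := by
    rw [← h4]
    refine h1.trans (Nat.mul_le_mul_left _ ?_)
    rw [h2]
    exact sum_le_sum fun γ _ => h3 γ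
  have h6 : 4 * q * L * Q ≤ Y.card * Q := Nat.mul_le_mul_right _ hs.le
  have h7 : Y.card * Q ≤ Y.card * (4 * q * G.card) := by nlinarith
  exact Nat.le_of_mul_le_mul_left h7 (by omega)

omit [NeZero q] in
theorem mix_count (P : U → Prop) (E G : (U → Fin q) → Prop) [DecidablePred E] [DecidablePred G]
    (hE : ∀ β γ, E (mix P β γ) ↔ E β) :
    ∑ β ∈ univ.filter E, (univ.filter fun γ => G (mix P β γ)).card =
      q ^ Fintype.card U * (univ.filter fun β => E β ∧ G β).card := by
  have hm : ∀ β γ : U → Fin q, mix P (mix P β γ) (mix P γ β) = β := fun β γ => by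
    funext z
    by_cases h : P z <;> simp [mix, h]
  have e1 : ∑ β ∈ univ.filter E, (univ.filter fun γ => G (mix P β γ)).card =
      (univ.filter fun p : (U → Fin q) × (U → Fin q) => E p.1 ∧ G (mix P p.1 p.2)).card := by
    rw [card_filter, Fintype.sum_prod_type, sum_filter]
    refine sum_congr rfl fun β _ => ?_
    by_cases h : E β
    · simp only [h, if_true, true_and, card_filter]
    · simp only [h, if_false, false_and, sum_const_zero]
  have e2 : q ^ Fintype.card U * (univ.filter fun β => E β ∧ G β).card =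
      ((univ.filter fun β => E β ∧ G β) ×ˢ (univ : Finset (U → Fin q))).card := by
    rw [card_product, mul_comm]
    simp
  rw [e1, e2]
  refine card_bij' (fun p _ => (mix P p.1 p.2, mix P p.2 p.1))
    (fun p _ => (mix P p.1 p.2, mix P p.2 p.1)) (fun p hp => ?_) (fun p hp => ?_)
    (fun p _ => by simp [hm]) (fun p _ => by simp [hm])
  · simp only [mem_filter, mem_univ, true_and, mem_product, and_true] at hp ⊢
    exact ⟨(hE _ _).2 hp.1, hp.2⟩
  · simp only [mem_filter, mem_univ, true_and, mem_product, and_true] at hp ⊢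
    rw [hm]
    exact ⟨(hE _ _).2 hp.1, hp.2⟩

end Mix

theorem mem_badS {X : Type} [Fintype X] {k q : ℕ} [NeZero q] (w r : ℕ)
    (F : Set (Fin k → X × X) → Prop) (σ : X → X) (β : (Fin k → X × X) → Fin q)
    (h0 : ¬ F (outS (InP σ) β)) (h : (k * r) ^ k < (priv (InP σ) (termH w F β)).card) :
    σ ∈ badS (termH w F β) ∅ id r := by
  simp only [badS, mem_filter, mem_univ, true_and]
  refine ⟨by simp, fun e he => ?_, fun K _ hK hH => ?_⟩
  · obtain ⟨-, neg, h1, h2, h3⟩ := he
    by_contra hc
    push Not at hc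
    exact h0 (h3 _ (fun z hz => ⟨h1 z hz, hc z hz⟩) fun z hz hz' => h2 z hz hz'.1)
  · have h1 : priv (InP σ) (termH w F β) ⊆
        univ.filter fun y : Fin k → X × X => InP σ y ∧ ∀ i, (y i).1 ∈ K := by
      intro y hy
      simp only [priv, mem_filter, mem_univ, true_and] at hy ⊢
      obtain ⟨-, e, he, -, h2⟩ := hy
      obtain ⟨z, hz, h3⟩ := hH e he
      rwa [← h2 z hz h3.1]
    have h2 := (card_le_card h1).trans (card_InP_mem σ K)
    have h3 : K.card ^ k ≤ (k * r) ^ k := Nat.pow_le_pow_left (by simp at hK; omega) _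
    omega

/-- For a small family of narrow disjunctions there are a product set and a set `B` outside it
such that each disjunction notices only few of the points of the product set. -/
theorem hide {X : Type} [Fintype X] (k w r M : ℕ) (𝓕 : Finset (Set (Fin k → X × X) → Prop))
    (hF : ∀ F ∈ 𝓕, Narrow w F) (hM : 𝓕.card ≤ M)
    (hr : M * (4 * (2 * w + 1)) * w ^ r < Fintype.card X ^ r) :
    ∃ (σ : X → X) (B : Set (Fin k → X × X)), (∀ y ∈ B, ¬ InP σ y) ∧ ∀ F ∈ 𝓕,
      (univ.filter fun y => InP σ y ∧ ¬ (F (insert y B) ↔ F B)).card ≤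
        4 * (2 * w + 1) * (k * r) ^ k + w := by
  set q := 2 * w + 1 with hq
  have : NeZero q := ⟨by omega⟩
  set N := Fintype.card X
  set Q := q ^ Fintype.card (Fin k → X × X) with hQ
  have hQ0 : 0 < Q := Nat.pow_pos (by omega)
  let E : (Set (Fin k → X × X) → Prop) → (X → X) → ((Fin k → X × X) → Fin q) → Prop :=
    fun F σ β => ¬ F (outS (InP σ) β) ∧
      4 * q * (k * r) ^ k < (sens (InP σ) F (outS (InP σ) β)).card
  have h1 : ∀ F ∈ 𝓕, ∀ σ, (univ.filter (E F σ)).card ≤
      4 * q * (univ.filter fun β : (Fin k → X × X) → Fin q =>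
        σ ∈ badS (termH w F β) ∅ id r).card := by
    intro F hF' σ
    have a1 := mix_count (q := q) (InP σ) (E F σ)
      (fun β => (k * r) ^ k < (priv (InP σ) (termH w F β)).card)
      (fun β γ => by simp only [E, outS_mix])
    have a2 : (univ.filter (E F σ)).card * Q ≤ 4 * q * ∑ β ∈ univ.filter (E F σ),
        (univ.filter fun γ => (k * r) ^ k <
          (priv (InP σ) (termH w F (mix (InP σ) β γ))).card).card := by
      rw [mul_sum, ← smul_eq_mul]
      refine card_nsmul_le_sum _ _ _ fun β hβ => ?_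
      have hβ' := (mem_filter.1 hβ).2
      exact many_priv (InP σ) F w ((k * r) ^ k) (hF F hF') (by omega) β hβ'.1 hβ'.2
    rw [a1] at a2
    have a3 : (univ.filter fun β => E F σ β ∧
        (k * r) ^ k < (priv (InP σ) (termH w F β)).card).card ≤
        (univ.filter fun β : (Fin k → X × X) → Fin q =>
          σ ∈ badS (termH w F β) ∅ id r).card := by
      refine card_le_card fun β hβ => ?_
      simp only [mem_filter, mem_univ, true_and] at hβ ⊢
      exact mem_badS w r F σ β hβ.1.1 hβ.2
    refine Nat.le_of_mul_le_mul_right (a2.trans ?_) hQ0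
    refine le_trans (le_of_eq ?_) ((Nat.mul_le_mul_left (4 * q * Q) a3).trans (le_of_eq ?_))
    · rw [mul_assoc (4 * q)]
    · ring
  have h2 : ∀ F ∈ 𝓕, N ^ r * ∑ σ : X → X, (univ.filter (E F σ)).card ≤
      4 * q * (Q * (w ^ r * N ^ N)) := by
    intro F hF'
    have a1 : ∑ σ : X → X, (univ.filter fun β : (Fin k → X × X) → Fin q =>
        σ ∈ badS (termH w F β) ∅ id r).card =
        ∑ β : (Fin k → X × X) → Fin q, (badS (termH w F β) ∅ id r).card := by
      simp only [card_filter]
      rw [sum_comm]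
      refine sum_congr rfl fun β _ => ?_
      rw [← card_filter, filter_univ_mem]
    have a2 : N ^ r * ∑ β : (Fin k → X × X) → Fin q, (badS (termH w F β) ∅ id r).card ≤
        Q * (w ^ r * N ^ N) := by
      rw [mul_sum]
      refine (sum_le_card_nsmul _ _ (w ^ r * N ^ N) fun β _ => ?_).trans (by simp [hQ])
      simpa using badS_card (termH w F β) w (fun e he => he.1) r ∅ id
    have a3 : ∑ σ : X → X, (univ.filter (E F σ)).card ≤ 4 * q *
        ∑ β : (Fin k → X × X) → Fin q, (badS (termH w F β) ∅ id r).card := by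
      rw [← a1, mul_sum]
      exact sum_le_sum fun σ _ => h1 F hF' σ
    calc _ ≤ N ^ r * (4 * q *
          ∑ β : (Fin k → X × X) → Fin q, (badS (termH w F β) ∅ id r).card) :=
          Nat.mul_le_mul_left _ a3
      _ = 4 * q * (N ^ r *
          ∑ β : (Fin k → X × X) → Fin q, (badS (termH w F β) ∅ id r).card) := by ring
      _ ≤ _ := Nat.mul_le_mul_left _ a2
  have h3 : ∃ σ β, ∀ F ∈ 𝓕, ¬ E F σ β := by
    by_contra hc
    push Not at hc
    have a1 : ∀ σ : X → X, Q ≤ ∑ F ∈ 𝓕, (univ.filter (E F σ)).card := by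
      intro σ
      refine le_trans ?_ card_biUnion_le
      have : (univ : Finset ((Fin k → X × X) → Fin q)).card = Q := by simp [hQ]
      rw [← this]
      refine card_le_card fun β _ => ?_
      obtain ⟨F, h4, h5⟩ := hc σ β
      exact mem_biUnion.2 ⟨F, h4, mem_filter.2 ⟨mem_univ _, h5⟩⟩
    have a2 : N ^ N * Q ≤ ∑ F ∈ 𝓕, ∑ σ : X → X, (univ.filter (E F σ)).card := by
      rw [sum_comm]
      refine le_trans ?_ (card_nsmul_le_sum _ _ Q fun σ _ => a1 σ)
      simp [N]
    have a3 : N ^ r * ∑ F ∈ 𝓕, ∑ σ : X → X, (univ.filter (E F σ)).card ≤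
        M * (4 * q * (Q * (w ^ r * N ^ N))) := by
      rw [mul_sum]
      exact (sum_le_card_nsmul _ _ _ h2).trans (Nat.mul_le_mul_right _ hM)
    have hN : 0 < N ^ N := by
      rcases Nat.eq_zero_or_pos N with h | h
      · simp [h]
      · exact Nat.pow_pos h
    have a4 : N ^ r * (N ^ N * Q) ≤ M * (4 * q) * w ^ r * (N ^ N * Q) :=
      ((Nat.mul_le_mul_left _ a2).trans a3).trans (le_of_eq (by ring))
    have := Nat.le_of_mul_le_mul_right a4 (Nat.mul_pos hN hQ0)
    omega
  obtain ⟨σ, β, h3⟩ := h3
  refine ⟨σ, outS (InP σ) β, fun y hy => hy.2, fun F hF' => ?_⟩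
  by_cases h0 : F (outS (InP σ) β)
  · obtain ⟨pos, neg, -, b2, b3, b4, b5⟩ := hF F hF' _ h0
    refine le_trans (card_le_card fun y hy => ?_) (b2.trans (Nat.le_add_left _ _))
    simp only [mem_filter, mem_univ, true_and, h0, iff_true] at hy
    by_contra hc
    refine hy.2 (b5 _ (fun z hz => Or.inr (b3 z hz)) fun z hz hz' => ?_)
    rcases hz' with rfl | hz'
    · exact hc hz
    · exact b4 z hz hz'
  · have := h3 F hF'
    simp only [E, h0, not_false_eq_true, true_and, not_lt] at this
    refine le_trans (card_le_card fun y hy => ?_) (this.trans (Nat.le_add_right _ _))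
    simp only [mem_filter, mem_univ, true_and, h0, iff_false, not_not, sens] at hy ⊢
    exact hy

end Pool.Agent.Lib.MP_ddf912_lc.Rel
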