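import Pool.Agent.Lib.MP_ddf912_lc.Rel.Hard

/-! From satisfiability with few variables to cliques, with oracle constraints: the
combinatorial part. -/

namespace Pool.Agent.Lib.MP_ddf912_lc.Rel

open N487b59b3 N68a2faeb Pool.Agent.Lib.helper82 Function Classical

abbrev Grp := ℕ × List ℕ
abbrev Vtx := (Grp × ℕ) × List ℕ

def consis (Γ T Γ' T' : List ℕ) : Bool :=
  Γ.all fun v => !decide (v ∈ Γ') || decide (decide (v ∈ T) = decide (v ∈ T'))

def verts (Gs : List Grp) (cand : Grp → List (List ℕ)) : List Vtx :=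
  Gs.zipIdx.flatMap fun gi => (cand gi.1).map fun T => (gi, T)

def adj (x y : Vtx) : Bool := decide (x.1.2 < y.1.2) && consis x.1.1.2 x.2 y.1.1.2 y.2

def edges (Vs : List Vtx) : List (ℕ × ℕ) :=
  Vs.zipIdx.flatMap fun x => (Vs.zipIdx.filter fun y => adj x.1 y.1).map fun y => (x.2, y.2)

theorem mem_edges {Vs : List Vtx} {a b : ℕ} :
    (a, b) ∈ edges Vs ↔ ∃ x y, Vs[a]? = some x ∧ Vs[b]? = some y ∧ adj x y = true := by
  simp only [edges, List.mem_flatMap, List.mem_map, List.mem_filter, Prod.mk.injEq,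
    List.mem_zipIdx_iff_getElem?]
  constructor
  · rintro ⟨x, h1, y, ⟨h2, h3⟩, rfl, rfl⟩
    exact ⟨x.1, y.1, h1, h2, h3⟩
  · rintro ⟨x, y, h1, h2, h3⟩
    exact ⟨(x, a), h1, (y, b), ⟨h2, h3⟩, rfl, rfl⟩

theorem mem_verts {Gs : List Grp} {cand : Grp → List (List ℕ)} {x : Vtx} :
    x ∈ verts Gs cand ↔ Gs[x.1.2]? = some x.1.1 ∧ x.2 ∈ cand x.1.1 := by
  simp only [verts, List.mem_flatMap, List.mem_map, List.mem_zipIdx_iff_getElem?]
  constructor
  · rintro ⟨g, h1, T, h2, rfl⟩
    exact ⟨h1, h2⟩
  · exact fun h => ⟨x.1, h.1, x.2, h.2, rfl⟩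

theorem verts_sorted (Gs : List Grp) (cand : Grp → List (List ℕ)) :
    (verts Gs cand).Pairwise fun x y => x.1.2 ≤ y.1.2 := by
  rw [verts, List.pairwise_flatMap]
  refine ⟨fun g _ => List.pairwise_map.2 (List.pairwise_of_forall fun _ _ => le_rfl), ?_⟩
  have : Gs.zipIdx.Pairwise fun x y => x.2 ≤ y.2 := by
    rw [List.pairwise_iff_getElem]
    intro i j hi hj hij
    simp [hij.le]
  refine this.imp fun {g g'} h x hx y hy => ?_
  obtain ⟨_, -, rfl⟩ := List.mem_map.1 hx
  obtain ⟨_, -, rfl⟩ := List.mem_map.1 hy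
  exact h

theorem verts_mono {Gs : List Grp} {cand : Grp → List (List ℕ)} {a b : ℕ} {x y : Vtx}
    (ha : (verts Gs cand)[a]? = some x) (hb : (verts Gs cand)[b]? = some y) (h : a ≤ b) :
    x.1.2 ≤ y.1.2 := by
  obtain ⟨h1, rfl⟩ := List.getElem?_eq_some_iff.1 ha
  obtain ⟨h2, rfl⟩ := List.getElem?_eq_some_iff.1 hb
  rcases h.lt_or_eq with h | rfl
  · exact List.pairwise_iff_getElem.1 (verts_sorted Gs cand) a b h1 h2 h
  · exact le_rfl

/-- The list `v` picks the vertex with the set `T i` from the group number `i`. -/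
def Picks (Gs : List Grp) (cand : Grp → List (List ℕ)) (v : List ℕ) (T : ℕ → List ℕ) : Prop :=
  ∀ i g, Gs[i]? = some g → ∃ a, v[i]? = some a ∧ (verts Gs cand)[a]? = some ((g, i), T i)

def Cons (Gs : List Grp) (T : ℕ → List ℕ) : Prop :=
  ∀ i j g g', i < j → Gs[i]? = some g → Gs[j]? = some g' → consis g.2 (T i) g'.2 (T j) = true

theorem picks_of_clique {Gs : List Grp} {cand : Grp → List (List ℕ)} {v : List ℕ} {n : ℕ}
    (h1 : v.length = Gs.length) (h2 : ∀ a ∈ v, a < (verts Gs cand).length)
    (h3 : v.Pairwise fun a b => a < b ∧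
      ((a, b) ∈ edges (verts Gs cand) ++ List.replicate n (0, 0) ∨
        (b, a) ∈ edges (verts Gs cand) ++ List.replicate n (0, 0))) :
    ∃ T, Picks Gs cand v T ∧ Cons Gs T := by
  let X : Fin v.length → Vtx := fun i => (verts Gs cand)[v[i]]'(h2 _ (List.getElem_mem _))
  have hX : ∀ i, (verts Gs cand)[v[i]]? = some (X i) := fun i => List.getElem?_eq_getElem _
  have hm : ∀ i, Gs[(X i).1.2]? = some (X i).1.1 := fun i => (mem_verts.1 (List.getElem_mem _)).1
  have ha : ∀ i j, i < j → adj (X i) (X j) = true := by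
    intro i j hij
    obtain ⟨h4, h5⟩ := List.pairwise_iff_getElem.1 h3 i j i.2 j.2 hij
    simp only [List.mem_append, List.mem_replicate, Prod.mk.injEq] at h5
    rcases h5 with (h5 | h5) | (h5 | h5)
    · obtain ⟨x, y, e1, e2, h6⟩ := mem_edges.1 h5
      rwa [Option.some.inj ((hX i).symm.trans e1), Option.some.inj ((hX j).symm.trans e2)]
    · omega
    · obtain ⟨x, y, e1, e2, h6⟩ := mem_edges.1 h5
      have := verts_mono e2 e1 h4.le
      simp only [adj, Bool.and_eq_true, decide_eq_true_eq] at h6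
      omega
    · omega
  let f : Fin v.length → Fin v.length := fun i =>
    ⟨(X i).1.2, h1 ▸ (List.getElem?_eq_some_iff.1 (hm i)).1⟩
  have hf : StrictMono f := fun i j hij => by
    have := ha i j hij
    simp only [adj, Bool.and_eq_true, decide_eq_true_eq] at this
    exact this.1
  have hid : ∀ i, (X i).1.2 = i := fun i =>
    congrArg Fin.val (le_antisymm (hf.apply_le (x := i)) (hf.le_apply (x := i)))
  have hg : ∀ (i : Fin v.length) g, Gs[i.val]? = some g → (X i).1.1 = g := fun i g hg => by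
    have := hm i
    rw [hid, hg] at this
    exact (Option.some.inj this).symm
  refine ⟨fun i => if h : i < v.length then (X ⟨i, h⟩).2 else [], fun i g hi => ?_,
    fun i j g g' hij hi hj => ?_⟩
  · have h4 : i < v.length := h1 ▸ (List.getElem?_eq_some_iff.1 hi).1
    refine ⟨v[i], List.getElem?_eq_getElem h4, (hX ⟨i, h4⟩).trans ?_⟩
    simp only [h4, dif_pos]
    rw [← hg ⟨i, h4⟩ g hi]
    exact congrArg some (Prod.ext (Prod.ext rfl (hid _)) rfl)
  · have h4 : i < v.length := h1 ▸ (List.getElem?_eq_some_iff.1 hi).1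
    have h5 : j < v.length := h1 ▸ (List.getElem?_eq_some_iff.1 hj).1
    have := ha ⟨i, h4⟩ ⟨j, h5⟩ hij
    simp only [adj, Bool.and_eq_true] at this
    simp only [h4, h5, dif_pos]
    rw [← hg ⟨i, h4⟩ g hi, ← hg ⟨j, h5⟩ g' hj]
    exact this.2

theorem clique_of_cons {Gs : List Grp} {cand : Grp → List (List ℕ)} {T : ℕ → List ℕ}
    (h1 : ∀ i g, Gs[i]? = some g → T i ∈ cand g) (h2 : Cons Gs T) (E : List (ℕ × ℕ)) :
    ∃ v : List ℕ, v.length = Gs.length ∧ (∀ a ∈ v, a < (verts Gs cand).length) ∧
      (v.Pairwise fun a b => a < b ∧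
        ((a, b) ∈ edges (verts Gs cand) ++ E ∨ (b, a) ∈ edges (verts Gs cand) ++ E)) ∧
      Picks Gs cand v T := by
  have h3 : ∀ i : Fin Gs.length, ∃ a : ℕ, (verts Gs cand)[a]? = some ((Gs[i], i.val), T i) :=
    fun i => List.mem_iff_getElem?.1 (mem_verts.2 ⟨List.getElem?_eq_getElem i.2,
      h1 i _ (List.getElem?_eq_getElem i.2)⟩)
  choose a ha using h3
  refine ⟨List.ofFn a, by simp, fun b hb => ?_, List.pairwise_ofFn.2 fun i j hij => ⟨?_, Or.inl
    (List.mem_append_left _ (mem_edges.2 ⟨_, _, ha i, ha j, ?_⟩))⟩, fun i g hi => ?_⟩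
  · obtain ⟨i, rfl⟩ := (List.mem_ofFn' _ _).1 hb
    exact (List.getElem?_eq_some_iff.1 (ha i)).1
  · by_contra hc
    exact absurd (verts_mono (ha j) (ha i) (Nat.le_of_not_lt hc)) (Nat.not_le.2 hij)
  · simp only [adj, Bool.and_eq_true, decide_eq_true_eq]
    exact ⟨hij, h2 i j _ _ hij (List.getElem?_eq_getElem i.2) (List.getElem?_eq_getElem j.2)⟩
  · obtain ⟨h4, rfl⟩ := List.getElem?_eq_some_iff.1 hi
    exact ⟨a ⟨i, h4⟩, by simp [h4], ha ⟨i, h4⟩⟩

theorem exists_assignment {Gs : List Grp} {T : ℕ → List ℕ} (h : Cons Gs T) :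
    ∃ a : ℕ → Bool, ∀ i g, Gs[i]? = some g → ∀ v ∈ g.2, decide (v ∈ T i) = a v := by
  refine ⟨fun v => decide (∃ i g, Gs[i]? = some g ∧ v ∈ g.2 ∧ v ∈ T i), fun i g hi v hv => ?_⟩
  refine decide_eq_decide.2 ⟨fun h1 => ⟨i, g, hi, hv, h1⟩, ?_⟩
  rintro ⟨j, g', hj, h1, h2⟩
  rcases lt_trichotomy i j with h3 | rfl | h3
  · have := h i j g g' h3 hi hj
    simp only [consis, List.all_eq_true] at this
    simpa [h1, h2] using this v hv
  · exact h2
  · have := h j i g' g h3 hj hi
    simp only [consis, List.all_eq_true] at this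
    simpa [hv, h2] using this v h1

def label (x : Vtx) : Str :=
  if x.1.1.1 = 1 then x.1.1.2.map fun v => decide (v ∈ x.2)
  else if x.1.1.1 = 2 then (x.1.1.2.filter fun v => decide (v ∈ x.2)).map fun _ => true else []

theorem word_picks {Gs : List Grp} {cand : Grp → List (List ℕ)} {v : List ℕ} {T : ℕ → List ℕ}
    (h : Picks Gs cand v T) {ι : Type} (pos : ι → ℕ) (g : ι → Grp) :
    ∀ J : List ι, (∀ t ∈ J, Gs[pos t]? = some (g t)) →
      word ((verts Gs cand).map label) v (J.map pos) =
        J.flatMap fun t => label ((g t, pos t), T (pos t))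
  | [], _ => rfl
  | t :: J, hJ => by
    obtain ⟨a, h1, h2⟩ := h _ _ (hJ t (by simp))
    have ih := word_picks h pos g J fun t ht => hJ t (by simp [ht])
    simp only [word] at ih ⊢
    simp only [List.map_cons, List.filterMap_cons, h1, List.flatMap_cons, ih]
    simp [List.getD, h2]

/-! ### The groups -/

def chop (s l m : ℕ) (V : List ℕ) : List (List ℕ) :=
  (List.range s).map fun i => (V.drop (i * l)).take m

theorem flatMap_chop (l : ℕ) (V : List ℕ) : ∀ s,
    ((List.range s).flatMap fun i => (V.drop (i * l)).take l) = V.take (s * l)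
  | 0 => by simp
  | s + 1 => by
    rw [List.range_succ, List.flatMap_append, flatMap_chop l V s, add_mul, one_mul, List.take_add]
    simp

theorem infix_chop {s l : ℕ} (hl : 0 < l) {p w q : List ℕ} (hw : w ≠ []) (h1 : w.length ≤ l)
    (h2 : (p ++ w ++ q).length ≤ s * l) : ∃ b ∈ chop s l (2 * l) (p ++ w ++ q), ∀ v ∈ w, v ∈ b := by
  have h3 := Nat.div_add_mod' p.length l
  have h4 := Nat.mod_lt p.length hl
  have h5 := List.length_pos_iff.2 hw
  simp only [List.length_append] at h2
  refine ⟨_, List.mem_map_of_mem (List.mem_range.2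
    ((Nat.div_lt_iff_lt_mul hl).2 (show p.length < s * l by omega))), fun v hv => ?_⟩
  obtain ⟨i, hi, rfl⟩ := List.getElem_of_mem hv
  refine List.mem_iff_getElem?.2 ⟨p.length % l + i, ?_⟩
  rw [List.getElem?_take_of_lt (by omega), List.getElem?_drop, ← add_assoc, h3,
    List.getElem?_append_left (by simp; omega), List.getElem?_append_right (by omega)]
  simp [hi]

def tup (B : List (List ℕ)) : ℕ → List (List ℕ)
  | 0 => [[]]
  | d + 1 => B.flatMap fun b => (tup B d).map fun t => b ++ t

theorem length_tup (B : List (List ℕ)) : ∀ d, (tup B d).length = B.length ^ d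
  | 0 => rfl
  | d + 1 => by simp [tup, List.length_flatMap, length_tup B d, pow_succ']

theorem length_of_mem_tup {B : List (List ℕ)} {m : ℕ} (h : ∀ b ∈ B, b.length ≤ m) :
    ∀ d, ∀ t ∈ tup B d, t.length ≤ d * m
  | 0, t, ht => by simp [tup] at ht; simp [ht]
  | d + 1, t, ht => by
    obtain ⟨b, hb, ht⟩ := List.mem_flatMap.1 ht
    obtain ⟨t', ht', rfl⟩ := List.mem_map.1 ht
    have := length_of_mem_tup h d t' ht'
    have := h b hb
    rw [List.length_append, add_mul]
    omega

theorem cover_tup {B : List (List ℕ)} (hB : B ≠ []) : ∀ (d : ℕ) (l : List ℕ), l.length ≤ d →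
    (∀ v ∈ l, ∃ b ∈ B, v ∈ b) → ∃ t ∈ tup B d, ∀ v ∈ l, v ∈ t
  | 0, [], _, _ => ⟨[], by simp [tup], by simp⟩
  | d + 1, [], _, _ => by
    obtain ⟨t, ht, -⟩ := cover_tup hB d [] (by simp) (by simp)
    obtain ⟨b, hb⟩ := List.exists_mem_of_ne_nil B hB
    exact ⟨b ++ t, List.mem_flatMap.2 ⟨b, hb, List.mem_map_of_mem ht⟩, by simp⟩
  | d + 1, u :: l, h1, h2 => by
    obtain ⟨t, ht, h3⟩ := cover_tup hB d l (by simpa using h1) fun v hv => h2 v (by simp [hv])
    obtain ⟨b, hb, h4⟩ := h2 u (by simp)
    refine ⟨b ++ t, List.mem_flatMap.2 ⟨b, hb, List.mem_map_of_mem ht⟩, fun v hv => ?_⟩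
    rcases List.mem_cons.1 hv with rfl | hv
    · exact List.mem_append_left _ h4
    · exact List.mem_append_right _ (h3 v hv)

theorem getElem?_flatMap_const {α β : Type} (f : α → List β) (n : ℕ) (hf : ∀ x, (f x).length = n) :
    ∀ (l : List α) (j : ℕ) (x : α) (t : ℕ), l[j]? = some x → t < n →
      (l.flatMap f)[j * n + t]? = (f x)[t]?
  | [], _, _, _, h, _ => by simp at h
  | y :: l, 0, x, t, h, ht => by
    obtain rfl : y = x := by simpa using h
    rw [List.flatMap_cons, zero_mul, zero_add, List.getElem?_append_left (by rwa [hf])]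
  | y :: l, j + 1, x, t, h, ht => by
    rw [List.flatMap_cons, List.getElem?_append_right (by rw [hf, add_mul]; omega), hf,
      ← getElem?_flatMap_const f n hf l j x t (by simpa using h) ht]
    congr 1
    rw [add_mul]
    omega

def subl (l : List ℕ) : List (List ℕ) := l.foldl (fun acc v => acc ++ acc.map (v :: ·)) [[]]

theorem subl_complete (a : ℕ → Bool) (l : List ℕ) :
    ∃ T ∈ subl l, ∀ v, v ∈ T ↔ v ∈ l ∧ a v = true := by
  induction l using List.reverseRecOn with
  | nil => exact ⟨[], by simp [subl], by simp⟩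
  | append_singleton l u ih =>
    obtain ⟨T, h1, h2⟩ := ih
    have e : subl (l ++ [u]) = subl l ++ (subl l).map (u :: ·) := by simp [subl]
    rw [e]
    cases h : a u
    · refine ⟨T, List.mem_append_left _ h1, fun v => ?_⟩
      by_cases hv : v = u <;> simp [h2, hv, h]
    · refine ⟨u :: T, List.mem_append_right _ (List.mem_map_of_mem h1), fun v => ?_⟩
      by_cases hv : v = u <;> simp [h2, hv, h]

def allv (I : SInst) : List ℕ := vars I.1 ++ I.2.flatMap fun c => c.2 :: c.1

theorem length_allv (I : SInst) : (allv I).length = nn I := by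
  rw [allv, List.length_append, length_vars, card_toFinset_flatMap, nn]

def longs (l : ℕ) (I : SInst) : List (List ℕ × ℕ) := I.2.filter fun c => decide (l ≤ c.1.length)

def lgroup (s l : ℕ) (c : List ℕ × ℕ) : List Grp := (2, [c.2]) :: (chop s l l c.1).map fun Γ => (1, Γ)

def groups (d s l : ℕ) (I : SInst) : List Grp :=
  (longs l I).flatMap (lgroup s l) ++
    (chop s l (2 * l) (allv I) ++ tup (chop s l (2 * l) (allv I)) d).map fun Γ => (0, Γ)

def okb (l : ℕ) (TA : List Str) (I : SInst) (Γ T : List ℕ) : Bool :=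
  (I.1.all fun C => !(C.all fun x => decide (x.1 ∈ Γ)) ||
    C.any fun x => decide (decide (x.1 ∈ T) = x.2)) &&
  I.2.all fun c => decide (l ≤ c.1.length) || (!((c.2 :: c.1).all fun v => decide (v ∈ Γ)) ||
    decide (decide ((c.1.map fun v => decide (v ∈ T)) ∈ TA) = decide (c.2 ∈ T)))

def cand (d l : ℕ) (TA : List Str) (I : SInst) (g : Grp) : List (List ℕ) :=
  (subl (g.2.take ((d + 1) * (2 * l)))).filter (okb l TA I g.2)

def toClique (d s l n : ℕ) (TA : List Str) (I : SInst) : CInst :=
  ((verts (groups d s l I) (cand d l TA I)).map label,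
    edges (verts (groups d s l I) (cand d l TA I)) ++ List.replicate n (0, 0),
    (groups d s l I).length,
    (List.range (longs l I).length).map fun j =>
      ((List.range s).map fun t => j * (s + 1) + (t + 1), j * (s + 1)))

theorem okb_iff {A : Set Str} {l : ℕ} {TA : List Str} (hT : ∀ x : Str, x.length < l → (x ∈ TA ↔ x ∈ A))
    {I : SInst} {Γ T : List ℕ} {a : ℕ → Bool} (ha : ∀ v ∈ Γ, decide (v ∈ T) = a v) :
    okb l TA I Γ T = true ↔ (∀ C ∈ I.1, (∀ x ∈ C, x.1 ∈ Γ) → ∃ x ∈ C, a x.1 = x.2) ∧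
      ∀ c ∈ I.2, c.1.length < l → (∀ v ∈ c.2 :: c.1, v ∈ Γ) → (c.1.map a ∈ A ↔ a c.2 = true) := by
  simp only [okb, Bool.and_eq_true, List.all_eq_true, Bool.or_eq_true, Bool.not_eq_true',
    List.any_eq_true, decide_eq_true_eq, ← Bool.not_eq_true]
  refine and_congr (forall₂_congr fun C _ => ?_) (forall₂_congr fun c _ => ?_)
  · rw [← imp_iff_not_or]
    exact imp_congr_right fun h => exists_congr fun x => and_congr_right fun hx => by
      rw [ha _ (h x hx)]
  · rw [← Nat.not_lt, ← imp_iff_not_or, ← imp_iff_not_or]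
    refine imp_congr_right fun h1 => imp_congr_right fun h2 => ?_
    rw [List.map_congr_left fun v hv => ha v (h2 v (by simp [hv])), ha _ (h2 _ (by simp)),
      ← hT _ (by simpa using h1)]
    cases a c.2 <;> simp

theorem length_lgroup (s l : ℕ) (c : List ℕ × ℕ) : (lgroup s l c).length = s + 1 := by
  simp [lgroup, chop]

theorem groups_long {d s l : ℕ} {I : SInst} {j : ℕ} {c : List ℕ × ℕ}
    (h : (longs l I)[j]? = some c) {t : ℕ} (ht : t < s + 1) :
    (groups d s l I)[j * (s + 1) + t]? = (lgroup s l c)[t]? := by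
  have h1 := getElem?_flatMap_const _ _ (length_lgroup s l) _ j c t h ht
  have h2 : (lgroup s l c)[t]? = some ((lgroup s l c)[t]'(by rwa [length_lgroup])) :=
    List.getElem?_eq_getElem _
  rw [groups, List.getElem?_append_left (List.getElem?_eq_some_iff.1 (h1.trans h2)).1, h1]

theorem length_group {d s l : ℕ} (hl : 0 < l) {I : SInst} {g : Grp} (hg : g ∈ groups d s l I) :
    g.2.length ≤ (d + 1) * (2 * l) ∧ (g.1 = 1 → g.2.length ≤ l) ∧ (g.1 = 2 → g.2.length ≤ l) := by
  have hc : ∀ m V, ∀ b ∈ chop s l m V, b.length ≤ m := fun m V b hb => by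
    obtain ⟨i, -, rfl⟩ := List.mem_map.1 hb
    exact List.length_take_le _ _
  have h0 : 2 * l ≤ (d + 1) * (2 * l) := Nat.le_mul_of_pos_left _ (by omega)
  rcases List.mem_append.1 hg with h | h
  · obtain ⟨c, -, h⟩ := List.mem_flatMap.1 h
    rcases List.mem_cons.1 h with rfl | h
    · simp only [List.length_singleton]
      omega
    · obtain ⟨b, hb, rfl⟩ := List.mem_map.1 h
      have := hc _ _ b hb
      simp only
      omega
  · obtain ⟨b, hb, rfl⟩ := List.mem_map.1 h
    refine ⟨?_, by simp, by simp⟩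
    rcases List.mem_append.1 hb with h | h
    · exact (hc _ _ b h).trans h0
    · exact (length_of_mem_tup (hc _ _) d b h).trans (Nat.mul_le_mul_right _ (by omega))

theorem words_long {d s l : ℕ} {TA : List Str} {I : SInst} (hn : nn I ≤ s * l) {v : List ℕ}
    {T : ℕ → List ℕ} (h : Picks (groups d s l I) (cand d l TA I) v T) {a : ℕ → Bool}
    (ha : ∀ i g, (groups d s l I)[i]? = some g → ∀ v ∈ g.2, decide (v ∈ T i) = a v)
    {j : ℕ} {c : List ℕ × ℕ} (hc : (longs l I)[j]? = some c) :
    word ((verts (groups d s l I) (cand d l TA I)).map label) v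
        ((List.range s).map fun t => j * (s + 1) + (t + 1)) = c.1.map a ∧
      (word ((verts (groups d s l I) (cand d l TA I)).map label) v [j * (s + 1)] ≠ [] ↔
        a c.2 = true) := by
  have h0 : (groups d s l I)[j * (s + 1)]? = some (2, [c.2]) :=
    (groups_long hc (t := 0) (by omega)).trans rfl
  have h1 : ∀ t ∈ List.range s, (groups d s l I)[j * (s + 1) + (t + 1)]? =
      some (1, (c.1.drop (t * l)).take l) := fun t ht => by
    have := List.mem_range.1 ht
    rw [groups_long hc (by omega)]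
    simp [lgroup, chop, this]
  constructor
  · rw [word_picks h _ _ _ h1]
    have h2 : c.1.length ≤ s * l :=
      (len_lt_nn (List.mem_filter.1 (List.mem_of_getElem? hc)).1).le.trans hn
    conv_rhs => rw [← List.take_of_length_le h2, ← flatMap_chop, List.map_flatMap]
    refine List.flatMap_congr fun t ht => ?_
    simp only [label, if_true]
    exact List.map_congr_left (ha _ _ (h1 t ht))
  · have := word_picks h (fun _ : Unit => j * (s + 1)) (fun _ => (2, [c.2])) [()] (by simpa)
    simp only [List.map_cons, List.map_nil] at this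
    rw [this, ← ha _ _ h0 c.2 (by simp)]
    by_cases h3 : c.2 ∈ T (j * (s + 1)) <;> simp [label, h3]

theorem cliqueO_toClique {A : Set Str} {d s l n : ℕ} {TA : List Str} {I : SInst}
    (hT : ∀ x : Str, x.length < l → (x ∈ TA ↔ x ∈ A)) (hl : 0 < l) (hs : 0 < s)
    (hd : Width d I.1) (hn : nn I ≤ s * l) (h2 : 2 ^ l ≤ n) :
    CliqueO A (toClique d s l n TA I) ↔ SatO A I := by
  constructor
  · rintro ⟨-, v, h3, h4, h5, h6⟩
    obtain ⟨T, t1, t2⟩ := picks_of_clique h3 (by simpa [toClique] using h4) h5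
    obtain ⟨a, ha⟩ := exists_assignment t2
    have hok : ∀ Γ ∈ chop s l (2 * l) (allv I) ++ tup (chop s l (2 * l) (allv I)) d,
        (∀ C ∈ I.1, (∀ x ∈ C, x.1 ∈ Γ) → ∃ x ∈ C, a x.1 = x.2) ∧ ∀ c ∈ I.2, c.1.length < l →
          (∀ v ∈ c.2 :: c.1, v ∈ Γ) → (c.1.map a ∈ A ↔ a c.2 = true) := by
      intro Γ hΓ
      obtain ⟨i, hi⟩ := List.mem_iff_getElem?.1 (show ((0, Γ) : Grp) ∈ groups d s l I from
        List.mem_append_right _ (List.mem_map_of_mem hΓ))
      obtain ⟨b, -, hb⟩ := t1 i _ hi
      exact (okb_iff hT (ha i _ hi)).1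
        (List.mem_filter.1 (mem_verts.1 (List.mem_of_getElem? hb)).2).2
    refine ⟨a, fun C hC => ?_, fun c hc => ?_⟩
    · obtain ⟨t, h7, h8⟩ := cover_tup (B := chop s l (2 * l) (allv I))
        (by simp [chop, hs.ne']) d (C.map Prod.fst) (by simpa using hd C hC) (fun u hu => by
          have hu' : u ∈ allv I := List.mem_append_left _ (by
            obtain ⟨x, hx, rfl⟩ := List.mem_map.1 hu
            simp only [vars, List.mem_dedup, List.mem_map, List.mem_flatten]
            exact ⟨x, ⟨C, hC, hx⟩, rfl⟩)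
          obtain ⟨p, q, e⟩ := List.append_of_mem hu'
          have e' : allv I = p ++ [u] ++ q := by simp [e]
          obtain ⟨b, h7, h8⟩ := infix_chop (s := s) hl (p := p) (w := [u]) (q := q) (by simp) hl
            (by rwa [← e', length_allv])
          exact ⟨b, e' ▸ h7, h8 u (by simp)⟩)
      exact (hok t (List.mem_append_right _ h7)).1 C hC fun x hx => h8 _ (List.mem_map_of_mem hx)
    · by_cases hlen : c.1.length < l
      · obtain ⟨p, q, e⟩ := List.append_of_mem hc
        have e' : allv I = (vars I.1 ++ p.flatMap fun c => c.2 :: c.1) ++ (c.2 :: c.1) ++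
            q.flatMap fun c => c.2 :: c.1 := by simp [allv, e]
        obtain ⟨b, h7, h8⟩ := infix_chop (s := s) hl (w := c.2 :: c.1) (by simp) hlen
          (by rw [← e', length_allv]; exact hn)
        exact (hok b (List.mem_append_left _ (e' ▸ h7))).2 c hc hlen h8
      · obtain ⟨j, hj⟩ := List.mem_iff_getElem?.1 (show c ∈ longs l I from
          List.mem_filter.2 ⟨hc, by simpa using hlen⟩)
        obtain ⟨w1, w2⟩ := words_long hn t1 ha hj
        rw [← w1, ← w2]
        exact h6 _ (List.mem_map_of_mem (List.mem_range.2 (List.getElem?_eq_some_iff.1 hj).1))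
  · rintro ⟨a, h3, h4⟩
    have h5 : ∀ i : ℕ, ∃ T : List ℕ, ∀ g, (groups d s l I)[i]? = some g →
        T ∈ cand d l TA I g ∧ ∀ v ∈ g.2, decide (v ∈ T) = a v := by
      intro i
      rcases hi : (groups d s l I)[i]? with _ | g
      · exact ⟨[], by simp⟩
      · obtain ⟨T, t1, t2⟩ := subl_complete a g.2
        have t3 : ∀ v ∈ g.2, decide (v ∈ T) = a v := fun v hv => by
          cases h : a v <;> simp [t2, hv, h]
        refine ⟨T, fun g' e => ?_⟩
        obtain rfl := Option.some.inj e
        refine ⟨List.mem_filter.2 ⟨?_, (okb_iff hT t3).2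
          ⟨fun C hC _ => h3 C hC, fun c hc _ _ => h4 c hc⟩⟩, t3⟩
        rwa [List.take_of_length_le (length_group hl (List.mem_of_getElem? hi)).1]
    choose T hT' using h5
    obtain ⟨v, v1, v2, v3, v4⟩ := clique_of_cons (Gs := groups d s l I) (cand := cand d l TA I)
      (T := T) (fun i g hi => (hT' i g hi).1) (fun i j g g' _ hi hj => by
        simp only [consis, List.all_eq_true]
        intro u hu
        by_cases hu' : u ∈ g'.2
        · simp [(hT' i g hi).2 u hu, (hT' j g' hj).2 u hu']
        · simp [hu']) (List.replicate n (0, 0))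
    refine ⟨fun x hx => ?_, v, v1, by simpa [toClique] using v2, v3, fun c hc => ?_⟩
    · obtain ⟨y, hy, rfl⟩ := List.mem_map.1 hx
      have b1 := length_group hl (List.mem_of_getElem? (mem_verts.1 hy).1)
      have b2 : (label y).length ≤ l := by
        unfold label
        split_ifs with c1 c2
        · simpa using b1.2.1 c1
        · rw [List.length_map]
          exact (List.length_filter_le _ _).trans (b1.2.2 c2)
        · simp
      refine (Nat.pow_le_pow_right (by norm_num) b2).trans (h2.trans ?_)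
      have b3 := length_le_sz (toClique d s l n TA I).2.1
      change n ≤ sz ((toClique d s l n TA I).1, (toClique d s l n TA I).2.1,
        (toClique d s l n TA I).2.2)
      rw [sz_prod, sz_prod]
      simp only [toClique, List.length_append, List.length_replicate] at b3 ⊢
      omega
    · obtain ⟨j, hj, rfl⟩ := List.mem_map.1 hc
      have hj' := List.getElem?_eq_getElem (List.mem_range.1 hj)
      obtain ⟨w1, w2⟩ := words_long hn v4 (fun i g hi => (hT' i g hi).2) hj'
      exact w1 ▸ (h4 _ (List.mem_filter.1 (List.mem_of_getElem? hj')).1).trans w2.symm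

theorem kk_toClique {d s l n : ℕ} {TA : List Str} {I : SInst} (hl : 0 < l) (hn : nn I ≤ s * l) :
    kk (toClique d s l n TA I) ≤ 2 * (s * (s + 1)) + s + s ^ d := by
  have h1 : (longs l I).length ≤ s := by
    have : ∀ C : List (List ℕ × ℕ), (C.filter fun c => decide (l ≤ c.1.length)).length * l ≤
        (C.map fun c => c.1.length + 1).sum := by
      intro C
      induction C with
      | nil => simp
      | cons c C ih =>
        rw [List.filter_cons]
        split_ifs with h
        · simp only [decide_eq_true_eq] at h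
          simp only [List.length_cons, List.map_cons, List.sum_cons, add_mul]
          omega
        · simp only [List.map_cons, List.sum_cons]
          omega
    exact Nat.le_of_mul_le_mul_right ((this I.2).trans (le_trans (Nat.le_add_left _ _) hn)) hl
  have h2 := Nat.mul_le_mul_right (s + 1) h1
  simp only [kk, toClique, groups, List.length_append, List.length_flatMap, length_lgroup,
    List.length_map, length_tup, chop, List.length_range, List.map_map, comp_def, List.map_const',
    List.sum_replicate, smul_eq_mul]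
  omega

end Pool.Agent.Lib.MP_ddf912_lc.Rel
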