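import Pool.Agent.Lib.MP_ddf912_lc.Defs

/-! The classes FPT, M[1] and W[1] relative to an oracle. -/

namespace Pool.Agent.Lib.MP_ddf912_lc.Rel

open N487b59b3 N68a2faeb Classical

abbrev Str := List Bool

/-- The answers of the oracle `A` to the first `n` queries on input `u`; the map `S` computes
each query from the input and the earlier answers. -/
noncomputable def hist (A : Set Str) (S : (Str × Str) × Str → Str) (u : Str × Str) : ℕ → Str
  | 0 => []
  | n + 1 => hist A S u n ++ [decide (S (u, hist A S u n) ∈ A)]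

/-- `R` is computed with oracle `A` in fixed parameter time: polynomial time with adaptive oracle
queries, after a computable precomputation `π` on the parameter. -/
def FptO (A : Set Str) (κ : Str → ℕ) (R : Str → Str) : Prop :=
  ∃ (π : ℕ → Str) (S O : (Str × Str) × Str → Str) (c : ℕ),
    Computable π ∧ IsPolyTime S ∧ IsPolyTime O ∧ ∀ x,
      R x = O ((x, π (κ x)), hist A S (x, π (κ x)) ((x.length + (π (κ x)).length + 1) ^ c))

def FPTO (A : Set Str) : Set PProb :=
  {P | IsPolyTime P.κ ∧ ∃ R, FptO A P.κ R ∧ ∀ x, x ∈ P.Q ↔ R x = [true]}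

/-- The problems with a many-one fpt-reduction to `B` that may use the oracle `A`. -/
def BelowO (A : Set Str) (B : PProb) : Set PProb :=
  {P | IsPolyTime P.κ ∧ ∃ (R : Str → Str) (g : ℕ → ℕ), FptO A P.κ R ∧ Computable g ∧
    ∀ x, (x ∈ P.Q ↔ R x ∈ B.Q) ∧ B.κ (R x) ≤ g (P.κ x)}

/-- The concatenation of the labels `L` of the vertices in the positions `J` of the list `v`. -/
def word (L : List Str) (v J : List ℕ) : Str := (J.filterMap (v[·]?)).flatMap (L.getD · [])

/-- Instances: labels of the vertices `0, 1, …`, edge list, `k`, oracle constraints.  A solution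
is a clique `v₀ < v₁ < …` of size `k`.  A constraint `(J, z)` asks that the word spelled by the
positions `J` be in `A` exactly if the label in position `z` is nonempty.  Labels have
logarithmic length. -/
noncomputable def oClique (A : Set Str) : PProb :=
  coded (fun I : List Str × List (ℕ × ℕ) × ℕ × List (List ℕ × ℕ) =>
      (∀ s ∈ I.1, 2 ^ s.length ≤ (bitEncode I).length) ∧
      ∃ v : List ℕ, v.length = I.2.2.1 ∧ (∀ a ∈ v, a < I.1.length) ∧
        v.Pairwise (fun a b => a < b ∧ ((a, b) ∈ I.2.1 ∨ (b, a) ∈ I.2.1)) ∧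
        ∀ c ∈ I.2.2.2, (word I.1 v c.1 ∈ A ↔ word I.1 v [c.2] ≠ []))
    fun I => I.2.2.1 + (I.2.2.2.map fun c => c.1.length + 1).sum

/-- Instances: a formula and oracle constraints.  A constraint `(J, z)` asks that the string of
values of the variables `J` be in `A` exactly if the variable `z` is true. -/
noncomputable def oLogSat (A : Set Str) (d : ℕ) : PProb :=
  coded (fun I : CNF × List (List ℕ × ℕ) => Width d I.1 ∧ ∃ a : ℕ → Bool,
      (∀ C ∈ I.1, ∃ l ∈ C, a l.1 = l.2) ∧ ∀ c ∈ I.2, (c.1.map a ∈ A ↔ a c.2 = true))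
    fun I => ⌈((nvars I.1 + (I.2.map fun c => c.1.length + 1).sum : ℕ) : ℝ) /
      Real.logb 2 (bitEncode I).length⌉₊

def W1O (A : Set Str) : Set PProb := BelowO A (oClique A)

def M1O (A : Set Str) : Set PProb := ⋃ d ≥ 1, BelowO A (oLogSat A d)

end Pool.Agent.Lib.MP_ddf912_lc.Rel
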