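import Pool.Agent.Lib.MP_ddf912_lc.Rel.Hard

/-! The easy inclusions of FPT in M[1] and W[1], relative to every oracle. -/

namespace Pool.Agent.Lib.MP_ddf912_lc.Rel

open N487b59b3 N68a2faeb Pool.Agent.Lib.helper82 Function Classical

theorem FptO.post {A : Set Str} {κ : Str → ℕ} {R : Str → Str} (h : FptO A κ R) {F : Str → Str}
    (hF : PT F) : FptO A κ fun x => F (R x) := by
  obtain ⟨π, S, O, c, hπ, hS, hO, h⟩ := h
  exact ⟨π, S, fun a => F (O a), c, hπ, hS, (PT.comp hF (PT.ofIsPolyTime hO)).isPolyTime,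
    fun x => congrArg F (h x)⟩

theorem FPTO_subset_below (A : Set Str) (B : PProb) {y n : Str} (hy : y ∈ B.Q) (hn : n ∉ B.Q) :
    FPTO A ⊆ BelowO A B := by
  rintro P ⟨hκ, R, hR, h⟩
  refine ⟨hκ, fun x => if R x = [true] then y else n, fun _ => B.κ y + B.κ n,
    hR.post (F := fun r => if r = [true] then y else n)
      (PT.iteEq PT.id (PT.const _) (PT.const _) (PT.const _)), Computable.const _, fun x => ?_⟩
  rw [h x]
  by_cases h1 : R x = [true] <;> simp [h1, hy, hn]

theorem FPTO_subset_W1O (A : Set Str) : FPTO A ⊆ W1O A :=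
  FPTO_subset_below A _ (y := enc (([], [], 0, []) : CInst)) (n := enc (([], [], 1, []) : CInst))
    ((mem_oClique _ _).2 ⟨by simp, [], by simp⟩) fun h => by
      obtain ⟨-, v, h1, h2, -⟩ := (mem_oClique _ _).1 h
      obtain ⟨a, rfl⟩ := List.length_eq_one_iff.1 h1
      simp at h2

theorem FPTO_subset_M1O (A : Set Str) : FPTO A ⊆ M1O A := fun P hP => by
  simp only [M1O, Set.mem_iUnion]
  refine ⟨1, le_rfl, FPTO_subset_below A _ (y := enc (([], []) : SInst))
    (n := enc (([[]], []) : SInst))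
    ((mem_oLogSat _ _ _).2 ⟨by simp [Width], fun _ => true, by simp⟩) (fun h => ?_) hP⟩
  obtain ⟨-, a, h1, -⟩ := (mem_oLogSat _ _ _).1 h
  simp at h1

end Pool.Agent.Lib.MP_ddf912_lc.Rel
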