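import Pool.Agent.Lib.MP_ddf912_lc.Rel.OrcA

/-! The hard clique instances. -/

namespace Pool.Agent.Lib.MP_ddf912_lc.Rel

open N487b59b3 N68a2faeb Pool.Agent.Lib.helper82 Function Classical

abbrev CInst := List Str × List (ℕ × ℕ) × ℕ × List (List ℕ × ℕ)

def CliqueO (A : Set Str) (I : CInst) : Prop :=
  (∀ s ∈ I.1, 2 ^ s.length ≤ (enc I).length) ∧
    ∃ v : List ℕ, v.length = I.2.2.1 ∧ (∀ a ∈ v, a < I.1.length) ∧
      v.Pairwise (fun a b => a < b ∧ ((a, b) ∈ I.2.1 ∨ (b, a) ∈ I.2.1)) ∧
      ∀ c ∈ I.2.2.2, (word I.1 v c.1 ∈ A ↔ word I.1 v [c.2] ≠ [])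

def kk (I : CInst) : ℕ := I.2.2.1 + (I.2.2.2.map fun c => c.1.length + 1).sum

theorem mem_oClique (A : Set Str) (I : CInst) : enc I ∈ (oClique A).Q ↔ CliqueO A I :=
  mem_coded _ _ I

theorem κ_oClique (A : Set Str) (I : CInst) : (oClique A).κ (enc I) = kk I := κ_coded _ _ I

theorem kk_pt : PT kk := by
  have h1 : PT fun I : CInst => I.2.2.2.flatMap fun c => 0 :: c.1 :=
    PT.flatMap (F := fun _ (c : List ℕ × ℕ) => 0 :: c.1) (PT.snd (PT.snd PT.snd'))
      (PT.cons (PT.const 0) (PT.fst PT.snd'))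
  exact (PT.add (PT.fst (PT.snd PT.snd')) (PT.length h1)).congr fun I => by
    simp [kk, List.length_flatMap]

theorem prs_cinst : Prs CInst :=
  (Prs.list (Prs.list Prs.bool)).prod ((Prs.list (Prs.nat.prod Prs.nat)).prod
    (Prs.nat.prod (Prs.list ((Prs.list Prs.nat).prod Prs.nat))))

theorem fptO_of_pt (A : Set Str) (κ : Str → ℕ) {R : Str → Str} (h : PT R) : FptO A κ R :=
  ⟨fun _ => [], fun _ => [], fun a => R a.1.1, 0, Computable.const _, (PT.const _).isPolyTime,
    (PT.comp h (PT.fst PT.fst')).isPolyTime, fun _ => rfl⟩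

theorem oClique_mem (A : Set Str) : oClique A ∈ W1O A :=
  ⟨(prs_cinst.extend kk_pt 0).isPolyTime, fun x => x, fun k => k, fptO_of_pt A _ PT.id,
    Computable.id, fun _ => ⟨Iff.rfl, le_rfl⟩⟩

variable {L k : ℕ}

abbrev Wd (L : ℕ) := Fin L → Bool

def lab (p : Wd L × Wd L) : Str := false :: (List.ofFn p.1 ++ List.ofFn p.2)

theorem length_lab (p : Wd L × Wd L) : (lab p).length = 2 * L + 1 := by simp [lab]; omega

theorem lab_inj : Injective (lab : Wd L × Wd L → Str) := by
  intro p q h
  simp only [lab, List.cons.injEq, true_and] at h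
  obtain ⟨h1, h2⟩ := List.append_inj h (by simp)
  exact Prod.ext (List.ofFn_injective h1) (List.ofFn_injective h2)

def str (y : Fin k → Wd L × Wd L) : Str := (List.ofFn fun i => lab (y i)).flatten

theorem length_str (y : Fin k → Wd L × Wd L) : (str y).length = k * (2 * L + 1) := by
  simp [str, List.length_flatten, List.map_ofFn, comp_def, length_lab]

theorem str_inj : Injective (str : (Fin k → Wd L × Wd L) → Str) := by
  intro y z h
  have : (List.ofFn fun i => lab (y i)) = List.ofFn fun i => lab (z i) :=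
    List.eq_iff_flatten_eq.2 ⟨h, by simp [List.map_ofFn, comp_def, length_lab]⟩
  funext i
  exact lab_inj (congrFun (List.ofFn_injective this) i)

theorem head_str (hk : 0 < k) (y : Fin k → Wd L × Wd L) : (str y).head? = some false := by
  obtain ⟨k, rfl⟩ := Nat.exists_eq_succ_of_ne_zero hk.ne'
  simp [str, List.ofFn_succ, lab]

noncomputable def vx (k L : ℕ) : Fin (k * 2 ^ L) ≃ Fin k × Wd L :=
  finProdFinEquiv.symm.trans
    ((Equiv.refl _).prodCongr (Fintype.equivFinOfCardEq (by simp)).symm)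

theorem vx_lt {i j : Fin k} (h : i < j) (u u' : Wd L) :
    ((vx k L).symm (i, u) : ℕ) < (vx k L).symm (j, u') := by
  have key : ∀ a b : Fin (2 ^ L), (finProdFinEquiv (i, a) : ℕ) < finProdFinEquiv (j, b) := by
    intro a b
    simp only [finProdFinEquiv_apply_val]
    have := Nat.mul_le_mul_left (2 ^ L) (show (i : ℕ) + 1 ≤ j from h)
    have := a.2
    rw [mul_add] at *
    omega
  exact key _ _

noncomputable def hard (k : ℕ) (σ : Wd L → Wd L) : CInst :=
  (List.ofFn fun j => lab ((vx k L j).2, σ (vx k L j).2),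
    List.range (k * 2 ^ L) ×ˢ List.range (k * 2 ^ L), k, [(List.range k, 0)])

theorem kk_hard (σ : Wd L → Wd L) : kk (hard k σ) = 2 * k + 1 := by simp [kk, hard]; omega

theorem filterMap_range (v : List ℕ) : (List.range v.length).filterMap (v[·]?) = v := by
  induction v using List.reverseRecOn with
  | nil => simp
  | append_singleton v a ih =>
    rw [List.length_append, List.length_singleton, List.range_succ, List.filterMap_append]
    congr 1
    · refine Eq.trans (List.filterMap_congr fun i hi => ?_) ih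
      exact List.getElem?_append_left (List.mem_range.1 hi)
    · simp

theorem sz_hard_ge (hk : 2 ≤ k) (σ : Wd L → Wd L) : 2 ^ (2 * L + 1) ≤ sz (hard k σ) := by
  have h1 := length_le_sz (List.range (k * 2 ^ L) ×ˢ List.range (k * 2 ^ L))
  rw [List.length_product, List.length_range] at h1
  simp only [hard, sz_prod]
  have h2 : 2 * 2 ^ L ≤ k * 2 ^ L := Nat.mul_le_mul_right _ hk
  have h3 : 2 ^ (2 * L + 1) ≤ k * 2 ^ L * (k * 2 ^ L) := by
    rw [pow_succ, two_mul, pow_add]
    nlinarith [Nat.zero_le (2 ^ L)]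
  omega

theorem sz_hard_le (hk : 2 ≤ k) (σ : Wd L → Wd L) : sz (hard k σ) ≤ 100 * (k * 2 ^ L) ^ 3 := by
  set n := k * 2 ^ L with hn
  have hL : L < 2 ^ L := Nat.lt_two_pow_self
  have hn1 : k ≤ n := Nat.le_mul_of_pos_right _ (by omega)
  have hn2 : L ≤ n := by nlinarith
  have h1 : sz (List.ofFn fun j => lab ((vx k L j).2, σ (vx k L j).2)) ≤
      n * (2 * (6 * n + 3) + 1) := by
    refine (sz_le_of_forall (6 * n + 3) _ fun a ha => ?_).trans (by simp [hn])
    obtain ⟨j, rfl⟩ := (List.mem_ofFn' _ _).1 ha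
    rw [PT.sz_listBool, length_lab]
    omega
  have h2 : sz (List.range n ×ˢ List.range n) ≤ n * n * (2 * (3 * n + 1) + 1) := by
    refine (sz_le_of_forall (3 * n + 1) _ ?_).trans (by simp [List.length_product])
    rintro ⟨a, b⟩ ha
    simp only [List.mem_product, List.mem_range] at ha
    have := sz_nat_le_self a
    have := sz_nat_le_self b
    rw [sz_prod]
    omega
  have h3 : sz (List.range k) ≤ n * (2 * n + 1) := by
    refine (sz_le_of_forall n _ fun a ha => ?_).trans (Nat.mul_le_mul_right _ (by simpa))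
    have := sz_nat_le_self a
    have := List.mem_range.1 ha
    omega
  have h4 := sz_nat_le_self k
  have h0 : sz (0 : ℕ) = 0 := by simp [sz_nat]
  simp only [hard, sz_prod, sz_cons, sz_nil, h0]
  change _ + (2 * sz (List.range n ×ˢ List.range n) + 1 + _) ≤ _
  have h5 : 1 ≤ n := by omega
  have h6 : n ≤ n * n := by nlinarith
  have h7 : n * n ≤ n * n * n := by nlinarith
  nlinarith

theorem cliqueO_hard (hk : 2 ≤ k) (σ : Wd L → Wd L) (A : Set Str) :
    CliqueO A (hard k σ) ↔ ∃ y : Fin k → Wd L × Wd L, InP σ y ∧ str y ∈ A := by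
  have hget : ∀ j : Fin (k * 2 ^ L), (hard k σ).1.getD j [] = lab ((vx k L j).2, σ (vx k L j).2) :=
    fun j => by simp [hard, List.getD]
  have hne : ∀ v : List ℕ, v.length = k → (∀ a ∈ v, a < k * 2 ^ L) →
      word (hard k σ).1 v [0] ≠ [] := by
    rintro (_ | ⟨a, v⟩) h1 h2
    · simp at h1
      omega
    · have := hget ⟨a, h2 a (by simp)⟩
      simp only [word, List.filterMap_cons, List.getElem?_cons_zero, List.filterMap_nil,
        List.flatMap_cons, List.flatMap_nil, List.append_nil]
      exact this ▸ by simp [lab]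
  constructor
  · rintro ⟨-, v, h1, h2, -, h3⟩
    have h1' : v.length = k := h1
    have h2' : ∀ a ∈ v, a < k * 2 ^ L := by simpa [hard] using h2
    have h4 := (h3 (List.range k, 0) (by simp [hard])).2 (hne v h1' h2')
    subst h1'
    rw [word, filterMap_range] at h4
    refine ⟨fun i => ((vx _ L ⟨v[i], h2' _ (List.getElem_mem _)⟩).2,
      σ (vx _ L ⟨v[i], h2' _ (List.getElem_mem _)⟩).2), fun i => rfl, ?_⟩
    convert h4 using 1
    rw [str, List.flatMap_def]
    congr 1
    refine List.ext_getElem (by simp) fun i _ _ => ?_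
    rw [List.getElem_ofFn, List.getElem_map, ← hget]
    rfl
  · rintro ⟨y, h1, h2⟩
    have h0 : ∀ a ∈ List.ofFn fun i => ((vx k L).symm (i, (y i).1) : ℕ), a < k * 2 ^ L := by
      intro a ha
      obtain ⟨i, rfl⟩ := (List.mem_ofFn' _ _).1 ha
      simp
    refine ⟨fun s hs => ?_, List.ofFn fun i => ((vx k L).symm (i, (y i).1) : ℕ), by simp [hard],
      fun a ha => by simpa [hard] using h0 a ha, ?_, fun c hc => ?_⟩
    · obtain ⟨j, rfl⟩ := (List.mem_ofFn' _ _).1 hs
      rw [length_lab]
      exact sz_hard_ge hk σ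
    · exact List.pairwise_ofFn.2 fun i j hij => ⟨vx_lt hij _ _, Or.inl (by simp [hard])⟩
    · obtain rfl : c = (List.range k, 0) := by simpa [hard] using hc
      have e := filterMap_range (List.ofFn fun i => ((vx k L).symm (i, (y i).1) : ℕ))
      rw [List.length_ofFn] at e
      refine iff_of_true ?_ (hne _ (by simp) h0)
      simp only [word, e]
      convert h2 using 1
      rw [str, List.flatMap_def, List.map_ofFn]
      congr 2
      funext i
      simp only [comp_apply, hget, Equiv.apply_symm_apply, h1 i]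

end Pool.Agent.Lib.MP_ddf912_lc.Rel
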