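import Pool.Agent.Lib.MP_ddf912_lc.Rel.OrcA

/-! Relative to the self-answering oracle every problem of the class M[1] is tractable. -/

namespace Pool.Agent.Lib.MP_ddf912_lc.Rel

open N487b59b3 N68a2faeb Pool.Agent.Lib.helper82 Function Classical

section
variable {α β γ : Type} [Enc α] [Enc β] [Enc γ]

theorem pt_drop [Inhabited γ] {f : α → List β} {l : α → List γ} (hf : PT f) (hl : PT l) :
    PT fun a => (f a).drop (l a).length := by
  have h := PT.foldl_add (h := fun _ (s : List β) (_ : γ) => s.tail) hl hf
    (PT.tail (PT.fst PT.snd')) (fun _ => 0) (Bd.const 0) (fun _ s _ _ => sz_tail_le s)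
  refine h.congr fun a => ?_
  generalize f a = s
  induction l a generalizing s with
  | nil => simp
  | cons b l ih => simp [ih]

theorem pt_take [Inhabited β] [Inhabited γ] {f : α → List β} {l : α → List γ} (hf : PT f)
    (hl : PT l) : PT fun a => (f a).take (l a).length :=
  (PT.reverse (pt_drop (PT.reverse hf) (pt_drop hf hl))).congr fun a => by
    rw [List.length_drop, List.drop_reverse, List.reverse_reverse]
    rcases le_total (l a).length (f a).length with h | h
    · congr 1; omega
    · rw [List.take_of_length_le h, List.take_of_length_le (by omega)]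

theorem pt_ones [Inhabited β] {l : α → List β} (hl : PT l) :
    PT fun a => List.replicate (l a).length true :=
  (PT.map (F := fun _ _ => true) hl (PT.const true)).congr fun a => by simp

theorem pt_mulU {l l' : α → Str} (hl : PT l) (hl' : PT l') :
    PT fun a => List.replicate ((l a).length * (l' a).length) true :=
  (pt_ones (PT.flatMap (F := fun a (_ : Bool) => l' a) hl (PT.comp hl' PT.fst'))).congr fun a => by
    simp

theorem pt_pad {l x : α → Str} (hl : PT l) (hx : PT x) : PT fun a => pad (l a).length (x a) :=
  PT.append (pt_ones hl) (PT.cons (PT.const false) hx)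

end

theorem computable_ones {f : ℕ → ℕ} (hf : Computable f) :
    Computable fun k => List.replicate (f k) true := by
  have : Primrec fun n : ℕ => List.replicate n true :=
    (Primrec.list_map Primrec.list_range (Primrec.const true).to₂).of_eq fun n => by simp
  exact this.to_comp.comp hf

theorem computable_pack {π ρ : ℕ → Str} (hπ : Computable π) (hρ : Computable ρ) :
    Computable fun k => delimit (π k) ++ ρ k := by
  have : Primrec fun l : Str => delimit l :=
    (Primrec.list_append.comp (Primrec.list_flatMap Primrec.id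
      (Primrec.list_cons.comp (Primrec.const true)
        (Primrec.list_cons.comp Primrec.snd (Primrec.const []))).to₂)
      (Primrec.const [false])).of_eq fun l => by
        induction l with
        | nil => rfl
        | cons b l ih => simpa [delimit] using ih
  exact Computable.list_append.comp (this.to_comp.comp hπ) hρ

/-- One more query after an fpt computation. -/
theorem FptO.query {A : Set Str} {κ : Str → ℕ} {R : Str → Str} (h : FptO A κ R) {ρ : ℕ → Str}
    (hρ : Computable ρ) {F : Str × Str → Str} (hF : PT F) :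
    FptO A κ fun x => [decide (F (ρ (κ x), R x) ∈ A)] := by
  obtain ⟨π, S, O, c, hπ, hS, hO, h⟩ := h
  have hS' := PT.ofIsPolyTime hS
  have hO' := PT.ofIsPolyTime hO
  let n : Str × Str → ℕ := fun u => (u.1.length + (ufst u.2).length + 1) ^ c
  let S' : (Str × Str) × Str → Str := fun a =>
    if a.2.length < n a.1 then S ((a.1.1, ufst a.1.2), a.2)
    else F (usnd a.1.2, O ((a.1.1, ufst a.1.2), a.2.take (n a.1)))
  have h1 : PT fun a : (Str × Str) × Str => (a.1.1, (ufst a.1.2 : Str)) :=
    PT.pair (PT.fst PT.fst') (PT.ufstL (PT.snd PT.fst'))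
  have h2 : PT fun a : (Str × Str) × Str => List.replicate (n a.1) true :=
    (PT.clockPow (PT.cons (PT.const true) (PT.append (PT.fst h1) (PT.snd h1))) c).congr
      fun a => by simp [n]
  have h3 : PT S' := PT.ite
    ((PT.lt (PT.length PT.snd') (PT.length h2)).congr fun a => by simp)
    (PT.comp hS' (PT.pair h1 PT.snd'))
    (PT.comp hF (PT.pair (PT.usndL (PT.snd PT.fst')) (PT.comp hO' (PT.pair h1
      ((pt_take PT.snd' h2).congr fun a => by simp)))))
  refine ⟨fun k => delimit (π k) ++ ρ k, S', fun a => a.2.reverse.take 1, c + 1,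
    computable_pack hπ hρ, h3.isPolyTime, (PT.take1 (PT.reverse PT.snd')).isPolyTime, fun x => ?_⟩
  set u : Str × Str := (x, delimit (π (κ x)) ++ ρ (κ x)) with hu
  have e1 : n u = (x.length + (π (κ x)).length + 1) ^ c := by simp [n, hu, ufst_delimit]
  have e2 : ∀ j ≤ n u, hist A S' u j = hist A S (x, π (κ x)) j := by
    intro j
    induction j with
    | zero => exact fun _ => rfl
    | succ j ih =>
      intro hj
      have : S' (u, hist A S (x, π (κ x)) j) = S ((x, π (κ x)), hist A S (x, π (κ x)) j) := by
        simp only [S', length_hist, show j < n u from hj, if_true]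
        simp [hu, ufst_delimit]
      simp only [hist, ih (by omega), this]
  have e3 : n u < (x.length + u.2.length + 1) ^ (c + 1) := by
    rw [e1, pow_succ]
    have a1 : (π (κ x)).length + 1 ≤ u.2.length := by simp [hu]; omega
    have a2 := Nat.pow_le_pow_left (show x.length + (π (κ x)).length + 1 ≤
      x.length + u.2.length + 1 by omega) c
    have a3 : 1 ≤ (x.length + u.2.length + 1) ^ c := Nat.one_le_pow _ _ (by omega)
    nlinarith
  change _ = (hist A S' u ((x.length + u.2.length + 1) ^ (c + 1))).reverse.take 1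
  obtain ⟨j, hj⟩ : ∃ j, (x.length + u.2.length + 1) ^ (c + 1) = j + 1 :=
    Nat.exists_eq_succ_of_ne_zero (by omega)
  have e4 : S' (u, hist A S' u j) = F (ρ (κ x), R x) := by
    simp only [S', length_hist, show ¬ j < n u by omega, if_false]
    rw [take_hist A S' u j (by omega), e2 _ le_rfl, e1, h x]
    simp [hu, ufst_delimit, usnd_delimit]
  rw [hj, hist, e4]
  simp

theorem nn_le {I : SInst} {g j : ℕ} (h : ⌈(nn I : ℝ) / Real.logb 2 (enc I).length⌉₊ ≤ g)
    (hj : sz I ≤ 2 ^ j) : nn I ≤ g * j := by
  by_cases h0 : nn I = 0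
  · omega
  have hm : 2 ≤ sz I := by
    by_contra hlt
    apply h0
    obtain ⟨φ, C⟩ := I
    rw [sz_prod] at hlt
    have h1 : C = [] := List.eq_nil_of_length_eq_zero (by have := length_le_sz C; omega)
    have h2 : φ = [] := List.eq_nil_of_length_eq_zero (by have := length_le_sz φ; omega)
    simp [nn, nvars, h1, h2]
  have h1 := (lt_ceil_iff (n := nn I) hm g).not.1 (by simpa using h)
  have h2 : sz I ^ g ≤ 2 ^ (g * j) := by
    rw [mul_comm, pow_mul]; exact Nat.pow_le_pow_left hj g
  exact (Nat.pow_le_pow_iff_right (by norm_num)).1 ((Nat.le_of_not_lt h1).trans h2)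

theorem thr_of_param {I : SInst} {g d : ℕ}
    (h : ⌈(nn I : ℝ) / Real.logb 2 (enc I).length⌉₊ ≤ g) :
    Thr (2 ^ (g + 2 ^ d + 4) * ((enc I).length + 1)) d (nn I) := by
  set j := Nat.log 2 ((enc I).length + 1)
  have h1 : nn I ≤ g * (j + 1) :=
    nn_le h ((Nat.le_succ _).trans (Nat.lt_pow_succ_log_self (by norm_num) _).le)
  have h2 : g + 2 ^ d + 4 + j ≤ Nat.log 2 (2 ^ (g + 2 ^ d + 4) * ((enc I).length + 1)) := by
    refine Nat.le_log_of_pow_le (by norm_num) ?_
    rw [pow_add]
    exact Nat.mul_le_mul_left _ (Nat.pow_log_le_self 2 (by omega))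
  have h3 := Nat.zero_le (2 ^ d)
  refine ⟨h1.trans (le_trans ?_ (Nat.pow_le_pow_left h2 2)), by omega, by omega⟩
  nlinarith

theorem M1O_subset (H : Set Str) : M1O (orc H) ⊆ FPTO (orc H) := by
  intro P hP
  simp only [M1O, Set.mem_iUnion] at hP
  obtain ⟨d, -, hκ, R, g, hR, hg, h⟩ := hP
  have hF : PT fun p : Str × Str => pad (p.1.length * (p.2.length + 1)) (pad d p.2) :=
    (pt_pad (pt_mulU PT.fst' (PT.cons (PT.const true) PT.snd'))
      (pt_pad (PT.const (List.replicate d true)) PT.snd')).congr fun a => by simp
  refine ⟨hκ, _, hR.query (computable_ones (computable_two_pow (computable_add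
    (computable_add hg (Computable.const (2 ^ d))) (Computable.const 4)))) hF, fun x => ?_⟩
  simp only [List.length_replicate, List.cons.injEq, and_true, decide_eq_true_eq]
  rw [(h x).1, mem_orc_code H (by positivity)]
  constructor
  · rintro ⟨I, h1, h2⟩
    have h3 := (h x).2
    have e : enc I = R x := h1
    rw [← e, κ_oLogSat] at h3
    exact ⟨I, h1, e ▸ thr_of_param h3, h2⟩
  · rintro ⟨I, h1, -, h2⟩
    exact ⟨I, h1, h2⟩

end Pool.Agent.Lib.MP_ddf912_lc.Rel
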