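import Pool.Agent.Lib.MP_ddf912_lc.Rel.OrcB
import Pool.Agent.Lib.MP_ddf912_lc.Rel.Upper

/-! Relative to the pointer oracle the class W[1] is contained in M[1]. -/

namespace Pool.Agent.Lib.MP_ddf912_lc.Rel

open N487b59b3 N68a2faeb Pool.Agent.Lib.helper82 Function Classical

theorem hist_add (A : Set Str) (S S₂ : (Str × Str) × Str → Str) (u u₂ : Str × Str) (n : ℕ)
    (h : ∀ l : Str, S (u, hist A S u n ++ l) = S₂ (u₂, l)) :
    ∀ j, hist A S u (n + j) = hist A S u n ++ hist A S₂ u₂ j
  | 0 => by simp [hist]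
  | j + 1 => by
    rw [← add_assoc, hist, hist_add A S S₂ u u₂ n h j, h, hist, List.append_assoc]

/-- A polynomial time oracle computation after an fpt computation. -/
theorem FptO.phase {A : Set Str} {κ : Str → ℕ} {R : Str → Str} (h : FptO A κ R) {ρ : ℕ → Str}
    (hρ : Computable ρ) {S₂ O₂ : (Str × Str) × Str → Str} (hS₂ : PT S₂) (hO₂ : PT O₂) (c₂ : ℕ) :
    FptO A κ fun x => O₂ ((R x, ρ (κ x)), hist A S₂ (R x, ρ (κ x))
      (((R x).length + (ρ (κ x)).length + 1) ^ c₂)) := by
  obtain ⟨π, S, O, c, hπ, hS, hO, h⟩ := h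
  have hS' := PT.ofIsPolyTime hS
  have hO' := PT.ofIsPolyTime hO
  obtain ⟨e, he⟩ := query_len hO' c
  let n : Str × Str → ℕ := fun u => (u.1.length + (ufst u.2).length + 1) ^ c
  let U : (Str × Str) × Str → Str × Str := fun a =>
    (O ((a.1.1, ufst a.1.2), a.2.take (n a.1)), usnd a.1.2)
  let S' : (Str × Str) × Str → Str := fun a =>
    if a.2.length < n a.1 then S ((a.1.1, ufst a.1.2), a.2) else S₂ (U a, a.2.drop (n a.1))
  let O' : (Str × Str) × Str → Str := fun a =>
    O₂ (U a, (a.2.drop (n a.1)).take (((U a).1.length + (U a).2.length + 1) ^ c₂))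
  have h1 : PT fun a : (Str × Str) × Str => (a.1.1, (ufst a.1.2 : Str)) :=
    PT.pair (PT.fst PT.fst') (PT.ufstL (PT.snd PT.fst'))
  have h2 : PT fun a : (Str × Str) × Str => List.replicate (n a.1) true :=
    (PT.clockPow (PT.cons (PT.const true) (PT.append (PT.fst h1) (PT.snd h1))) c).congr
      fun a => by simp [n]
  have hU : PT U := PT.pair (PT.comp hO' (PT.pair h1
    ((pt_take PT.snd' h2).congr fun a => by simp))) (PT.usndL (PT.snd PT.fst'))
  have hD : PT fun a : (Str × Str) × Str => a.2.drop (n a.1) :=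
    (pt_drop PT.snd' h2).congr fun a => by simp
  have h3 : PT S' := PT.ite
    ((PT.lt (PT.length PT.snd') (PT.length h2)).congr fun a => by simp)
    (PT.comp hS' (PT.pair h1 PT.snd')) (PT.comp hS₂ (PT.pair hU hD))
  have h4 : PT O' := PT.comp hO₂ (PT.pair hU ((pt_take hD
    (PT.clockPow (PT.cons (PT.const true) (PT.append (PT.fst hU) (PT.snd hU))) c₂)).congr
      fun a => by simp))
  refine ⟨fun k => delimit (π k) ++ ρ k, S', O', c + (e + 2) * c₂ + 1,
    computable_pack hπ hρ, h3.isPolyTime, h4.isPolyTime, fun x => ?_⟩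
  set u : Str × Str := (x, delimit (π (κ x)) ++ ρ (κ x)) with hu
  have e1 : n u = (x.length + (π (κ x)).length + 1) ^ c := by simp [n, hu]
  have e2 : ∀ j ≤ n u, hist A S' u j = hist A S (x, π (κ x)) j := by
    intro j
    induction j with
    | zero => exact fun _ => rfl
    | succ j ih =>
      intro hj
      have : S' (u, hist A S (x, π (κ x)) j) = S ((x, π (κ x)), hist A S (x, π (κ x)) j) := by
        simp only [S', length_hist, show j < n u from hj, if_true]
        simp [hu]
      simp only [hist, ih (by omega), this]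
  have e3 : ∀ l, U (u, hist A S' u (n u) ++ l) = (R x, ρ (κ x)) := fun l => by
    simp only [U]
    rw [List.take_left' (length_hist _ _ _ _), e2 _ le_rfl, e1, h x]
    simp [hu]
  have e4 := hist_add A S' S₂ u (R x, ρ (κ x)) (n u) fun l => by
    simp only [S', List.length_append, length_hist, show ¬ n u + l.length < n u by omega,
      if_false, e3, List.drop_left' (length_hist _ _ _ _)]
  set z := x.length + u.2.length + 1 with hz
  have a1 : 2 * (π (κ x)).length + 1 + (ρ (κ x)).length = u.2.length := by simp [hu]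
  have a2 : n u ≤ z ^ c := by
    rw [e1]
    exact Nat.pow_le_pow_left (by omega) c
  have a3 : (R x).length ≤ z ^ e := by
    rw [h x]
    exact he _ _ _ z (by omega) (by omega) (by rw [length_hist, ← e1]; exact a2)
  have a4 : (R x).length + (ρ (κ x)).length + 1 ≤ z ^ (e + 2) := by
    have b1 : 1 ≤ z ^ e := Nat.one_le_pow _ _ (by omega)
    have b2 : (ρ (κ x)).length + 1 ≤ z := by omega
    have b3 : 2 ≤ z := by omega
    rw [pow_add]
    nlinarith [Nat.mul_le_mul_right z b1, Nat.mul_le_mul_left (z ^ e) b3,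
      Nat.mul_le_mul_left (z ^ e * z) b3]
  have a5 : n u + ((R x).length + (ρ (κ x)).length + 1) ^ c₂ ≤ z ^ (c + (e + 2) * c₂ + 1) := by
    have b1 := (Nat.pow_le_pow_left a4 c₂).trans (le_of_eq (pow_mul _ _ _).symm)
    have b2 : z ^ c ≤ z ^ (c + (e + 2) * c₂) := Nat.pow_le_pow_right (by omega) (by omega)
    have b3 : z ^ ((e + 2) * c₂) ≤ z ^ (c + (e + 2) * c₂) :=
      Nat.pow_le_pow_right (by omega) (by omega)
    have b4 := Nat.mul_le_mul_left (z ^ (c + (e + 2) * c₂)) (show 2 ≤ z by omega)
    rw [pow_succ]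
    omega
  change _ = O' (u, hist A S' u (z ^ (c + (e + 2) * c₂ + 1)))
  obtain ⟨j, hj⟩ := Nat.exists_eq_add_of_le (le_trans (Nat.le_add_right _ _) a5)
  rw [hj, e4]
  simp only [O', e3, List.drop_left' (length_hist _ _ _ _)]
  rw [take_hist _ _ _ _ (by omega)]

theorem pt_range {α β : Type} [Enc α] [Enc β] [Inhabited β] {l : α → List β} (hl : PT l) :
    PT fun a => List.range (l a).length := by
  have key : ∀ l : List β,
      l.foldl (fun (s : List ℕ) _ => s ++ [s.length]) [] = List.range l.length := by
    intro l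
    induction l using List.reverseRecOn with
    | nil => simp
    | append_singleton l b ih => simp [List.foldl_append, ih, List.range_succ]
  refine (PT.foldl (h := fun _ (s : List ℕ) (_ : β) => s ++ [s.length]) hl (PT.const [])
    (PT.append (PT.fst PT.snd') (PT.cons (PT.length (PT.fst PT.snd')) (PT.const [])))
    (fun a => sz (l a) * (2 * sz (l a) + 1))
    (hl.sz_bd.mul (((Bd.const 2).mul hl.sz_bd).add (Bd.const 1))) fun a k => ?_).congr
    fun a => key _
  have h1 : ((l a).take k).length ≤ sz (l a) := (List.length_take_le' _ _).trans (length_le_sz _)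
  rw [key]
  refine (sz_le_of_forall (sz (l a)) _ fun i hi => ?_).trans 
    (Nat.mul_le_mul_right _ (by rw [List.length_range]; exact h1))
  have := sz_nat_le_self i
  have := List.mem_range.1 hi
  omega

/-- The formula that asks for the status of the pointer `p`. -/
def ask (m : ℕ) (p : Str) : SInst :=
  ([(1, false)] :: List.replicate (m + 1) [(0, true)],
    [(0 :: 1 :: (p.map (fun b => if b then 0 else 1) ++ (List.range p.length).map (· + 2)), 0)])

theorem width_ask (m : ℕ) (p : Str) : Width 1 (ask m p).1 := by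
  intro C hC
  rcases List.mem_cons.1 hC with rfl | h
  · simp
  · simp [List.eq_of_mem_replicate h]

theorem satO_ask (X : Set Str) (m : ℕ) (p : Str) :
    SatO X (ask m p) ↔ ∃ y : Str, y.length = p.length ∧ pad 1 (p ++ y) ∈ X := by
  have key : ∀ a : ℕ → Bool, a 0 = true → a 1 = false →
      (0 :: 1 :: (p.map (fun b => if b then 0 else 1) ++ (List.range p.length).map (· + 2))).map a =
        pad 1 (p ++ (List.range p.length).map fun i => a (i + 2)) := by
    intro a h0 h1
    have : (p.map fun b => if b then 0 else 1).map a = p := by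
      rw [List.map_map]
      conv_rhs => rw [← List.map_id p]
      exact List.map_congr_left fun b _ => by cases b <;> simp [h0, h1]
    simp only [List.map_cons, List.map_append, this, h0, h1, pad]
    simp
  constructor
  · rintro ⟨a, h1, h2⟩
    have a0 : a 0 = true := by simpa using h1 [(0, true)] (by simp [ask])
    have a1 : a 1 = false := by simpa using h1 [(1, false)] (by simp [ask])
    have h3 := (h2 _ (List.mem_singleton.2 rfl)).2 a0
    rw [key a a0 a1] at h3
    exact ⟨_, by simp, h3⟩
  · rintro ⟨y, h1, h2⟩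
    refine ⟨fun v => if v = 0 then true else if v = 1 then false else y.getD (v - 2) false,
      fun C hC => ?_, fun c hc => ?_⟩
    · rcases List.mem_cons.1 hC with rfl | h
      · simp
      · simp [List.eq_of_mem_replicate h]
    · obtain rfl := List.mem_singleton.1 hc
      rw [key _ (by simp) (by simp)]
      refine iff_of_true ?_ (by simp)
      convert h2 using 3
      refine List.ext_getElem (by simp [h1]) fun i _ hi => ?_
      simp [List.getD, hi]

theorem nn_ask (m : ℕ) (p : Str) : nn (ask m p) ≤ 2 * p.length + 5 := by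
  have : nvars (ask m p).1 ≤ 2 := by
    refine le_trans (Finset.card_le_card (t := {0, 1}) fun v hv => ?_) (by simp)
    simp only [ask, List.mem_toFinset, List.mem_map, List.mem_flatten] at hv
    obtain ⟨l, ⟨C, hC, hl⟩, rfl⟩ := hv
    rcases List.mem_cons.1 hC with rfl | h
    · simp [List.mem_singleton.1 hl]
    · rw [List.eq_of_mem_replicate h] at hl
      simp [List.mem_singleton.1 hl]
  have h2 : ((ask m p).2.map fun c => c.1.length + 1).sum = 2 * p.length + 3 := by
    simp [ask]; omega
  unfold nn
  omega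

theorem sz_ask (m : ℕ) (p : Str) : m + 2 ≤ sz (ask m p) := by
  have := length_le_sz (ask m p).1
  rw [show ask m p = ((ask m p).1, (ask m p).2) from rfl, sz_prod]
  simp only [ask, List.length_cons, List.length_replicate] at this ⊢
  omega

theorem param_ask (m g : ℕ) (p : Str) (hp : p.length = (g + 1) * (m + 1).size) :
    ⌈(nn (ask m p) : ℝ) / Real.logb 2 (enc (ask m p)).length⌉₊ ≤ 4 * g + 9 := by
  have h1 := sz_ask m p
  have h2 : 2 ≤ sz (ask m p) := by omega
  refine Nat.le_of_not_lt fun h => ?_
  rw [lt_ceil_iff h2] at h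
  have h3 : 2 ^ (m + 1).size ≤ sz (ask m p) ^ 2 := by
    have h0 : 0 < (m + 1).size := Nat.size_pos.2 (Nat.succ_pos m)
    have : 2 ^ ((m + 1).size - 1) ≤ m + 1 := Nat.lt_size.1 (by omega)
    have e : (m + 1).size = (m + 1).size - 1 + 1 := by omega
    rw [e, pow_succ]
    nlinarith
  have h4 : 2 ^ nn (ask m p) ≤ sz (ask m p) ^ (4 * g + 9) :=
    calc _ ≤ 2 ^ ((m + 1).size * (2 * (g + 1)) + 5) :=
          Nat.pow_le_pow_right (by norm_num) ((nn_ask m p).trans (by rw [hp]; nlinarith))
      _ = (2 ^ (m + 1).size) ^ (2 * (g + 1)) * 2 ^ 5 := by rw [pow_add, pow_mul]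
      _ ≤ (sz (ask m p) ^ 2) ^ (2 * (g + 1)) * sz (ask m p) ^ 5 :=
          Nat.mul_le_mul (Nat.pow_le_pow_left h3 _) (Nat.pow_le_pow_left h2 _)
      _ = _ := by rw [← pow_mul, ← pow_add]; congr 1; ring
  omega

theorem W1O_subset (G : Str → Option Str) : W1O (orcB G) ⊆ M1O (orcB G) := by
  rintro P ⟨hκ, R, g, hR, hg, h⟩
  simp only [M1O, Set.mem_iUnion]
  let hh : Str × Str → ℕ := fun u => u.2.length * (u.1.length + 1).size
  have h1 : PT fun a : (Str × Str) × Str => List.replicate (hh a.1) true :=
    (pt_mulU (PT.snd PT.fst') (PT.bits (PT.succ (PT.length (PT.fst PT.fst'))))).congr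
      fun a => by simp [hh, Nat.size_eq_bits_len]
  have h2 : PT fun a : (Str × Str) × Str => pad (2 * hh a.1 + 2) (pad a.2.length a.1.1) :=
    (pt_pad (PT.cons (PT.const true) (PT.cons (PT.const true) (PT.append h1 h1)))
      (pt_pad PT.snd' (PT.fst PT.fst'))).congr fun a => by
        congr 1
        simp; omega
  have h3 : PT fun a : (Str × Str) × Str => a.2.take (hh a.1) :=
    (pt_take PT.snd' h1).congr fun a => by simp
  have h4 : PT fun a : (Str × Str) × Str => ask a.1.1.length (a.2.take (hh a.1)) :=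
    PT.pair (PT.cons (PT.const _) ((PT.map (F := fun _ (_ : Bool) => [((0 : ℕ), true)])
      (PT.cons (PT.const true) (PT.fst PT.fst')) (PT.const _)).congr fun a => by
        simp [List.replicate_succ]))
      (PT.cons (PT.pair (PT.cons (PT.const 0) (PT.cons (PT.const 1) (PT.append
        (PT.map (F := fun _ (b : Bool) => if b then 0 else 1) h3
          ((PT.cond PT.snd' (PT.const 0) (PT.const 1)).congr fun a => by cases a.2 <;> rfl))
        (PT.map (F := fun _ (i : ℕ) => i + 2) (pt_range h3) (PT.add PT.snd' (PT.const 2))))))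
        (PT.const 0)) (PT.const []))
  refine ⟨1, le_rfl, hκ, _, fun k => 4 * g k + 9, hR.phase
    (computable_ones (computable_add hg (Computable.const 1))) h2 (PT.comp PT.encList h4) 2,
    computable_add (computable_mul (Computable.const 4) hg) (Computable.const 9), fun x => ?_⟩
  set u : Str × Str := (R x, List.replicate (g (P.κ x) + 1) true) with hu
  have e0 : hh u = (g (P.κ x) + 1) * ((R x).length + 1).size := by simp [hh, hu]
  have e1 : ∀ j, hist (orcB G) (fun a => pad (2 * hh a.1 + 2) (pad a.2.length a.1.1)) u j =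
      (List.range j).map fun i => (ptr G (orcB G) (hh u) (R x)).getD i false := by
    intro j
    induction j with
    | zero => rfl
    | succ j ih =>
      rw [hist, length_hist, ih, List.range_succ, List.map_append]
      simp [hu, mem_orcB_ptr]
  have e2 : hh u ≤ ((R x).length + u.2.length + 1) ^ 2 := by
    have : ((R x).length + 1).size ≤ (R x).length + 1 := Nat.size_le.2 Nat.lt_two_pow_self
    simp only [hh]
    nlinarith [Nat.mul_le_mul_left u.2.length this]
  have e3 : (hist (orcB G) (fun a => pad (2 * hh a.1 + 2) (pad a.2.length a.1.1)) u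
      (((R x).length + u.2.length + 1) ^ 2)).take (hh u) = ptr G (orcB G) (hh u) (R x) := by
    rw [take_hist _ _ _ _ e2, e1]
    refine List.ext_getElem (by simp [length_ptr]) fun i _ hi => ?_
    simp [List.getD, hi]
  have e4 : 0 < hh u := by
    rw [e0]
    exact Nat.mul_pos (by omega) (Nat.size_pos.2 (by omega))
  change (_ ↔ enc (ask (R x).length (List.take (hh u) _)) ∈ _) ∧
    (oLogSat _ 1).κ (enc (ask (R x).length (List.take (hh u) _))) ≤ _
  rw [e3, mem_oLogSat, κ_oLogSat, satO_ask, length_ptr, status_ptr G e4, (h x).1]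
  refine ⟨⟨?_, ?_⟩, param_ask _ _ _ (by rw [length_ptr, e0])⟩
  · rintro ⟨I, h5, h6⟩
    have h7 := (h x).2
    have e : enc I = R x := h5
    rw [← e, κ_oClique] at h7
    refine ⟨width_ask _ _, I, e, ?_, h6⟩
    have h8 : Nat.log 2 (sz I) ≤ ((R x).length + 1).size := by
      rw [← e]
      exact (Nat.log_lt_of_lt_pow' (Nat.size_pos.2 (Nat.succ_pos (enc I).length)).ne'
        ((Nat.lt_succ_self _).trans (Nat.lt_size_self _))).le
    have := Nat.mul_le_mul (h7.trans (Nat.le_add_right _ 1)) h8
    rw [e0]
    omega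
  · rintro ⟨-, I, h5, -, h6⟩
    exact ⟨I, h5, h6⟩

end Pool.Agent.Lib.MP_ddf912_lc.Rel
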