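import Pool.Agent.Lib.MP_ddf912_lc.Rel.Csp
import Pool.Agent.Lib.MP_ddf912_lc.Rel.RedB

/-! The inclusion of M[1] in W[1] holds relative to every oracle. -/

namespace Pool.Agent.Lib.MP_ddf912_lc.Rel

open N487b59b3 N68a2faeb Pool.Agent.Lib.helper82 Function Classical

def strs : ℕ → List Str
  | 0 => [[]]
  | n + 1 => [] :: (strs n).flatMap fun x => [false :: x, true :: x]

theorem length_strs : ∀ n, (strs n).length + 1 ≤ 2 ^ (n + 1)
  | 0 => by simp [strs]
  | n + 1 => by
    have := length_strs n
    simp only [strs, List.length_cons, List.length_flatMap, List.length_nil, List.map_const',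
      List.sum_replicate, smul_eq_mul]
    rw [pow_succ]
    omega

theorem mem_strs : ∀ (n : ℕ) (x : Str), x ∈ strs n ↔ x.length ≤ n
  | 0, x => by simp [strs]
  | n + 1, [] => by simp [strs]
  | n + 1, b :: x => by cases b <;> simp [strs, mem_strs n]

theorem subl_size (l : List ℕ) : (subl l).length = 2 ^ l.length ∧ ∀ T ∈ subl l, sz T ≤ sz l := by
  induction l using List.reverseRecOn with
  | nil => simp [subl]
  | append_singleton l u ih =>
    have e : subl (l ++ [u]) = subl l ++ (subl l).map (u :: ·) := by simp [subl]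
    rw [e, sz_append, sz_cons]
    refine ⟨by simp [ih.1, pow_succ, mul_two], fun T hT => ?_⟩
    rcases List.mem_append.1 hT with h | h
    · have := ih.2 T h
      omega
    · obtain ⟨T', h', rfl⟩ := List.mem_map.1 h
      have := ih.2 T' h'
      rw [sz_cons]
      omega

section
variable {α β γ : Type} [Enc α] [Enc β] [Enc γ]

theorem pt_lift (β : Type) [Enc β] {F : α → γ} (h : PT F) : PT fun p : α × β => F p.1 :=
  PT.comp h PT.fst'

theorem pt_strs {l : α → Str} (hl : PT l) (hb : Bd sz fun a => 2 ^ (l a).length) :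
    PT fun a => strs (l a).length := by
  have key : ∀ l : Str, l.foldl (fun (s : List Str) _ =>
      [] :: s.flatMap fun x => [false :: x, true :: x]) [[]] = strs l.length := by
    intro l
    induction l using List.reverseRecOn with
    | nil => rfl
    | append_singleton l b ih => simp [List.foldl_append, ih, strs]
  refine (PT.foldl (h := fun _ (s : List Str) (_ : Bool) =>
      [] :: s.flatMap fun x => [false :: x, true :: x]) hl (PT.const [[]])
    (PT.cons (PT.const []) (PT.flatMap (F := fun _ (x : Str) => [false :: x, true :: x])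
      (PT.fst PT.snd') (PT.cons (PT.cons (PT.const false) PT.snd')
        (PT.cons (PT.cons (PT.const true) PT.snd') (PT.const [])))))
    (fun a => 2 * 2 ^ (l a).length * (2 * sz (l a) + 1))
    (((Bd.const 2).mul hb).mul (((Bd.const 2).mul hl.sz_bd).add (Bd.const 1))) fun a k => ?_).congr
    fun a => key _
  have h1 : ((l a).take k).length ≤ (l a).length := List.length_take_le' _ _
  rw [key]
  refine (sz_le_of_forall (sz (l a)) _ fun x hx => ?_).trans (Nat.mul_le_mul_right _ ?_)
  · have := (mem_strs _ _).1 hx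
    rw [PT.sz_listBool, PT.sz_listBool]
    omega
  · have := length_strs ((l a).take k).length
    have := Nat.pow_le_pow_right (show 0 < 2 by norm_num) h1
    rw [pow_succ] at *
    omega

theorem pt_subl {l : α → List ℕ} (hl : PT l) (hb : Bd sz fun a => 2 ^ (l a).length) :
    PT fun a => subl (l a) := by
  refine PT.foldl (h := fun _ (s : List (List ℕ)) (v : ℕ) => s ++ s.map (v :: ·)) hl (PT.const [[]])
    (PT.append (PT.fst PT.snd') (PT.map (F := fun (p : α × List (List ℕ) × ℕ) T => p.2.2 :: T)
      (PT.fst PT.snd') (PT.cons (PT.snd (PT.snd PT.fst')) PT.snd')))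
    (fun a => 2 ^ (l a).length * (2 * sz (l a) + 1))
    (hb.mul (((Bd.const 2).mul hl.sz_bd).add (Bd.const 1))) fun a k => ?_
  obtain ⟨h1, h2⟩ := subl_size ((l a).take k)
  refine (sz_le_of_forall (sz (l a)) (subl ((l a).take k)) fun x hx => (h2 x hx).trans
    (sz_le_of_sublist (List.take_sublist _ _))).trans (Nat.mul_le_mul_right _ ?_)
  rw [h1]
  exact Nat.pow_le_pow_right (by norm_num) (List.length_take_le' _ _)

theorem filter_range_lt {i s : ℕ} (h : i ≤ s) :
    ((List.range s).filter fun j => decide (j < i)).length = i := by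
  obtain ⟨t, rfl⟩ := Nat.exists_eq_add_of_le h
  rw [List.range_add, List.filter_append, List.filter_eq_self.2 (by simp),
    List.filter_eq_nil_iff.2 (by simp)]
  simp

/-- A map over an initial segment may use the index in unary. -/
theorem pt_mapRange [Inhabited β] {l : α → List β} (hl : PT l) {F : α → ℕ → γ}
    (hF : PT fun p : α × List ℕ => F p.1 p.2.length) :
    PT fun a => (List.range (l a).length).map (F a) :=
  (PT.map (F := fun a i => F a ((List.range (l a).length).filter fun j => decide (j < i)).length)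
    (pt_range hl) (PT.comp hF (PT.pair PT.fst' (PT.filter
      (P := fun (p : α × ℕ) j => decide (j < p.2)) (PT.comp (pt_range hl) PT.fst')
      (PT.lt PT.snd' (PT.snd PT.fst')))) :)).congr fun a =>
    List.map_congr_left fun i hi => by rw [filter_range_lt (List.mem_range.1 hi).le]

theorem pt_zipIdx [Inhabited β] {l : α → List β} (hl : PT l) : PT fun a => (l a).zipIdx :=
  (pt_mapRange hl (F := fun a i => (((l a).drop i).headD default, i))
    (PT.pair (PT.headD (pt_drop (PT.comp hl PT.fst') PT.snd') _) (PT.length PT.snd'))).congr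
    fun a => List.ext_getElem (by simp) fun i _ hi => by
      have : i < (l a).length := by simpa using hi
      simp [this]

theorem pt_chop {s l m : α → Str} {V : α → List ℕ} (hs : PT s) (hl : PT l) (hm : PT m)
    (hV : PT V) : PT fun a => chop (s a).length (l a).length (m a).length (V a) :=
  pt_mapRange hs (F := fun a i => ((V a).drop (i * (l a).length)).take (m a).length)
    ((pt_take (pt_drop (PT.comp hV PT.fst') (pt_mulU (pt_ones PT.snd') (PT.comp hl PT.fst')))
      (PT.comp hm PT.fst')).congr fun a => by simp)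

theorem pt_tup {B : α → List (List ℕ)} (hB : PT B) : ∀ d, PT fun a => tup (B a) d
  | 0 => PT.const _
  | d + 1 => PT.flatMap (F := fun a b => (tup (B a) d).map fun t => b ++ t) hB
      (PT.map (F := fun (p : α × List ℕ) t => p.2 ++ t) (pt_lift _ (pt_tup hB d))
        (PT.append (PT.snd PT.fst') PT.snd'))

theorem pt_longs {l : α → Str} {I : α → SInst} (hl : PT l) (hI : PT I) :
    PT fun a => longs (l a).length (I a) :=
  PT.filter (P := fun a (c : List ℕ × ℕ) => decide ((l a).length ≤ c.1.length)) (PT.snd hI)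
    (PT.le (PT.length (PT.comp hl PT.fst')) (PT.length (PT.fst PT.snd')))

theorem pt_groups (d : ℕ) {s l : α → Str} {I : α → SInst} (hs : PT s) (hl : PT l) (hI : PT I) :
    PT fun a => groups d (s a).length (l a).length (I a) := by
  have h1 : PT fun a => allv (I a) := PT.append (PT.comp vars_pt (PT.fst hI))
    (PT.flatMap (F := fun _ (c : List ℕ × ℕ) => c.2 :: c.1) (PT.snd hI)
      (PT.cons (PT.snd PT.snd') (PT.fst PT.snd')))
  have h2 : PT fun a => chop (s a).length (l a).length (2 * (l a).length) (allv (I a)) :=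
    (pt_chop hs hl (PT.append hl hl) h1).congr fun a => by simp [two_mul]
  have h3 : PT fun p : α × (List ℕ × ℕ) => lgroup (s p.1).length (l p.1).length p.2 :=
    PT.cons (PT.pair (PT.const 2) (PT.cons (PT.snd PT.snd') (PT.const [])))
      (PT.map (F := fun _ (Γ : List ℕ) => ((1 : ℕ), Γ))
        (pt_chop (PT.comp hs PT.fst') (PT.comp hl PT.fst') (PT.comp hl PT.fst') (PT.fst PT.snd'))
        (PT.pair (PT.const 1) PT.snd'))
  exact PT.append (PT.flatMap (F := fun a c => lgroup (s a).length (l a).length c)
    (pt_longs hl hI) h3) (PT.map (F := fun _ (Γ : List ℕ) => ((0 : ℕ), Γ))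
      (PT.append h2 (pt_tup h2 d)) (PT.pair (PT.const 0) PT.snd'))

theorem pt_vals {J T : α → List ℕ} (hJ : PT J) (hT : PT T) :
    PT fun a => (J a).map fun v => decide (v ∈ T a) :=
  PT.map (F := fun a v => decide (v ∈ T a)) hJ (ptMem PT.snd' (pt_lift _ hT))

theorem pt_okb {l : α → Str} {TA : α → List Str} {I : α → SInst} {Γ T : α → List ℕ} (hl : PT l)
    (hA : PT TA) (hI : PT I) (hΓ : PT Γ) (hT : PT T) :
    PT fun a => okb (l a).length (TA a) (I a) (Γ a) (T a) := by
  have f2 : PT fun p : (α × List (ℕ × Bool)) × (ℕ × Bool) => p.1.1 := PT.fst PT.fst'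
  have f3 : PT fun p : (α × (List ℕ × ℕ)) × ℕ => p.1.1 := PT.fst PT.fst'
  have f1 : PT fun p : α × (List ℕ × ℕ) => p.1 := PT.fst'
  refine PT.and (PT.all (P := fun a (C : List (ℕ × Bool)) =>
      !(C.all fun x => decide (x.1 ∈ Γ a)) || C.any fun x => decide (decide (x.1 ∈ T a) = x.2))
    (PT.fst hI) (PT.or (PT.not (PT.all
      (P := fun (p : α × List (ℕ × Bool)) (x : ℕ × Bool) => decide (x.1 ∈ Γ p.1)) PT.snd'
        (ptMem (PT.fst PT.snd') (PT.comp hΓ f2 :))))
      (PT.any (P := fun (p : α × List (ℕ × Bool)) (x : ℕ × Bool) =>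
        decide (decide (x.1 ∈ T p.1) = x.2)) PT.snd'
        (PT.eq (ptMem (PT.fst PT.snd') (PT.comp hT f2 :)) (PT.snd PT.snd')))))
    (PT.all (P := fun a (c : List ℕ × ℕ) => decide ((l a).length ≤ c.1.length) ||
      (!((c.2 :: c.1).all fun v => decide (v ∈ Γ a)) ||
        decide (decide ((c.1.map fun v => decide (v ∈ T a)) ∈ TA a) = decide (c.2 ∈ T a))))
      (PT.snd hI) (PT.or (PT.le (PT.length (PT.comp hl f1)) (PT.length (PT.fst PT.snd')))
        (PT.or (PT.not (PT.all (P := fun (p : α × (List ℕ × ℕ)) v => decide (v ∈ Γ p.1))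
          (PT.cons (PT.snd PT.snd') (PT.fst PT.snd')) (ptMem PT.snd' (PT.comp hΓ f3 :))))
          (PT.eq (ptMem (pt_vals (PT.fst PT.snd') (PT.comp hT f1 :)) (PT.comp hA f1 :))
            (ptMem (PT.snd PT.snd') (PT.comp hT f1 :))))))

theorem pt_label : PT label :=
  PT.iteEq (PT.fst (PT.fst PT.fst')) (PT.const 1) (pt_vals (PT.snd (PT.fst PT.fst')) PT.snd')
    (PT.iteEq (PT.fst (PT.fst PT.fst')) (PT.const 2)
      (PT.map (F := fun _ (_ : ℕ) => true) (PT.filter (P := fun (x : Vtx) v => decide (v ∈ x.2))
        (PT.snd (PT.fst PT.fst')) (ptMem PT.snd' (PT.snd PT.fst'))) (PT.const true)) (PT.const []))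

theorem pt_adj : PT fun p : Vtx × Vtx => adj p.1 p.2 :=
  PT.and (PT.lt (PT.snd (PT.fst PT.fst')) (PT.snd (PT.fst PT.snd')))
    (PT.all (P := fun (p : Vtx × Vtx) v => !decide (v ∈ p.2.1.1.2) ||
        decide (decide (v ∈ p.1.2) = decide (v ∈ p.2.2))) (PT.snd (PT.fst (PT.fst PT.fst')))
      (PT.or (PT.not (ptMem PT.snd' (PT.snd (PT.fst (PT.fst (PT.snd PT.fst'))))))
        (PT.eq (ptMem PT.snd' (PT.snd (PT.fst PT.fst'))) (ptMem PT.snd' (PT.snd (PT.snd PT.fst'))))))

theorem pt_edges : PT edges := by
  have h1 : PT fun p : (List Vtx × (Vtx × ℕ)) × (Vtx × ℕ) => (p.1.2.1, p.2.1) :=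
    PT.pair (PT.fst (PT.snd PT.fst')) (PT.fst PT.snd')
  exact PT.flatMap (F := fun (Vs : List Vtx) (x : Vtx × ℕ) =>
      (Vs.zipIdx.filter fun y => adj x.1 y.1).map fun y => (x.2, y.2)) (pt_zipIdx PT.id)
    (PT.map (F := fun (p : List Vtx × (Vtx × ℕ)) (y : Vtx × ℕ) => (p.2.2, y.2))
      (PT.filter (P := fun (p : List Vtx × (Vtx × ℕ)) (y : Vtx × ℕ) => adj p.2.1 y.1)
        (pt_zipIdx PT.fst') (PT.comp pt_adj h1 :))
      (PT.pair (PT.snd (PT.snd PT.fst')) (PT.snd PT.snd')))

theorem pt_toClique (d : ℕ) {s l n : α → Str} {TA : α → List Str} {I : α → SInst} (hs : PT s)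
    (hl : PT l) (hb : Bd sz fun a => 2 ^ (l a).length) (hn : PT n) (hA : PT TA) (hI : PT I) :
    PT fun a => toClique d (s a).length (l a).length (n a).length (TA a) (I a) := by
  have hG := pt_groups d hs hl hI
  have f1 : PT fun p : α × (Grp × ℕ) => p.1 := PT.fst'
  have f2 : PT fun p : (α × (Grp × ℕ)) × List ℕ => p.1.1 := PT.fst PT.fst'
  have h1 : PT fun p : α × (Grp × ℕ) => p.2.1.2.take ((d + 1) * (2 * (l p.1).length)) :=
    (pt_take (PT.snd (PT.fst PT.snd')) (pt_mulU (PT.const (List.replicate (d + 1) true))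
      (PT.append (PT.comp hl f1) (PT.comp hl f1)))).congr fun p => by simp [two_mul]
  have h2 : PT fun p : α × (Grp × ℕ) => cand d (l p.1).length (TA p.1) (I p.1) p.2.1 :=
    PT.filter (P := fun (p : α × (Grp × ℕ)) T => okb (l p.1).length (TA p.1) (I p.1) p.2.1.2 T)
      (pt_subl h1 (((hb.comp Prod.fst f1.sz_bd).pow ((d + 1) * 2)).of_le fun p => by
        rw [← pow_mul]
        exact Nat.pow_le_pow_right (by norm_num)
          ((List.length_take_le _ _).trans (le_of_eq (by ring)))))
      (pt_okb (PT.comp hl f2) (PT.comp hA f2) (PT.comp hI f2) (PT.snd (PT.fst (PT.snd PT.fst')))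
        PT.snd')
  have h3 : PT fun a => verts (groups d (s a).length (l a).length (I a))
      (cand d (l a).length (TA a) (I a)) :=
    PT.flatMap (F := fun a (gi : Grp × ℕ) =>
        (cand d (l a).length (TA a) (I a) gi.1).map fun T => (gi, T)) (pt_zipIdx hG)
      (PT.map (F := fun (p : α × (Grp × ℕ)) T => (p.2, T)) h2 (PT.pair (PT.snd PT.fst') PT.snd'))
  have g1 : PT fun p : α × ℕ => p.2 * ((s p.1).length + 1) :=
    PT.mul PT.snd' (PT.succ (PT.length (PT.comp hs PT.fst')))
  exact PT.pair (PT.map (F := fun _ x => label x) h3 (PT.comp pt_label PT.snd'))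
    (PT.pair (PT.append (PT.comp pt_edges h3)
      ((PT.map (F := fun _ (_ : Bool) => ((0 : ℕ), (0 : ℕ))) hn (PT.const _)).congr fun a => by simp))
      (PT.pair (PT.length hG) (PT.map (F := fun a j =>
          ((List.range (s a).length).map fun t => j * ((s a).length + 1) + (t + 1),
            j * ((s a).length + 1))) (pt_range (pt_longs hl hI))
        (PT.pair (PT.map (F := fun (p : α × ℕ) t => p.2 * ((s p.1).length + 1) + (t + 1))
          (pt_range (PT.comp hs PT.fst')) (PT.add (pt_lift _ g1) (PT.succ PT.snd'))) g1))))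

end

theorem two_pow_size_le (m : ℕ) : 2 ^ (m + 1).size ≤ 2 * (m + 1) := by
  have h0 : 0 < (m + 1).size := Nat.size_pos.2 (Nat.succ_pos m)
  have : 2 ^ ((m + 1).size - 1) ≤ m + 1 := Nat.lt_size.1 (by omega)
  have e : (m + 1).size = (m + 1).size - 1 + 1 := by omega
  rw [e, pow_succ]
  omega

theorem M1O_subset_W1O (A : Set Str) : M1O A ⊆ W1O A := by
  intro P hP
  simp only [M1O, Set.mem_iUnion] at hP
  obtain ⟨d, -, hκ, R, g, hR, hg, h⟩ := hP
  obtain ⟨p, hp, ep⟩ : Prs SInst := prs_cnf.prod (Prs.list ((Prs.list Prs.nat).prod Prs.nat))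
  have hy : PT fun a : (Str × Str) × Str => a.1.1 := PT.fst PT.fst'
  have hl : PT fun a : (Str × Str) × Str => (a.1.1.length + 1).bits :=
    PT.bits (PT.succ (PT.length hy))
  have hb : Bd sz fun a : (Str × Str) × Str => 2 ^ (a.1.1.length + 1).bits.length :=
    ((Bd.const 2).mul (hy.sz_bd.add (Bd.const 1))).of_le fun a => by
      rw [Nat.size_eq_bits_len]
      refine (two_pow_size_le _).trans ?_
      have := length_le_sz a.1.1
      omega
  have hQ := pt_strs hl hb
  have hS : PT fun a : (Str × Str) × Str =>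
      ((strs (a.1.1.length + 1).bits.length).drop a.2.length).headD [] :=
    PT.headD (pt_drop hQ PT.snd') []
  have hA : PT fun a : (Str × Str) × Str =>
      ((List.range (strs (a.1.1.length + 1).bits.length).length).map fun i =>
        if (a.2.drop i).headD false = true then
          [((strs (a.1.1.length + 1).bits.length).drop i).headD []] else []).flatten :=
    PT.flatten (pt_mapRange hQ (F := fun a i => if (a.2.drop i).headD false = true then
        [((strs (a.1.1.length + 1).bits.length).drop i).headD []] else [])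
      (PT.iteEq (PT.headD (pt_drop (PT.snd PT.fst') PT.snd') false) (PT.const true)
        (PT.cons (PT.headD (pt_drop (pt_lift _ hQ) PT.snd') []) (PT.const []))
        (PT.const [])))
  have hC := pt_toClique d (PT.snd PT.fst') hl hb
    (PT.cons (PT.const true) (PT.cons (PT.const true) (PT.append hy hy))) hA (PT.comp hp hy)
  have hv : PT fun a : (Str × Str) × Str => decide (enc (p a.1.1) = a.1.1) &&
      (p a.1.1).1.all fun C => decide (C.length ≤ d) :=
    PT.and (PT.eq (PT.comp PT.encList (PT.comp hp hy)) hy)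
      (PT.all (P := fun _ (C : List (ℕ × Bool)) => decide (C.length ≤ d)) (PT.fst (PT.comp hp hy))
        (PT.le (PT.length PT.snd') (PT.const d)))
  have hO := PT.comp PT.encList (PT.cond hv hC (PT.const (([], [], 1, []) : CInst)))
  have c1 := computable_add hg (Computable.const 1)
  refine ⟨hκ, _, fun k => 2 * ((g k + 1) * (g k + 1 + 1)) + (g k + 1) + (g k + 1) ^ d,
    hR.phase (computable_ones c1) hS hO 3,
    computable_add (computable_add (computable_mul (Computable.const 2) (computable_mul c1
      (computable_add c1 (Computable.const 1)))) c1) (computable_pow c1 d), fun x => ?_⟩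
  rw [mem_oClique, κ_oClique, (h x).1]
  by_cases hval : ∃ I : SInst, enc I = R x ∧ Width d I.1
  · obtain ⟨I, e, hw⟩ := hval
    have h1 := (h x).2
    rw [← e] at h1 ⊢
    rw [κ_oLogSat] at h1
    have h2 : (decide (enc (p (enc I)) = enc I) && (p (enc I)).1.all fun C =>
        decide (C.length ≤ d)) = true := by
      simpa [ep, Width] using hw
    simp only [h2, cond_true]
    simp only [List.length_replicate, ep, Nat.size_eq_bits_len]
    set l := ((enc I).length + 1).size with hl'
    have h3 : 0 < l := Nat.size_pos.2 (Nat.succ_pos _)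
    have h4 : nn I ≤ (g (P.κ x) + 1) * l :=
      (nn_le h1 ((Nat.le_succ _).trans (Nat.lt_size_self _).le)).trans
        (Nat.mul_le_mul_right _ (by omega))
    have h5 : 2 ^ l ≤ 2 * ((enc I).length + 1) := two_pow_size_le (enc I).length
    refine ⟨?_, kk_toClique h3 h4⟩
    rw [cliqueO_toClique (A := A) ?_ h3 (by omega) hw h4 (by simp; omega), mem_oLogSat]
    · exact and_iff_right hw
    intro y hy'
    set N := ((enc I).length + (g (P.κ x) + 1) + 1) ^ 3 with hN
    have h6 : (strs l).length ≤ N := by
      have := length_strs l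
      have b1 : ((enc I).length + 2) ^ 3 ≤ N := Nat.pow_le_pow_left (by omega) 3
      rw [pow_succ] at this
      nlinarith [Nat.zero_le ((enc I).length ^ 3), Nat.zero_le ((enc I).length ^ 2)]
    have h7 : ∀ (u : Str) (j : ℕ), hist A (fun a : (Str × Str) × Str =>
        ((strs (a.1.1.length + 1).size).drop a.2.length).headD []) (enc I, u) j =
        (List.range j).map fun i => decide (((strs l).drop i).headD [] ∈ A) := by
      intro u j
      induction j with
      | zero => rfl
      | succ j ih => rw [hist, length_hist, ih, List.range_succ, List.map_append]; rfl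
    rw [h7]
    simp only [List.mem_flatten, List.mem_map, List.mem_range]
    have h8 : ∀ i < (strs l).length, (((List.range N).map fun i =>
        decide (((strs l).drop i).headD [] ∈ A)).drop i).headD false =
          decide (((strs l).drop i).headD [] ∈ A) := fun i hi => by
      have : i < N := by omega
      simp [this]
    constructor
    · rintro ⟨_, ⟨i, hi, rfl⟩, h9⟩
      rw [h8 i hi] at h9
      split_ifs at h9 with c
      · rw [List.mem_singleton.1 h9]
        simpa using c
      · simp at h9
    · intro h9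
      obtain ⟨i, hi, e1⟩ := List.getElem_of_mem ((mem_strs l y).2 hy'.le)
      have e2 : ((strs l).drop i).headD [] = y := by simp [hi, e1]
      exact ⟨_, ⟨i, hi, rfl⟩, by rw [h8 i hi, e2]; simp [h9]⟩
  · have h2 : (decide (enc (p (R x)) = R x) && (p (R x)).1.all fun C =>
        decide (C.length ≤ d)) = false := by
      by_contra hc
      simp only [Bool.not_eq_false, Bool.and_eq_true, decide_eq_true_eq, List.all_eq_true] at hc
      exact hval ⟨_, hc.1, hc.2⟩
    simp only [h2, cond_false]
    refine ⟨iff_of_false ?_ ?_, by simp [kk]; omega⟩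
    · rintro ⟨I, e, hw, -⟩
      exact hval ⟨I, e, hw⟩
    · rintro ⟨-, v, h3, h4, -⟩
      obtain ⟨a, rfl⟩ := List.length_eq_one_iff.1 h3
      simp at h4

end Pool.Agent.Lib.MP_ddf912_lc.Rel
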