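import Pool.Agent.Lib.MP_ddf912_lc.Rel.Oracle
import Pool.Agent.Lib.MP_ddf912_lc.Rel.Count

/-! An oracle that answers padded satisfiability questions about itself. -/

namespace Pool.Agent.Lib.MP_ddf912_lc.Rel

open N487b59b3 N68a2faeb Pool.Agent.Lib.helper82 Function Classical

abbrev SInst := CNF × List (List ℕ × ℕ)

def nn (I : SInst) : ℕ := nvars I.1 + (I.2.map fun c => c.1.length + 1).sum

def SatO (X : Set Str) (I : SInst) : Prop :=
  ∃ a : ℕ → Bool, (∀ C ∈ I.1, ∃ l ∈ C, a l.1 = l.2) ∧ ∀ c ∈ I.2, (c.1.map a ∈ X ↔ a c.2 = true)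

theorem mem_oLogSat (A : Set Str) (d : ℕ) (I : SInst) :
    enc I ∈ (oLogSat A d).Q ↔ Width d I.1 ∧ SatO A I := mem_coded _ _ I

theorem κ_oLogSat (A : Set Str) (d : ℕ) (I : SInst) :
    (oLogSat A d).κ (enc I) = ⌈(nn I : ℝ) / Real.logb 2 (enc I).length⌉₊ := κ_coded _ _ I

theorem len_lt_nn {I : SInst} {c : List ℕ × ℕ} (hc : c ∈ I.2) : c.1.length < nn I := by
  have := List.single_le_sum (l := I.2.map fun c => c.1.length + 1) (by simp) _
    (List.mem_map_of_mem hc)
  unfold nn
  omega

theorem SatO.congr {X Y : Set Str} {I : SInst}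
    (h : ∀ s : Str, s.length < nn I → (s ∈ X ↔ s ∈ Y)) : SatO X I ↔ SatO Y I := by
  refine exists_congr fun a => and_congr_right fun _ => forall₂_congr fun c hc => ?_
  rw [h _ (by simpa using len_lt_nn hc)]

def pad (t : ℕ) (x : Str) : Str := List.replicate t true ++ false :: x

theorem pad_inj : ∀ {t t' : ℕ} {x x' : Str}, pad t x = pad t' x' → t = t' ∧ x = x'
  | 0, 0, _, _, h => by simpa [pad] using h
  | 0, _ + 1, _, _, h => by simp [pad, List.replicate_succ] at h
  | _ + 1, 0, _, _, h => by simp [pad, List.replicate_succ] at h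
  | t + 1, t' + 1, x, x', h => by
    have : pad t x = pad t' x' := by simpa [pad, List.replicate_succ] using h
    simpa using pad_inj this

theorem length_pad (t : ℕ) (x : Str) : (pad t x).length = t + 1 + x.length := by
  simp [pad]; omega

theorem head_pad {t : ℕ} (ht : 0 < t) (x : Str) : (pad t x).head? = some true := by
  obtain ⟨t, rfl⟩ := Nat.exists_eq_succ_of_ne_zero ht.ne'
  simp [pad, List.replicate_succ]

def Thr (t d n : ℕ) : Prop := n ≤ Nat.log 2 t ^ 2 ∧ 2 ^ d ≤ Nat.log 2 t ∧ 4 ≤ Nat.log 2 t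

theorem sq_le_two_pow {n : ℕ} (h : 4 ≤ n) : n ^ 2 ≤ 2 ^ n := by
  induction n, h using Nat.le_induction with
  | base => norm_num
  | succ m hm ih => rw [pow_succ 2 m]; nlinarith

theorem Thr.pos {t d n : ℕ} (h : Thr t d n) : 0 < t := by
  rcases Nat.eq_zero_or_pos t with rfl | h0
  · have := h.2.2
    simp at this
  · exact h0

theorem Thr.le {t d n : ℕ} (h : Thr t d n) : n ≤ t :=
  h.1.trans ((sq_le_two_pow h.2.2).trans (Nat.pow_log_le_self 2 h.pos.ne'))

def stepA (H X : Set Str) (s : Str) : Prop :=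
  (s.head? = some false ∧ s ∈ H) ∨
    ∃ t d I, s = pad t (pad d (enc I)) ∧ Thr t d (nn I) ∧ Width d I.1 ∧ SatO X I

theorem stepA_local (H X Y : Set Str) (s : Str)
    (h : ∀ t : Str, t.length < s.length → (t ∈ X ↔ t ∈ Y)) : stepA H X s ↔ stepA H Y s := by
  refine or_congr_right (exists₃_congr fun t d I => and_congr_right fun h1 =>
    and_congr_right fun h2 => and_congr_right fun _ => SatO.congr fun u hu => h u ?_)
  have := h2.le
  rw [h1, length_pad]
  omega

noncomputable def orc (H : Set Str) : Set Str := (exists_fix _ (stepA_local H)).choose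

theorem mem_orc (H : Set Str) (s : Str) : s ∈ orc H ↔ stepA H (orc H) s :=
  (exists_fix _ (stepA_local H)).choose_spec s

theorem mem_orc_false (H : Set Str) {s : Str} (h : s.head? = some false) : s ∈ orc H ↔ s ∈ H := by
  rw [mem_orc, stepA]
  refine ⟨?_, fun h1 => Or.inl ⟨h, h1⟩⟩
  rintro (h1 | ⟨t, d, I, rfl, h1, -⟩)
  · exact h1.2
  · simp [head_pad h1.pos] at h

theorem mem_orc_code (H : Set Str) {t d : ℕ} (ht : 0 < t) (x : Str) :
    pad t (pad d x) ∈ orc H ↔ ∃ I, enc I = x ∧ Thr t d (nn I) ∧ Width d I.1 ∧ SatO (orc H) I := by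
  rw [mem_orc, stepA]
  constructor
  · rintro (h1 | ⟨t', d', I, h0, h1⟩)
    · simp [head_pad ht] at h1
    · obtain ⟨rfl, h2⟩ := pad_inj h0
      obtain ⟨rfl, rfl⟩ := pad_inj h2
      exact ⟨I, rfl, h1⟩
  · rintro ⟨I, rfl, h⟩
    exact Or.inr ⟨t, d, I, rfl, h⟩

theorem orc_agree {b : ℕ} {H H' : Set Str} (h : Agree b H H') : Agree b (orc H) (orc H') := by
  intro s
  induction hn : s.length using Nat.strong_induction_on generalizing s with
  | _ n ih =>
    intro hs
    rw [mem_orc, mem_orc, stepA_local H (orc H) (orc H') s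
      fun t ht => ih t.length (hn ▸ ht) t rfl (by omega)]
    exact or_congr_left (and_congr_right fun _ => h s (hn ▸ hs))

/-- Short code strings only see very short strings. -/
theorem orc_short {b : ℕ} {H H' : Set Str} (h : Agree b H H') {s : Str}
    (hs : s.head? ≠ some false) (hl : Nat.log 2 s.length ^ 2 ≤ b) : s ∈ orc H ↔ s ∈ orc H' := by
  rw [mem_orc, mem_orc, stepA, stepA]
  simp only [hs, false_and, false_or]
  refine exists₃_congr fun t d I => and_congr_right fun h1 =>
    and_congr_right fun h2 => and_congr_right fun _ => SatO.congr fun u hu => orc_agree h u ?_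
  have h3 : Nat.log 2 t ≤ Nat.log 2 s.length :=
    Nat.log_mono_right (by rw [h1, length_pad]; omega)
  have h4 := Nat.pow_le_pow_left h3 2
  have := h2.1
  omega

/-! ### Few questions up to renaming -/

noncomputable def blists {α : Type} (s : Finset α) : ℕ → Finset (List α)
  | 0 => {[]}
  | n + 1 => insert [] ((s ×ˢ blists s n).image fun p => p.1 :: p.2)

theorem card_blists {α : Type} (s : Finset α) : ∀ n, (blists s n).card ≤ (s.card + 1) ^ n
  | 0 => by simp [blists]
  | n + 1 => by
    have h1 := card_blists s n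
    have h2 : 1 ≤ (s.card + 1) ^ n := Nat.one_le_pow _ _ (by omega)
    refine (Finset.card_insert_le _ _).trans ((Nat.succ_le_succ Finset.card_image_le).trans ?_)
    rw [Finset.card_product, pow_succ]
    nlinarith [Nat.mul_le_mul_left s.card h1]

theorem mem_blists {α : Type} (s : Finset α) : ∀ (n : ℕ) (l : List α), l.length ≤ n →
    (∀ a ∈ l, a ∈ s) → l ∈ blists s n
  | 0, [], _, _ => by simp [blists]
  | _ + 1, [], _, _ => by simp [blists]
  | n + 1, a :: l, h1, h2 => by
    refine Finset.mem_insert_of_mem (Finset.mem_image.2 ⟨(a, l), Finset.mem_product.2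
      ⟨h2 a (by simp), mem_blists s n l (by simpa using h1) fun b hb => h2 b (by simp [hb])⟩, rfl⟩)

theorem card_toFinset_flatMap (C : List (List ℕ × ℕ)) :
    (C.flatMap fun c => c.2 :: c.1).length = (C.map fun c => c.1.length + 1).sum := by
  simp [List.length_flatMap]

theorem length_le_nn (I : SInst) : I.2.length ≤ nn I := by
  have : I.2.length ≤ (I.2.map fun c => c.1.length + 1).sum := by
    induction I.2 with
    | nil => simp
    | cons c l ih => simp only [List.length_cons, List.map_cons, List.sum_cons]; omega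
  unfold nn
  omega

theorem exists_family (n d : ℕ) : ∃ 𝓖 : Finset (Set Str → Prop),
    𝓖.card ≤ 2 ^ ((2 * n + 1) ^ d + (n + 1) ^ 3) ∧
      ∀ I : SInst, nn I ≤ n → Width d I.1 → (fun X => SatO X I) ∈ 𝓖 := by
  let D := (blists (Finset.range n ×ˢ (Finset.univ : Finset Bool)) d).powerset ×ˢ
    blists (blists (Finset.range n) n ×ˢ Finset.range n) n
  refine ⟨D.image fun p X => SatO X (p.1.toList, p.2), Finset.card_image_le.trans ?_, ?_⟩
  · rw [Finset.card_product, Finset.card_powerset, pow_add]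
    refine Nat.mul_le_mul (Nat.pow_le_pow_right (by norm_num) ((card_blists _ _).trans ?_))
      ((card_blists _ _).trans ?_)
    · simp [mul_comm]
    · have h1 := card_blists (Finset.range n) n
      rw [Finset.card_range] at h1
      have h2 : 1 ≤ (n + 1) ^ n := Nat.one_le_pow _ _ (by omega)
      have h3 : (blists (Finset.range n) n ×ˢ Finset.range n).card + 1 ≤ (n + 1) ^ (n + 1) := by
        rw [Finset.card_product, Finset.card_range, pow_succ]
        nlinarith [Nat.mul_le_mul_right n h1]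
      have h4 : n + 1 ≤ 2 ^ (n + 1) := Nat.lt_two_pow_self.le
      refine (Nat.pow_le_pow_left (h3.trans (Nat.pow_le_pow_left h4 _)) n).trans ?_
      rw [← pow_mul, ← pow_mul]
      exact Nat.pow_le_pow_right (by norm_num) (by nlinarith [Nat.zero_le ((n + 1) ^ 2)])
  · intro I hn hd
    let V : List ℕ := vars I.1 ++ I.2.flatMap fun c => c.2 :: c.1
    have hV : V.length ≤ n := by
      rw [List.length_append, length_vars, card_toFinset_flatMap]
      exact hn
    let e : ℕ → ℕ := fun v => V.idxOf v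
    let f : ℕ → ℕ := fun i => V.getD i 0
    have he : ∀ v ∈ V, e v < n := fun v hv => (List.idxOf_lt_length_of_mem hv).trans_le hV
    have hf : ∀ v ∈ V, f (e v) = v := fun v hv => by
      simp [e, f, List.getD, List.getElem?_idxOf hv]
    have m1 : ∀ C ∈ I.1, ∀ l ∈ C, l.1 ∈ V := fun C hC l hl => List.mem_append_left _ (by
      simp only [vars, List.mem_dedup, List.mem_map, List.mem_flatten]
      exact ⟨l, ⟨C, hC, hl⟩, rfl⟩)
    have m2 : ∀ c ∈ I.2, c.2 ∈ V ∧ ∀ v ∈ c.1, v ∈ V := fun c hc =>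
      ⟨List.mem_append_right _ (List.mem_flatMap.2 ⟨c, hc, by simp⟩), fun v hv =>
        List.mem_append_right _ (List.mem_flatMap.2 ⟨c, hc, by simp [hv]⟩)⟩
    refine Finset.mem_image.2 ⟨((I.1.map fun C => C.map fun l => (e l.1, l.2)).toFinset,
      I.2.map fun c => (c.1.map e, e c.2)), Finset.mem_product.2 ⟨?_, ?_⟩, ?_⟩
    · refine Finset.mem_powerset.2 fun C hC => ?_
      obtain ⟨C', hC', rfl⟩ := List.mem_map.1 (List.mem_toFinset.1 hC)
      refine mem_blists _ _ _ (by simpa using hd C' hC') fun l hl => ?_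
      obtain ⟨l', hl', rfl⟩ := List.mem_map.1 hl
      simpa using he _ (m1 C' hC' l' hl')
    · refine mem_blists _ _ _ (by simpa using (length_le_nn I).trans hn) fun c hc => ?_
      obtain ⟨c', hc', rfl⟩ := List.mem_map.1 hc
      refine Finset.mem_product.2 ⟨mem_blists _ _ _
        (by simpa using (len_lt_nn hc').le.trans hn) fun v hv => ?_,
        by simpa using he _ (m2 c' hc').1⟩
      obtain ⟨v', hv', rfl⟩ := List.mem_map.1 hv
      simpa using he _ ((m2 c' hc').2 v' hv')
    · funext X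
      apply propext
      constructor
      · rintro ⟨a, h1, h2⟩
        refine ⟨fun v => a (e v), fun C hC => ?_, fun c hc => ?_⟩
        · obtain ⟨l, hl, h3⟩ := h1 (C.map fun l => (e l.1, l.2))
            (by simp only [Finset.mem_toList, List.mem_toFinset]; exact List.mem_map_of_mem hC)
          obtain ⟨l', hl', rfl⟩ := List.mem_map.1 hl
          exact ⟨l', hl', h3⟩
        · have := h2 _ (List.mem_map_of_mem hc)
          simpa [List.map_map, comp_def] using this
      · rintro ⟨a, h1, h2⟩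
        refine ⟨fun i => a (f i), fun C hC => ?_, fun c hc => ?_⟩
        · simp only [Finset.mem_toList, List.mem_toFinset] at hC
          obtain ⟨C', hC', rfl⟩ := List.mem_map.1 hC
          obtain ⟨l, hl, h3⟩ := h1 C' hC'
          exact ⟨_, List.mem_map_of_mem hl, by simp only [hf _ (m1 C' hC' l hl), h3]⟩
        · obtain ⟨c', hc', rfl⟩ := List.mem_map.1 hc
          have e1 : (c'.1.map e).map (fun i => a (f i)) = c'.1.map a := by
            rw [List.map_map]
            exact List.map_congr_left fun v hv => by simp [hf _ ((m2 c' hc').2 v hv)]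
          simp only [e1, hf _ (m2 c' hc').1]
          exact h2 c' hc'

theorem narrow_satO {U : Type} [Fintype U] (str : U → Str) (hs : Injective str) (base : Set Str)
    (I : SInst) {w : ℕ} (hw : nn I ≤ w) :
    Narrow w fun B : Set U => SatO (base ∪ str '' B) I := by
  rintro B ⟨a, h1, h2⟩
  have hc : ∀ Q : U → Prop, ∃ T : Finset U, T.card ≤ w ∧
      ∀ y, y ∈ T ↔ Q y ∧ ∃ c ∈ I.2, str y = c.1.map a := by
    intro Q
    refine ⟨Finset.univ.filter fun y => Q y ∧ ∃ c ∈ I.2, str y = c.1.map a,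
      le_trans ?_ ((length_le_nn I).trans hw), by simp⟩
    have h3 : (I.2.map fun c => c.1.map a).toFinset.card ≤ I.2.length :=
      (List.toFinset_card_le _).trans (by simp)
    refine le_trans (Finset.card_le_card_of_injOn str (fun y hy => ?_) hs.injOn) h3
    obtain ⟨-, c, hc, e⟩ := (Finset.mem_filter.1 hy).2
    simp only [List.coe_toFinset, List.mem_map, Set.mem_ofPred_eq]
    exact ⟨c, hc, e.symm⟩
  obtain ⟨pos, p1, p2⟩ := hc (· ∈ B)
  obtain ⟨neg, n1, n2⟩ := hc (· ∉ B)
  refine ⟨pos, neg, p1, n1, fun z hz => ((p2 z).1 hz).1, fun z hz => ((n2 z).1 hz).1,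
    fun B' h3 h4 => ⟨a, h1, fun c hc => ?_⟩⟩
  rw [← h2 c hc]
  refine or_congr_right ⟨?_, ?_⟩
  · rintro ⟨y, hy, e⟩
    refine ⟨y, ?_, e⟩
    by_contra h5
    exact h4 y ((n2 y).2 ⟨h5, c, hc, e⟩) hy
  · rintro ⟨y, hy, e⟩
    exact ⟨y, h3 y ((p2 y).2 ⟨hy, c, hc, e⟩), e⟩

end Pool.Agent.Lib.MP_ddf912_lc.Rel
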