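import Pool.Agent.Lib.MP_ddf912_lc.Rel.Hard

/-! An oracle that maps every clique question about itself to a short pointer whose status is
the answer. -/

namespace Pool.Agent.Lib.MP_ddf912_lc.Rel

open N487b59b3 N68a2faeb Pool.Agent.Lib.helper82 Function Classical

theorem CliqueO.congr {X Y : Set Str} {I : CInst}
    (h : ∀ s : Str, s.length ≤ kk I * Nat.log 2 (sz I) → (s ∈ X ↔ s ∈ Y)) :
    CliqueO X I ↔ CliqueO Y I := by
  refine and_congr_right fun h0 => exists_congr fun v => and_congr_right fun _ =>
    and_congr_right fun _ => and_congr_right fun _ => forall₂_congr fun c hc => ?_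
  rw [h]
  have h1 : c.1.length + 1 ≤ kk I := by
    have := List.single_le_sum (l := I.2.2.2.map fun c => c.1.length + 1) (by simp) _
      (List.mem_map_of_mem hc)
    unfold kk
    omega
  have h2 : ∀ l : List ℕ, (l.flatMap (I.1.getD · [])).length ≤ l.length * Nat.log 2 (sz I) := by
    intro l
    induction l with
    | nil => simp
    | cons a l ih =>
      have : (I.1.getD a []).length ≤ Nat.log 2 (sz I) := by
        by_cases ha : a < I.1.length
        · rw [List.getD_eq_getElem _ _ ha]
          exact Nat.le_log_of_pow_le (by norm_num) (h0 _ (List.getElem_mem ha))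
        · rw [List.getD_eq_default _ _ (by omega)]
          simp
      rw [List.flatMap_cons, List.length_append, List.length_cons, add_mul]
      omega
  exact (h2 _).trans (Nat.mul_le_mul_right _ ((List.length_filterMap_le _ _).trans (by omega)))

def Tr (X : Set Str) (h : ℕ) (x : Str) : Prop :=
  ∃ I : CInst, enc I = x ∧ kk I * Nat.log 2 (sz I) < 2 * h + 2 ∧ CliqueO X I

theorem Tr.congr {X Y : Set Str} {h : ℕ} (x : Str)
    (hs : ∀ s : Str, s.length < 2 * h + 2 → (s ∈ X ↔ s ∈ Y)) : Tr X h x ↔ Tr Y h x :=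
  exists_congr fun _ => and_congr_right fun _ => and_congr_right fun h1 =>
    CliqueO.congr fun s h2 => hs s (h2.trans_lt h1)

def Valid (G : Str → Option Str) (h : ℕ) (x p : Str) : Prop :=
  p.length = h ∧ p ≠ List.replicate h true ∧ p ≠ List.replicate h false ∧
    (∃ y : Str, y.length = h ∧ G (pad 1 (p ++ y)) = some x) ∧
    ∀ y x' : Str, y.length = h → G (pad 1 (p ++ y)) = some x' → x' = x

noncomputable def ptr (G : Str → Option Str) (X : Set Str) (h : ℕ) (x : Str) : Str :=
  if hv : ∃ p, Valid G h x p then hv.choose else List.replicate h (decide (Tr X h x))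

def stepB (G : Str → Option Str) (X : Set Str) (s : Str) : Prop :=
  (s.head? = some false ∧ G s ≠ none) ∨
  (∃ p y : Str, s = pad 1 (p ++ y) ∧ y.length = p.length ∧ (p = List.replicate p.length true ∨
    (p ≠ List.replicate p.length false ∧ ∃ x, G s = some x ∧ Tr X p.length x))) ∨
  ∃ h i x, s = pad (2 * h + 2) (pad i x) ∧ (ptr G X h x).getD i false = true

theorem ptr_congr {G G' : Str → Option Str} {X Y : Set Str} {h : ℕ} (x : Str)
    (hG : ∀ s : Str, s.length = 2 * h + 2 → G s = G' s)
    (hs : ∀ s : Str, s.length < 2 * h + 2 → (s ∈ X ↔ s ∈ Y)) : ptr G X h x = ptr G' Y h x := by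
  have e : Valid G h x = Valid G' h x := by
    funext p
    apply propext
    refine and_congr_right fun h1 => and_congr_right fun _ => and_congr_right fun _ =>
      and_congr (exists_congr fun y => and_congr_right fun h2 => ?_)
        (forall₃_congr fun y x' h2 => ?_)
    all_goals rw [hG _ (by rw [length_pad, List.length_append]; omega)]
  unfold ptr
  rw [e, Tr.congr x hs]

theorem stepB_congr {G G' : Str → Option Str} {X Y : Set Str} {s : Str}
    (hG : ∀ t : Str, t.length ≤ s.length → G t = G' t)
    (h : ∀ t : Str, t.length < s.length → (t ∈ X ↔ t ∈ Y)) : stepB G X s ↔ stepB G' Y s := by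
  unfold stepB
  rw [hG s le_rfl]
  refine or_congr_right (or_congr (exists₂_congr fun p y => and_congr_right fun h1 =>
    and_congr_right fun h2 => or_congr_right (and_congr_right fun _ => exists_congr fun x =>
      and_congr_right fun _ => Tr.congr x fun t ht => h t ?_))
    (exists₃_congr fun n i x => and_congr_right fun h1 => ?_))
  · rw [h1, length_pad, List.length_append]
    omega
  · have : 2 * n + 2 < s.length := by
      rw [h1, length_pad]
      omega
    rw [ptr_congr x (fun t ht => hG t (by omega)) fun t ht => h t (by omega)]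

noncomputable def orcB (G : Str → Option Str) : Set Str :=
  (exists_fix (stepB G) fun _ _ _ h => stepB_congr (fun _ _ => rfl) h).choose

theorem mem_orcB (G : Str → Option Str) (s : Str) : s ∈ orcB G ↔ stepB G (orcB G) s :=
  (exists_fix (stepB G) fun _ _ _ h => stepB_congr (fun _ _ => rfl) h).choose_spec s

theorem orcB_agree {b : ℕ} {G G' : Str → Option Str} (h : ∀ s : Str, s.length ≤ b → G s = G' s) :
    Agree b (orcB G) (orcB G') := by
  intro s
  induction hn : s.length using Nat.strong_induction_on generalizing s with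
  | _ n ih =>
    intro hs
    rw [mem_orcB, mem_orcB]
    exact stepB_congr (fun t ht => h t (by omega)) fun t ht => ih t.length (hn ▸ ht) t rfl (by omega)

theorem mem_orcB_false (G : Str → Option Str) {s : Str} (h : s.head? = some false) :
    s ∈ orcB G ↔ G s ≠ none := by
  rw [mem_orcB, stepB]
  refine ⟨?_, fun h1 => Or.inl ⟨h, h1⟩⟩
  rintro (h1 | ⟨p, y, rfl, -⟩ | ⟨n, i, x, rfl, -⟩)
  · exact h1.2
  · simp [head_pad] at h
  · simp [head_pad] at h

theorem mem_orcB_hidden (G : Str → Option Str) {p y : Str} (h : y.length = p.length) :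
    pad 1 (p ++ y) ∈ orcB G ↔ p = List.replicate p.length true ∨
      (p ≠ List.replicate p.length false ∧
        ∃ x, G (pad 1 (p ++ y)) = some x ∧ Tr (orcB G) p.length x) := by
  rw [mem_orcB, stepB]
  refine ⟨?_, fun h1 => Or.inr (Or.inl ⟨p, y, rfl, h, h1⟩)⟩
  rintro (h1 | ⟨p', y', e, h1, h2⟩ | ⟨n, i, x, e, -⟩)
  · simp [head_pad] at h1
  · have e1 := (pad_inj e).2
    have e2 := congrArg List.length e1
    simp only [List.length_append] at e2
    obtain ⟨rfl, -⟩ := List.append_inj e1 (by omega)
    exact h2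
  · have := (pad_inj e).1
    omega

theorem mem_orcB_ptr (G : Str → Option Str) (h i : ℕ) (x : Str) :
    pad (2 * h + 2) (pad i x) ∈ orcB G ↔ (ptr G (orcB G) h x).getD i false = true := by
  rw [mem_orcB, stepB]
  refine ⟨?_, fun h1 => Or.inr (Or.inr ⟨h, i, x, rfl, h1⟩)⟩
  rintro (h1 | ⟨p', y', e, -⟩ | ⟨n, j, x', e, h1⟩)
  · simp [head_pad] at h1
  · have := (pad_inj e).1
    omega
  · obtain ⟨e1, e2⟩ := pad_inj e
    obtain ⟨rfl, rfl⟩ := pad_inj e2
    obtain rfl : h = n := by omega
    exact h1

theorem length_ptr (G : Str → Option Str) (X : Set Str) (h : ℕ) (x : Str) :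
    (ptr G X h x).length = h := by
  unfold ptr
  split_ifs with hv
  · exact hv.choose_spec.1
  · simp

/-- The status of the pointer is the answer. -/
theorem status_ptr (G : Str → Option Str) {h : ℕ} (hh : 0 < h) (x : Str) :
    (∃ y : Str, y.length = h ∧ pad 1 (ptr G (orcB G) h x ++ y) ∈ orcB G) ↔ Tr (orcB G) h x := by
  have hl := length_ptr G (orcB G) h x
  have e : ∀ y : Str, y.length = h → (pad 1 (ptr G (orcB G) h x ++ y) ∈ orcB G ↔ _) :=
    fun y hy => mem_orcB_hidden G (hy.trans hl.symm)
  simp only [hl] at e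
  by_cases hv : ∃ p, Valid G h x p
  · have e1 : ptr G (orcB G) h x = hv.choose := dif_pos hv
    obtain ⟨-, v1, v2, ⟨y0, v3, v4⟩, v5⟩ := hv.choose_spec
    rw [← e1] at v1 v2 v4 v5
    constructor
    · rintro ⟨y, h1, h2⟩
      rcases (e y h1).1 h2 with h3 | ⟨-, x', h3, h4⟩
      · exact absurd h3 v1
      · rwa [← v5 y x' h1 h3]
    · exact fun h1 => ⟨y0, v3, (e y0 v3).2 (Or.inr ⟨v2, x, v4, h1⟩)⟩
  · have e1 : ptr G (orcB G) h x = List.replicate h (decide (Tr (orcB G) h x)) := dif_neg hv
    constructor
    · rintro ⟨y, h1, h2⟩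
      by_contra hc
      rcases (e y h1).1 h2 with h3 | ⟨h3, -⟩
      · simp [e1, hc, hh.ne'] at h3
      · simp [e1, hc] at h3
    · exact fun h1 => ⟨List.replicate h true, by simp, (e _ (by simp)).2 (Or.inl (by simp [e1, h1]))⟩

end Pool.Agent.Lib.MP_ddf912_lc.Rel
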