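import Pool.Agent.Lib.MP_ddf912_lc.Rel.Hard
import Pool.Agent.Lib.MP_ddf912_lc.Rel.Upper
import Pool.Agent.Lib.MP_ddf912_lc.Label

/-! Diagonalization against all oracle algorithms for the clique problem. -/

namespace Pool.Agent.Lib.MP_ddf912_lc.Rel

open N487b59b3 N68a2faeb Pool.Agent.Lib.helper82 Function Classical

theorem exists_scale (C e : ℕ) : ∃ J a : ℕ, 8 * J * e ≤ 2 ^ a ∧ C * (a + 1) ^ 2 ≤ J := by
  obtain ⟨K, hK⟩ := exists_pow_bound 2
  set s := C * (K + 1) * 2 ^ (e + 4) with hs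
  refine ⟨2 ^ s, s + e + 3, ?_, ?_⟩
  · have : e ≤ 2 ^ e := Nat.lt_two_pow_self.le
    rw [pow_add, pow_add]
    nlinarith [Nat.mul_le_mul_left (2 ^ s) this]
  · have h1 := hK (s + e + 3 + 1)
    have h2 : (K + 1) * 2 ^ (e + 4) * (C * (s + e + 3 + 1) ^ 2) ≤
        (K + 1) * 2 ^ (e + 4) * 2 ^ s := by
      calc _ = s * (s + e + 3 + 1) ^ 2 := by rw [hs]; ring
        _ ≤ (s + e + 3 + 1) ^ (2 + 1) := by
          rw [pow_succ' _ 2]; exact Nat.mul_le_mul_right _ (by omega)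
        _ ≤ K * 2 ^ (s + e + 3 + 1) := h1
        _ ≤ (K + 1) * 2 ^ (s + e + 3 + 1) := Nat.mul_le_mul_right _ (by omega)
        _ = _ := by ring
    exact Nat.le_of_mul_le_mul_left h2 (by positivity)

theorem rounds_bound {k a J : ℕ} (h : (k + 8) * (a + 1) ^ 2 ≤ J) :
    k * ((2 * 2 ^ (2 * a) + 1) ^ a + (2 ^ (2 * a) + 1) ^ 3 + 2 * 2 ^ (2 * a) + 3) ≤ 2 ^ J := by
  have h0 : 1 ≤ 2 ^ (2 * a) := Nat.one_le_two_pow
  have h1 : (2 * 2 ^ (2 * a) + 1) ^ a ≤ 2 ^ (6 * (a + 1) ^ 2) := by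
    refine (Nat.pow_le_pow_left (show _ ≤ 2 ^ (2 * a + 2) by rw [pow_add]; omega) a).trans ?_
    rw [← pow_mul]
    exact Nat.pow_le_pow_right (by norm_num) (by nlinarith)
  have h2 : (2 ^ (2 * a) + 1) ^ 3 ≤ 2 ^ (6 * (a + 1) ^ 2) := by
    refine (Nat.pow_le_pow_left (show _ ≤ 2 ^ (2 * a + 1) by rw [pow_add]; omega) 3).trans ?_
    rw [← pow_mul]
    exact Nat.pow_le_pow_right (by norm_num) (by nlinarith)
  have h3 : 2 * 2 ^ (2 * a) + 3 ≤ 2 ^ (6 * (a + 1) ^ 2) :=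
    le_trans (show _ ≤ 2 ^ (2 * a + 3) by rw [pow_add]; omega)
      (Nat.pow_le_pow_right (by norm_num) (by nlinarith))
  have h4 : k ≤ 2 ^ k := Nat.lt_two_pow_self.le
  calc _ ≤ 2 ^ k * (2 ^ 2 * 2 ^ (6 * (a + 1) ^ 2)) := Nat.mul_le_mul h4 (by omega)
    _ = 2 ^ (k + 2 + 6 * (a + 1) ^ 2) := by rw [pow_add, pow_add]; ring
    _ ≤ 2 ^ J := Nat.pow_le_pow_right (by norm_num) (by nlinarith [Nat.zero_le (k * a * a)])

variable {L k : ℕ}

theorem agree_planted (H0 : Set Str) (B : Set (Fin k → Wd L × Wd L)) {b : ℕ}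
    (hb : b < k * (2 * L + 1)) : Agree b H0 (H0 ∪ str '' B) := by
  intro s hs
  refine ⟨Or.inl, ?_⟩
  rintro (h | ⟨y, -, rfl⟩)
  · exact h
  · rw [length_str] at hs
    omega

theorem satO_planted (hk : 0 < k) (H0 : Set Str) (B : Set (Fin k → Wd L × Wd L)) {a : ℕ}
    (ha : (2 * a) ^ 2 < k * (2 * L + 1)) {I : SInst} (hI : nn I ≤ 2 ^ (2 * a)) :
    SatO (orc (H0 ∪ str '' B)) I ↔ SatO (orc H0 ∪ str '' B) I := by
  refine SatO.congr fun s hs => ?_
  by_cases h : s.head? = some false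
  · rw [mem_orc_false _ h, Set.mem_union, Set.mem_union, mem_orc_false _ h]
  · have h1 : Nat.log 2 s.length ≤ 2 * a :=
      (Nat.log_mono_right (hs.le.trans hI)).trans (by rw [Nat.log_pow (by norm_num)])
    rw [← orc_short (agree_planted H0 B ha) h (Nat.pow_le_pow_left h1 2)]
    refine ⟨Or.inl, ?_⟩
    rintro (h2 | ⟨y, -, rfl⟩)
    · exact h2
    · exact absurd (head_str hk y) h

theorem exists_hidden (hk : 0 < k) (H0 : Set Str) {a r : ℕ}
    (ha : (2 * a) ^ 2 < k * (2 * L + 1)) (hL : 2 * 2 ^ (2 * a) ≤ 2 ^ L)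
    (hr : (2 * 2 ^ (2 * a) + 1) ^ a + (2 ^ (2 * a) + 1) ^ 3 + 2 * 2 ^ (2 * a) + 3 ≤ r) :
    ∃ (σ : Wd L → Wd L) (B : Set (Fin k → Wd L × Wd L)), (∀ y ∈ B, ¬ InP σ y) ∧
      ∀ s : Str, s.length ≤ 2 ^ 2 ^ a → (Finset.univ.filter fun y => InP σ y ∧
        ¬ (s ∈ orc (H0 ∪ str '' insert y B) ↔ s ∈ orc (H0 ∪ str '' B))).card ≤
          4 * (2 * 2 ^ (2 * a) + 1) * (k * r) ^ k + 2 ^ (2 * a) := by
  set w := 2 ^ (2 * a) with hw
  have hw0 : 1 ≤ w := Nat.one_le_two_pow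
  obtain ⟨𝓖, g1, g2⟩ := exists_family w a
  obtain ⟨σ, B, h1, h2⟩ := hide (X := Wd L) k w r _
    ((𝓖.image fun G (B : Set (Fin k → Wd L × Wd L)) => G (orc H0 ∪ str '' B)).filter (Narrow w))
    (fun F hF => (Finset.mem_filter.1 hF).2)
    ((Finset.card_filter_le _ _).trans (Finset.card_image_le.trans g1)) (by
      have e : Fintype.card (Wd L) = 2 ^ L := by simp
      rw [e]
      have b1 : 2 * w + 1 < 2 ^ (2 * w + 1) := Nat.lt_two_pow_self
      have b2 : 2 ^ ((2 * w + 1) ^ a + (w + 1) ^ 3) * (4 * (2 * w + 1)) < 2 ^ r := by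
        refine lt_of_lt_of_le ?_ (Nat.pow_le_pow_right (by norm_num) hr)
        rw [show (2 * w + 1) ^ a + (w + 1) ^ 3 + 2 * w + 3 =
          (2 * w + 1) ^ a + (w + 1) ^ 3 + (2 + (2 * w + 1)) by ring, pow_add 2 _ (2 + _),
          pow_add 2 2]
        exact Nat.mul_lt_mul_of_pos_left (by omega) (by positivity)
      calc _ < 2 ^ r * w ^ r := Nat.mul_lt_mul_of_pos_right b2 (by positivity)
        _ = (2 * w) ^ r := (mul_pow _ _ _).symm
        _ ≤ _ := Nat.pow_le_pow_left hL r)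
  refine ⟨σ, B, h1, fun s hs => ?_⟩
  by_cases h : s.head? = some false
  · refine le_trans (Finset.card_le_one.2 fun y hy z hz => ?_) (by omega)
    have key : ∀ y, ¬ (s ∈ orc (H0 ∪ str '' insert y B) ↔ s ∈ orc (H0 ∪ str '' B)) →
        str y = s := fun y hy => by
      by_contra hc
      refine hy ?_
      rw [mem_orc_false _ h, mem_orc_false _ h, Set.image_insert_eq]
      simp [Ne.symm hc]
    exact str_inj ((key y (Finset.mem_filter.1 hy).2.2).trans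
      (key z (Finset.mem_filter.1 hz).2.2).symm)
  by_cases h' : ∃ t d I, s = pad t (pad d (enc I)) ∧ Thr t d (nn I) ∧ Width d (I : SInst).1
  · obtain ⟨t, d, I, rfl, h3, h4⟩ := h'
    have h5 : Nat.log 2 t ≤ 2 ^ a := by
      refine (Nat.log_mono_right (le_trans ?_ hs)).trans (by rw [Nat.log_pow (by norm_num)])
      rw [length_pad]
      omega
    have h6 : nn I ≤ w := h3.1.trans ((Nat.pow_le_pow_left h5 2).trans
      (by rw [← pow_mul, mul_comm]))
    have h7 : d ≤ a := (Nat.pow_le_pow_iff_right (by norm_num)).1 (h3.2.1.trans h5)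
    have h8 : ∀ B' : Set (Fin k → Wd L × Wd L),
        pad t (pad d (enc I)) ∈ orc (H0 ∪ str '' B') ↔ SatO (orc H0 ∪ str '' B') I := by
      intro B'
      rw [mem_orc_code _ h3.pos, ← satO_planted hk H0 B' ha h6]
      refine ⟨?_, fun h9 => ⟨I, rfl, h3, h4, h9⟩⟩
      rintro ⟨I', e, -, -, h9⟩
      rwa [← enc_injective e]
    have h9 := h2 (fun B => SatO (orc H0 ∪ str '' B) I) (Finset.mem_filter.2
      ⟨Finset.mem_image.2 ⟨_, g2 I h6 fun C hC => (h4 C hC).trans h7, rfl⟩,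
        narrow_satO str str_inj _ I h6⟩)
    refine le_trans (le_of_eq ?_) h9
    congr 1
    ext y
    simp only [Finset.mem_filter, h8]
  · have h8 : ∀ H', s ∉ orc H' := fun H' hc => by
      rcases (mem_orc _ _).1 hc with h3 | ⟨t, d, I, h3, h4, h5, -⟩
      · exact h h3.1
      · exact h' ⟨t, d, I, h3, h4, h5⟩
    simp [h8]

theorem stageA {S : (Str × Str) × Str → Str} (hS : PT S) (O : (Str × Str) × Str → Str) (c : ℕ)
    (p : Str) (H : Set Str) (b : ℕ) :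
    ∃ (H' : Set Str) (b' : ℕ), b ≤ b' ∧ Agree b H H' ∧ ∀ H'', Agree b' H' H'' →
      ∃ x, (oClique (orc H'')).κ x = 2 * (8 * c + 2) + 1 ∧ ¬ (x ∈ (oClique (orc H'')).Q ↔
        O ((x, p), hist (orc H'') S (x, p) ((x.length + p.length + 1) ^ c)) = [true]) := by
  obtain ⟨e, he⟩ := query_len hS c
  set k := 8 * c + 2 with hk
  obtain ⟨J, a, j1, j2⟩ := exists_scale (100 * k ^ 3 + p.length + b + k + 8) e
  have a1 : 1 ≤ (a + 1) ^ 2 := Nat.one_le_pow _ _ (by omega)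
  have j3 : 100 * k ^ 3 + p.length + b + k + 8 ≤ J := le_trans (Nat.le_mul_of_pos_right _ a1) j2
  have j4 : (k + 8) * (a + 1) ^ 2 ≤ J := (Nat.mul_le_mul_right _ (by omega)).trans j2
  have j5 := rounds_bound j4
  set w := 2 ^ (2 * a) with hw
  set r := (2 * w + 1) ^ a + (w + 1) ^ 3 + 2 * w + 3 with hr
  have hw0 : 1 ≤ w := Nat.one_le_two_pow
  have j6 : 9 * w + 4 ≤ 2 ^ J := by
    have b1 : 2 * r ≤ k * r := Nat.mul_le_mul_right _ (by omega)
    have b2 : 3 * w ≤ (w + 1) ^ 3 := by nlinarith [Nat.zero_le (w ^ 3), Nat.zero_le (w ^ 2)]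
    have b3 := Nat.zero_le ((2 * w + 1) ^ a)
    omega
  have j7 : 2 ^ J ≤ 2 ^ (2 * J) := Nat.pow_le_pow_right (by norm_num) (by omega)
  have j8 : J < 2 ^ J := Nat.lt_two_pow_self
  have hl1 : J < k * (2 * (2 * J) + 1) := by nlinarith
  have j9 : 8 * (a + 1) ^ 2 ≤ J := (Nat.mul_le_mul_right _ (by omega)).trans j4
  have j10 : (2 * a) ^ 2 ≤ 8 * (a + 1) ^ 2 := by
    have : 8 * (a + 1) ^ 2 = (2 * a) ^ 2 + (4 * a ^ 2 + 16 * a + 8) := by ring
    omega
  have hT0 := Nat.zero_le (2 ^ 2 ^ a)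
  let H0 : Set Str := {s | s ∈ H ∧ s.length ≤ b}
  obtain ⟨σ, B, h1, h2⟩ := exists_hidden (L := 2 * J) (k := k) (by omega) H0 (a := a) (r := r)
    (by omega) (by omega) le_rfl
  set x := enc (hard k σ) with hx
  set R := (x.length + p.length + 1) ^ c with hR
  have x1 : x.length + p.length + 1 ≤ 2 ^ (8 * J) := by
    have b1 : x.length ≤ 100 * (k * 2 ^ (2 * J)) ^ 3 := sz_hard_le (by omega) σ
    have b2 : 1 ≤ (2 ^ (2 * J)) ^ 3 := Nat.one_le_pow _ _ (by positivity)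
    calc _ ≤ (100 * k ^ 3 + p.length + 1) * (2 ^ (2 * J)) ^ 3 := by
          rw [mul_pow, ← mul_assoc] at b1
          have := Nat.mul_le_mul_left (p.length + 1) b2
          rw [add_assoc, add_assoc, add_mul]
          omega
      _ ≤ 2 ^ (2 * J) * (2 ^ (2 * J)) ^ 3 := Nat.mul_le_mul_right _ (by omega)
      _ = _ := by rw [← pow_mul, ← pow_add]; congr 1; ring
  have x2 : R ≤ (2 ^ (8 * J)) ^ c := Nat.pow_le_pow_left x1 c
  set A0 := orc (H0 ∪ str '' B) with hA0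
  have x3 : ∀ j < R, (S ((x, p), hist A0 S (x, p) j)).length ≤ 2 ^ 2 ^ a := fun j hj => by
    refine (he x p _ (2 ^ (8 * J)) ?_ x1 (by rw [length_hist]; omega)).trans ?_
    · exact le_trans (by omega) (Nat.pow_le_pow_right (by norm_num) (show J ≤ 8 * J by omega))
    · rw [← pow_mul]
      exact Nat.pow_le_pow_right (by norm_num) j1
  obtain ⟨y, y1, y2⟩ : ∃ y, InP σ y ∧ ∀ j < R,
      (S ((x, p), hist A0 S (x, p) j) ∈ orc (H0 ∪ str '' insert y B) ↔
        S ((x, p), hist A0 S (x, p) j) ∈ A0) := by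
    by_contra hc
    have b1 : (Finset.univ.filter fun y : Fin k → Wd (2 * J) × Wd (2 * J) => InP σ y) ⊆
        (Finset.range R).biUnion fun j => Finset.univ.filter fun y => InP σ y ∧
          ¬ (S ((x, p), hist A0 S (x, p) j) ∈ orc (H0 ∪ str '' insert y B) ↔
            S ((x, p), hist A0 S (x, p) j) ∈ A0) := by
      intro y hy
      have hy' := (Finset.mem_filter.1 hy).2
      by_contra hn
      refine hc ⟨y, hy', fun j hj => ?_⟩
      by_contra hm
      exact hn (Finset.mem_biUnion.2 ⟨j, Finset.mem_range.2 hj,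
        Finset.mem_filter.2 ⟨Finset.mem_univ _, hy', hm⟩⟩)
    have b2 := (Finset.card_le_card b1).trans (Finset.card_biUnion_le.trans
      (Finset.sum_le_card_nsmul _ _ _ fun j hj => h2 _ (x3 j (Finset.mem_range.1 hj))))
    have b3 := card_InP (k := k) σ
    have b4 : Fintype.card (Wd (2 * J)) = 2 ^ (2 * J) := by simp
    rw [b4] at b3
    have b5 : (2 ^ (2 * J)) ^ k ≤ R * (4 * (2 * w + 1) * (k * r) ^ k + w) := by
      rw [Finset.card_range, smul_eq_mul] at b2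
      exact b3.symm.le.trans b2
    have b6 : (k * r) ^ k ≤ (2 ^ J) ^ k := Nat.pow_le_pow_left j5 k
    have b7 : 1 ≤ (2 ^ J) ^ k := Nat.one_le_pow _ _ (by positivity)
    have b8 : 4 * (2 * w + 1) * (k * r) ^ k + w ≤ 2 ^ J * (2 ^ J) ^ k := by
      have c1 := Nat.mul_le_mul_left (4 * (2 * w + 1)) b6
      have c2 := Nat.mul_le_mul_right ((2 ^ J) ^ k) j6
      have c3 := Nat.mul_le_mul_left w b7
      have c4 : (9 * w + 4) * (2 ^ J) ^ k = 4 * (2 * w + 1) * (2 ^ J) ^ k + w * (2 ^ J) ^ k := by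
        ring
      omega
    have b9 := b5.trans (Nat.mul_le_mul x2 b8)
    rw [← pow_mul, ← pow_mul, ← pow_mul, ← pow_add, ← pow_add,
      Nat.pow_le_pow_iff_right (by norm_num)] at b9
    have c1 : 2 * J * k = 8 * J * c + (J + J * k) + J := by rw [hk]; ring
    omega
  have hag : ∀ B' : Set (Fin k → Wd (2 * J) × Wd (2 * J)), Agree b H (H0 ∪ str '' B') :=
    fun B' => Agree.trans (H' := H0) (fun s hs => ⟨fun h => ⟨h, hs⟩, fun h => h.1⟩)
      (agree_planted H0 B' (by omega))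
  have hQ : ∀ (B' : Set (Fin k → Wd (2 * J) × Wd (2 * J))) (H'' : Set Str),
      Agree (b + 2 ^ 2 ^ a + k * (2 * (2 * J) + 1)) (H0 ∪ str '' B') H'' →
        (x ∈ (oClique (orc H'')).Q ↔ ∃ z ∈ B', InP σ z) := by
    intro B' H'' h3
    rw [hx, mem_oClique, cliqueO_hard (by omega)]
    refine exists_congr fun z => ?_
    rw [mem_orc_false _ (head_str (by omega) z), ← h3 _ (by rw [length_str]; omega), and_comm]
    refine and_congr_left fun _ => ⟨?_, fun h => Or.inr ⟨z, h, rfl⟩⟩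
    rintro (h | ⟨z', h, e⟩)
    · have := h.2
      rw [length_str] at this
      omega
    · rwa [← str_inj e]
  have hκ : ∀ A, (oClique A).κ x = 2 * k + 1 := fun A => by rw [hx, κ_oClique, kk_hard]
  by_cases hout : O ((x, p), hist A0 S (x, p) R) = [true]
  · refine ⟨H0 ∪ str '' B, b + 2 ^ 2 ^ a + k * (2 * (2 * J) + 1), by omega, hag B,
      fun H'' h3 => ⟨x, hκ _, ?_⟩⟩
    rw [hQ B H'' h3, ← hR, hist_congr (A := A0) R fun j hj =>
      orc_agree h3 _ ((x3 j hj).trans (by omega))]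
    simp only [hout, iff_true]
    rintro ⟨z, z1, z2⟩
    exact h1 z z1 z2
  · refine ⟨H0 ∪ str '' insert y B, b + 2 ^ 2 ^ a + k * (2 * (2 * J) + 1), by omega, hag _,
      fun H'' h3 => ⟨x, hκ _, ?_⟩⟩
    rw [hQ _ H'' h3, ← hR, hist_congr (A := A0) R fun j hj => (y2 j hj).symm.trans
      (orc_agree h3 _ ((x3 j hj).trans (by omega)))]
    simp only [hout, iff_false, not_not]
    exact ⟨y, Set.mem_insert _ _, y1⟩

theorem worldA : ∃ A : Set Str, M1O A ⊆ FPTO A ∧ ¬ W1O A ⊆ FPTO A := by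
  have := countable_PT (α := (Str × Str) × Str) (β := Str)
  have : Nonempty {F : (Str × Str) × Str → Str // PT F} := ⟨⟨_, PT.const []⟩⟩
  obtain ⟨H, hH⟩ := finite_ext (ι := {F : (Str × Str) × Str → Str // PT F} ×
      {F : (Str × Str) × Str → Str // PT F} × ℕ × Str) _
    fun i H b => stageA i.1.2 i.2.1.1 i.2.2.1 i.2.2.2 H b
  refine ⟨orc H, M1O_subset H, fun h => ?_⟩
  obtain ⟨-, R, ⟨π, S, O, c, -, hS, hO, hR⟩, h1⟩ := h (oClique_mem _)
  obtain ⟨x, h2, h3⟩ := hH (⟨S, PT.ofIsPolyTime hS⟩, ⟨O, PT.ofIsPolyTime hO⟩, c,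
    π (2 * (8 * c + 2) + 1))
  refine h3 ?_
  rw [h1 x, hR x, h2]

end Pool.Agent.Lib.MP_ddf912_lc.Rel
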