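import Pool.Agent.Lib.MP_ddf912_lc.Rel.RedB

/-! Diagonalization relative to the pointer oracle. -/

namespace Pool.Agent.Lib.MP_ddf912_lc.Rel

open N487b59b3 N68a2faeb Pool.Agent.Lib.helper82 Function Classical

def pt (h j : ℕ) : Str := true :: false :: List.ofFn fun i : Fin (h - 2) => j.testBit i

theorem length_pt {h : ℕ} (hh : 2 ≤ h) (j : ℕ) : (pt h j).length = h := by simp [pt]; omega

theorem pt_ne {h : ℕ} (hh : 2 ≤ h) (j : ℕ) (b : Bool) : pt h j ≠ List.replicate h b := by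
  obtain ⟨n, rfl⟩ := Nat.exists_eq_add_of_le' hh
  cases b <;> simp [pt, List.replicate_succ]

theorem pt_inj {h j j' : ℕ} (hj : j < 2 ^ (h - 2)) (hj' : j' < 2 ^ (h - 2))
    (e : pt h j = pt h j') : j = j' := by
  simp only [pt, List.cons.injEq, true_and] at e
  refine Nat.eq_of_testBit_eq fun i => ?_
  by_cases hi : i < h - 2
  · exact congrFun (List.ofFn_injective e) ⟨i, hi⟩
  · have := Nat.pow_le_pow_right (show 0 < 2 by norm_num) (Nat.le_of_not_lt hi)
    rw [Nat.testBit_lt_two_pow (by omega), Nat.testBit_lt_two_pow (by omega)]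

theorem exists_fresh {U : Type} (T : Finset U) (f : U → Str) (hf : Injective f) (Q : Finset Str)
    (h : Q.card < T.card) : ∃ y ∈ T, f y ∉ Q := by
  by_contra hc
  push Not at hc
  exact absurd (Finset.card_le_card_of_injOn f (fun y hy => hc y hy) hf.injOn) (by omega)

/-- All long pointer questions asked by `s` have their key in `K`. -/
def Keyed (l : ℕ) (K : List (ℕ × Str)) (s : Str) : Prop :=
  ∀ h i x, s = pad (2 * h + 2) (pad i x) → l ≤ 2 * h + 2 → (h, x) ∈ K

def virt (B : Set Str) (l : ℕ) (K : List (ℕ × Str)) : Set Str :=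
  {s | (∃ h i x, s = pad (2 * h + 2) (pad i x) ∧ l ≤ 2 * h + 2 ∧
      (pt h (K.idxOf (h, x))).getD i false = true) ∨
    ((¬ ∃ h i x, s = pad (2 * h + 2) (pad i x) ∧ l ≤ 2 * h + 2) ∧ s ∈ B)}

theorem virt_append (B : Set Str) {l : ℕ} {K : List (ℕ × Str)} (K' : List (ℕ × Str)) {s : Str}
    (h : Keyed l K s) : s ∈ virt B l K ↔ s ∈ virt B l (K ++ K') :=
  or_congr_left (exists₃_congr fun n i x => and_congr_right fun h1 => and_congr_right fun h2 => by
    rw [List.idxOf_append_of_mem (h n i x h1 h2)])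

theorem exists_keys (B : Set Str) (l : ℕ) (S : (Str × Str) × Str → Str) (u : Str × Str) :
    ∀ n, ∃ K : List (ℕ × Str), K.length ≤ n ∧
      ∀ j < n, Keyed l K (S (u, hist (virt B l K) S u j))
  | 0 => ⟨[], le_rfl, by simp⟩
  | n + 1 => by
    obtain ⟨K, h1, h2⟩ := exists_keys B l S u n
    by_cases hq : ∃ h i x, S (u, hist (virt B l K) S u n) = pad (2 * h + 2) (pad i x)
    · obtain ⟨h, i, x, hq⟩ := hq
      refine ⟨K ++ [(h, x)], by simpa, fun j hj => ?_⟩
      rw [hist_congr (A := virt B l K) j fun j' hj' => virt_append B _ (h2 j' (by omega))]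
      intro h' i' x' e hl
      rcases Nat.lt_or_eq_of_le (Nat.le_of_lt_succ hj) with h3 | rfl
      · exact List.mem_append_left _ (h2 j h3 h' i' x' e hl)
      · obtain ⟨e1, e2⟩ := pad_inj (hq.symm.trans e)
        obtain ⟨-, rfl⟩ := pad_inj e2
        obtain rfl : h = h' := by omega
        simp
    · refine ⟨K, by omega, fun j hj => ?_⟩
      rcases Nat.lt_or_eq_of_le (Nat.le_of_lt_succ hj) with h3 | rfl
      · exact h2 j h3
      · exact fun h i x e _ => absurd ⟨h, i, x, e⟩ hq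

theorem exists_data (G : Str → Option Str) {l R : ℕ} (hG : ∀ s : Str, l ≤ s.length → G s = none)
    (K : List (ℕ × Str)) (hK : K.length ≤ R) (hR : ∀ h, l ≤ 2 * h + 2 → 2 ≤ h ∧ R < 2 ^ (h - 2))
    (Q : Finset Str) (hQ : Q.card ≤ R) (Z : Set Str)
    (hZ : ∀ s ∈ Z, s.head? = some false ∧ s.length = l) :
    ∃ G' : Str → Option Str, (∀ s : Str, s.length < l → G s = G' s) ∧
      (∀ s : Str, s.head? = some false → l ≤ s.length → (G' s ≠ none ↔ s ∈ Z)) ∧
      ∀ q ∈ Q, q ∉ Z → Keyed l K q → (q ∈ virt (orcB G) l K ↔ q ∈ orcB G') := by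
  have hw : ∀ κ : ℕ × Str, ∃ y : Str, l ≤ 2 * κ.1 + 2 →
      y.length = κ.1 ∧ pad 1 (pt κ.1 (K.idxOf κ) ++ y) ∉ Q := by
    intro κ
    by_cases hl : l ≤ 2 * κ.1 + 2
    · obtain ⟨y, -, hy⟩ := exists_fresh (Finset.univ : Finset (Fin κ.1 → Bool))
        (fun y => pad 1 (pt κ.1 (K.idxOf κ) ++ List.ofFn y))
        (fun y y' e => List.ofFn_injective (List.append_cancel_left (pad_inj e).2)) Q (by
          have := Nat.pow_le_pow_right (show 0 < 2 by norm_num) (Nat.sub_le κ.1 2)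
          have := (hR _ hl).2
          simp only [Finset.card_univ, Fintype.card_fun, Fintype.card_bool, Fintype.card_fin]
          omega)
      exact ⟨_, fun _ => ⟨by simp, hy⟩⟩
    · exact ⟨[], fun h => absurd h hl⟩
  choose y0 hy0 using hw
  let W : Str → ℕ × Str → Prop := fun s κ =>
    κ ∈ K ∧ l ≤ 2 * κ.1 + 2 ∧ s = pad 1 (pt κ.1 (K.idxOf κ) ++ y0 κ)
  let G' : Str → Option Str := fun s =>
    if hs : ∃ κ, W s κ then some hs.choose.2 else if s ∈ Z then some [] else G s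
  have w1 : ∀ s κ, W s κ → s.length = 2 * κ.1 + 2 := by
    rintro s κ ⟨-, h2, rfl⟩
    rw [length_pad, List.length_append, length_pt (hR _ h2).1, (hy0 κ h2).1]
    omega
  have w2 : ∀ κ ∈ K, l ≤ 2 * κ.1 + 2 → K.idxOf κ < 2 ^ (κ.1 - 2) := fun κ h1 h2 =>
    (List.idxOf_lt_length_of_mem h1).trans (hK.trans_lt (hR _ h2).2)
  have w3 : ∀ (h : ℕ) (p y x : Str), l ≤ 2 * h + 2 → p.length = h → y.length = h →
      G' (pad 1 (p ++ y)) = some x → (h, x) ∈ K ∧ p = pt h (K.idxOf (h, x)) := by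
    intro h p y x h1 h2 h3 h4
    have h5 : (pad 1 (p ++ y)).length = 2 * h + 2 := by
      rw [length_pad, List.length_append]; omega
    simp only [G'] at h4
    split_ifs at h4 with c1 c2
    · have h6 := c1.choose_spec
      have h7 := w1 _ _ h6
      have h8 : c1.choose = (h, x) := Prod.ext (by simp only; omega) (Option.some.inj h4)
      rw [h8] at h6
      exact ⟨h6.1, (List.append_inj (pad_inj h6.2.2).2
        (h2.trans (length_pt (hR _ h1).1 _).symm)).1⟩
    · simpa [head_pad] using (hZ _ c2).1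
    · simp [hG _ (h5 ▸ h1)] at h4
  have w4 : ∀ h x, (h, x) ∈ K → l ≤ 2 * h + 2 → ∀ X, ptr G' X h x = pt h (K.idxOf (h, x)) := by
    intro h x h1 h2 X
    have h3 := (hR _ h2).1
    have inj : ∀ x', (h, x') ∈ K → pt h (K.idxOf (h, x)) = pt h (K.idxOf (h, x')) → x' = x :=
      fun x' h4 h5 => by
        have := (List.idxOf_inj h1).1 (pt_inj (w2 (h, x) h1 h2) (w2 (h, x') h4 h2) h5)
        exact (congrArg Prod.snd this).symm
    have hv : ∃ p, Valid G' h x p := by
      refine ⟨pt h (K.idxOf (h, x)), length_pt h3 _, pt_ne h3 _ _, pt_ne h3 _ _,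
        ⟨y0 (h, x), (hy0 _ h2).1, ?_⟩, fun y x' h4 h5 => ?_⟩
      · have c1 : ∃ κ, W (pad 1 (pt h (K.idxOf (h, x)) ++ y0 (h, x))) κ := ⟨(h, x), h1, h2, rfl⟩
        have h4 : G' (pad 1 (pt h (K.idxOf (h, x)) ++ y0 (h, x))) = some c1.choose.2 := dif_pos c1
        have h5 := w3 h _ _ _ h2 (length_pt h3 _) (hy0 (h, x) h2).1 h4
        rw [h4, inj _ h5.1 h5.2]
      · have h6 := w3 h _ y x' h2 (length_pt h3 _) h4 h5
        exact inj _ h6.1 h6.2
    have e : ptr G' X h x = hv.choose := dif_pos hv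
    obtain ⟨v1, -, -, ⟨y, v2, v3⟩, -⟩ := hv.choose_spec
    exact e.trans (w3 h _ y x h2 v1 v2 v3).2
  have g1 : ∀ s : Str, s.length < l → G s = G' s := fun s hs => by
    have c1 : ¬ ∃ κ, W s κ := fun ⟨κ, h⟩ => by
      have := w1 s κ h
      have := h.2.1
      omega
    have c2 : s ∉ Z := fun h => by
      have := (hZ s h).2
      omega
    simp only [G', c1, c2, dif_neg, not_false_eq_true, if_false]
  have g2 : ∀ s : Str, s.length < l → (s ∈ orcB G ↔ s ∈ orcB G') := fun s hs =>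
    orcB_agree (b := s.length) (fun t ht => g1 t (by omega)) s le_rfl
  refine ⟨G', g1, fun s h1 h2 => ?_, fun q h1 h2 h3 => ?_⟩
  · have c1 : ¬ ∃ κ, W s κ := fun ⟨κ, h⟩ => by simp [h.2.2, head_pad] at h1
    have e : G' s = if s ∈ Z then some [] else G s := dif_neg c1
    by_cases c2 : s ∈ Z <;> simp [e, c2, hG s h2]
  have c1 : ¬ ∃ κ, W q κ := fun ⟨κ, h⟩ => (hy0 κ h.2.1).2 (h.2.2 ▸ h1)
  have g3 : G' q = G q := by simp only [G', c1, h2, dif_neg, not_false_eq_true, if_false]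
  by_cases hp : ∃ h i x, q = pad (2 * h + 2) (pad i x) ∧ l ≤ 2 * h + 2
  · obtain ⟨h, i, x, rfl, h4⟩ := hp
    rw [mem_orcB_ptr, w4 h x (h3 h i x rfl h4) h4]
    constructor
    · rintro (⟨h', i', x', e, -, h5⟩ | ⟨h5, -⟩)
      · obtain ⟨e1, e2⟩ := pad_inj e
        obtain ⟨rfl, rfl⟩ := pad_inj e2
        obtain rfl : h = h' := by omega
        exact h5
      · exact absurd ⟨h, i, x, rfl, h4⟩ h5
    · exact fun h5 => Or.inl ⟨h, i, x, rfl, h4, h5⟩
  have v1 : q ∈ virt (orcB G) l K ↔ q ∈ orcB G :=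
    ⟨fun h => h.elim (fun ⟨h, i, x, h4, h5, _⟩ => absurd ⟨h, i, x, h4, h5⟩ hp) fun h => h.2,
      fun h => Or.inr ⟨hp, h⟩⟩
  rw [v1]
  by_cases hl : q.length < l
  · exact g2 q hl
  rw [mem_orcB, mem_orcB, stepB, stepB, g3, hG q (by omega)]
  refine or_congr_right (or_congr (by simp) (exists₃_congr fun h i x =>
    and_congr_right fun h4 => ?_))
  have h5 : 2 * h + 2 < l := Nat.lt_of_not_le fun h5 => hp ⟨h, i, x, h4, h5⟩
  rw [ptr_congr x (fun s hs => g1 s (by omega)) fun s hs => g2 s (by omega)]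

theorem stageB {S : (Str × Str) × Str → Str} (hS : PT S) (O : (Str × Str) × Str → Str) (c : ℕ)
    (p : Str) (G : Str → Option Str) (b : ℕ) :
    ∃ (G' : Str → Option Str) (b' : ℕ), b ≤ b' ∧ (∀ s : Str, s.length ≤ b → G s = G' s) ∧
      ∀ G'' : Str → Option Str, (∀ s : Str, s.length ≤ b' → G' s = G'' s) →
      ∃ x, (oClique (orcB G'')).κ x = 2 * (8 * c + 4) + 1 ∧ ¬ (x ∈ (oClique (orcB G'')).Q ↔
        O ((x, p), hist (orcB G'') S (x, p) ((x.length + p.length + 1) ^ c)) = [true]) := by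
  obtain ⟨e, he⟩ := query_len hS c
  set k := 8 * c + 4 with hk
  set L := 100 * k ^ 3 + p.length + b + 1 with hL
  have j8 : L < 2 ^ L := Nat.lt_two_pow_self
  have hl1 : L < k * (2 * L + 1) := by nlinarith
  have hl2 : k * (2 * L + 1) = 4 * (4 * L * c) + 8 * L + 8 * c + 4 := by rw [hk]; ring
  have hl3 : L * k = 2 * (4 * L * c) + 4 * L := by rw [hk]; ring
  let G0 : Str → Option Str := fun s => if s.length ≤ b then G s else none
  let σ : Wd L → Wd L := id
  set x := enc (hard k σ) with hx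
  set R := (x.length + p.length + 1) ^ c with hR
  have x1 : x.length + p.length + 1 ≤ 2 ^ (4 * L) := by
    have b1 : x.length ≤ 100 * (k * 2 ^ L) ^ 3 := sz_hard_le (by omega) σ
    have b2 : 1 ≤ (2 ^ L) ^ 3 := Nat.one_le_pow _ _ (by positivity)
    calc _ ≤ (100 * k ^ 3 + p.length + 1) * (2 ^ L) ^ 3 := by
          rw [mul_pow, ← mul_assoc] at b1
          have := Nat.mul_le_mul_left (p.length + 1) b2
          rw [add_assoc, add_assoc, add_mul]
          omega
      _ ≤ 2 ^ L * (2 ^ L) ^ 3 := Nat.mul_le_mul_right _ (by omega)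
      _ = _ := by rw [← pow_mul, ← pow_add]; congr 1; ring
  have x2 : R ≤ (2 ^ (4 * L)) ^ c := Nat.pow_le_pow_left x1 c
  have x4 : R < 2 ^ (4 * L * c + 1) := by
    rw [pow_succ, pow_mul]
    have : 1 ≤ (2 ^ (4 * L)) ^ c := Nat.one_le_pow _ _ (by positivity)
    omega
  obtain ⟨K, k1, k2⟩ := exists_keys (orcB G0) (k * (2 * L + 1)) S (x, p) R
  set A0 := virt (orcB G0) (k * (2 * L + 1)) K with hA0
  have x3 : ∀ j < R, (S ((x, p), hist A0 S (x, p) j)).length ≤ (2 ^ (4 * L)) ^ e := fun j hj => by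
    refine he x p _ (2 ^ (4 * L)) ?_ x1 (by rw [length_hist]; omega)
    exact le_trans (by omega) (Nat.pow_le_pow_right (by norm_num) (show L ≤ 4 * L by omega))
  let Q : Finset Str := (Finset.range R).image fun j => S ((x, p), hist A0 S (x, p) j)
  have hQ : Q.card ≤ R := Finset.card_image_le.trans (by simp)
  have hT0 := Nat.zero_le ((2 ^ (4 * L)) ^ e)
  have hκ : ∀ A, (oClique A).κ x = 2 * k + 1 := fun A => by rw [hx, κ_oClique, kk_hard]
  have main : ∀ B : Set (Fin k → Wd L × Wd L), (∀ y ∈ B, str y ∉ Q) →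
      ∃ (G' : Str → Option Str) (b' : ℕ), b ≤ b' ∧ (∀ s : Str, s.length ≤ b → G s = G' s) ∧
      ∀ G'' : Str → Option Str, (∀ s : Str, s.length ≤ b' → G' s = G'' s) →
        hist (orcB G'') S (x, p) R = hist A0 S (x, p) R ∧
          (x ∈ (oClique (orcB G'')).Q ↔ ∃ y ∈ B, InP σ y) := by
    intro B hB
    obtain ⟨G', g1, g2, g3⟩ := exists_data G0 (l := k * (2 * L + 1)) (R := R)
      (fun s hs => if_neg (by omega)) K k1 (fun h hh => by
        have : 4 * L * c + 3 ≤ h := by omega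
        exact ⟨by omega, x4.trans_le (Nat.pow_le_pow_right (by norm_num) (by omega))⟩) Q hQ
      (str '' B) (by
        rintro s ⟨y, -, rfl⟩
        exact ⟨head_str (by omega) y, length_str y⟩)
    refine ⟨G', b + (2 ^ (4 * L)) ^ e + k * (2 * L + 1), by omega,
      fun s hs => (if_pos hs).symm.trans (g1 s (by omega)), fun G'' h3 => ⟨?_, ?_⟩⟩
    · refine hist_congr (A := A0) R fun j hj => ?_
      have hq : S ((x, p), hist A0 S (x, p) j) ∈ Q :=
        Finset.mem_image_of_mem _ (Finset.mem_range.2 hj)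
      refine (g3 _ hq ?_ (k2 j hj)).trans (orcB_agree h3 _ ((x3 j hj).trans (by omega)))
      rintro ⟨y, h4, h5⟩
      exact hB y h4 (h5 ▸ hq)
    · rw [hx, mem_oClique, cliqueO_hard (by omega)]
      refine exists_congr fun z => ?_
      rw [mem_orcB_false _ (head_str (by omega) z), ← h3 _ (by rw [length_str]; omega),
        g2 _ (head_str (by omega) z) (length_str z).ge, str_inj.mem_set_image, and_comm]
  by_cases hout : O ((x, p), hist A0 S (x, p) R) = [true]
  · obtain ⟨G', b', h1, h2, h3⟩ := main ∅ (by simp)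
    refine ⟨G', b', h1, h2, fun G'' h4 => ⟨x, hκ _, ?_⟩⟩
    rw [← hR, (h3 G'' h4).1, (h3 G'' h4).2]
    simp [hout]
  · obtain ⟨y, y1, y2⟩ := exists_fresh
      (Finset.univ.filter fun y : Fin k → Wd L × Wd L => InP σ y) str str_inj Q (by
        have b3 := card_InP (k := k) σ
        have b4 : Fintype.card (Wd L) = 2 ^ L := by simp
        rw [b4, ← pow_mul] at b3
        refine lt_of_lt_of_le (hQ.trans_lt (x4.trans_le ?_)) b3.ge
        exact Nat.pow_le_pow_right (by norm_num) (by omega))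
    obtain ⟨G', b', h1, h2, h3⟩ := main {y} (by simpa)
    refine ⟨G', b', h1, h2, fun G'' h4 => ⟨x, hκ _, ?_⟩⟩
    rw [← hR, (h3 G'' h4).1, (h3 G'' h4).2]
    simp only [hout, iff_false, not_not]
    exact ⟨y, rfl, (Finset.mem_filter.1 y1).2⟩

theorem worldB : ∃ A : Set Str, W1O A ⊆ M1O A ∧ ¬ W1O A ⊆ FPTO A := by
  have := countable_PT (α := (Str × Str) × Str) (β := Str)
  have : Nonempty {F : (Str × Str) × Str → Str // PT F} := ⟨⟨_, PT.const []⟩⟩
  obtain ⟨G, hG⟩ := finite_ext_gen (ι := {F : (Str × Str) × Str → Str // PT F} ×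
      {F : (Str × Str) × Str → Str // PT F} × ℕ × Str) _
    fun i G b => stageB i.1.2 i.2.1.1 i.2.2.1 i.2.2.2 G b
  refine ⟨orcB G, W1O_subset G, fun h => ?_⟩
  obtain ⟨-, R, ⟨π, S, O, c, -, hS, hO, hR⟩, h1⟩ := h (oClique_mem _)
  obtain ⟨x, h2, h3⟩ := hG (⟨S, PT.ofIsPolyTime hS⟩, ⟨O, PT.ofIsPolyTime hO⟩, c,
    π (2 * (8 * c + 4) + 1))
  refine h3 ?_
  rw [h1 x, hR x, h2]

end Pool.Agent.Lib.MP_ddf912_lc.Rel
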